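import Pool.Agent.Helper43.MEI.XBox

/-!
# Box checker for expressions

`checkE` expands rational polynomial expressions in the kernel and runs `checkX`.
-/

set_option autoImplicit false

namespace Helper43.EBox
open Helper43.KBox Helper43.XBox

/-- expressions; `c n d` is the number `n / d` -/
inductive Ex where
  | c : ℤ → ℕ → Ex
  | v : ℕ → Ex
  | add : Ex → Ex → Ex
  | mul : Ex → Ex → Ex
  | neg : Ex → Ex

instance : Add Ex := ⟨Ex.add⟩
instance : Mul Ex := ⟨Ex.mul⟩
instance : Neg Ex := ⟨Ex.neg⟩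
instance : Sub Ex := ⟨fun a b => Ex.add a (Ex.neg b)⟩

noncomputable def evE (x : ℕ → ℝ) : Ex → ℝ
  | Ex.c n d => (n : ℝ) / (d : ℝ)
  | Ex.v i => x i
  | Ex.add a b => evE x a + evE x b
  | Ex.mul a b => evE x a * evE x b
  | Ex.neg a => - evE x a

theorem ev_add (x : ℕ → ℝ) (a b : Ex) : evE x (a + b) = evE x a + evE x b := rfl
theorem ev_mul (x : ℕ → ℝ) (a b : Ex) : evE x (a * b) = evE x a * evE x b := rfl
theorem ev_neg (x : ℕ → ℝ) (a : Ex) : evE x (-a) = - evE x a := rfl
theorem ev_sub (x : ℕ → ℝ) (a b : Ex) : evE x (a - b) = evE x a - evE x b := by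
  show evE x a + - evE x b = _
  ring

/-- monomials -/
@[reducible] def Mo : Type := ℤ × List ℕ

def ladd : List ℕ → List ℕ → List ℕ
  | [], b => b
  | x :: a, [] => x :: a
  | x :: a, y :: b => Nat.add x y :: ladd a b

theorem mon_ladd : ∀ (a b : List ℕ) (x : ℕ → ℝ),
    PBox.mon (ladd a b) x = PBox.mon a x * PBox.mon b x
  | [], b, x => by simp [ladd, PBox.mon]
  | y :: a, [], x => by simp [ladd, PBox.mon]
  | y :: a, z :: b, x => by
    simp only [ladd, PBox.mon, mon_ladd a b]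
    show x 0 ^ (y + z) * _ = _
    rw [pow_add]
    ring

/-- 0: equal, 1: less, 2: greater -/
def lcmp : List ℕ → List ℕ → ℕ
  | [], [] => 0
  | [], _ :: _ => 1
  | _ :: _, [] => 2
  | x :: a, y :: b => cond (Nat.beq x y) (lcmp a b) (cond (Nat.ble x y) 1 2)

theorem lcmp_eq : ∀ a b : List ℕ, lcmp a b = 0 → a = b
  | [], [], _ => rfl
  | [], _ :: _, h => by simp [lcmp] at h
  | _ :: _, [], h => by simp [lcmp] at h
  | x :: a, y :: b, h => by
    simp only [lcmp] at h
    cases hb : Nat.beq x y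
    · rw [hb] at h
      cases hc : Nat.ble x y
      · rw [hc] at h
        simp at h
      · rw [hc] at h
        simp at h
    · rw [hb] at h
      have e1 := Nat.eq_of_beq_eq_true hb
      have e2 := lcmp_eq a b h
      rw [e1, e2]

def mgA (a : Mo) (p : List Mo) (ih : List Mo → List Mo) : List Mo → List Mo
  | [] => a :: p
  | b :: q => match lcmp a.2 b.2 with
    | 0 => (Int.add a.1 b.1, a.2) :: ih q
    | 1 => a :: ih (b :: q)
    | _ => b :: mgA a p ih q

/-- merge -/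
def mg : List Mo → List Mo → List Mo
  | [] => fun q => q
  | a :: p => mgA a p (mg p)

theorem evm_mgA (x : ℕ → ℝ) (a : Mo) (p : List Mo) (ih : List Mo → List Mo)
    (h : ∀ q, PBox.evm (ih q) x = PBox.evm p x + PBox.evm q x) : ∀ q : List Mo,
    PBox.evm (mgA a p ih q) x = a.1 * PBox.mon a.2 x + PBox.evm p x + PBox.evm q x
  | [] => by simp [mgA, PBox.evm]
  | b :: q => by
    rw [mgA]
    split
    · rename_i h1
      have e := lcmp_eq _ _ h1
      simp only [PBox.evm, h, ← e]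
      have : ((Int.add a.1 b.1 : ℤ) : ℝ) = (a.1 : ℝ) + (b.1 : ℝ) := Int.cast_add _ _
      rw [this]
      ring
    · simp only [PBox.evm, h]
      ring
    · simp only [PBox.evm, evm_mgA x a p ih h q]
      ring

theorem evm_mg (x : ℕ → ℝ) : ∀ p q : List Mo,
    PBox.evm (mg p q) x = PBox.evm p x + PBox.evm q x
  | [], q => by simp [mg, PBox.evm]
  | a :: p, q => by
    show PBox.evm (mgA a p (mg p) q) x = _
    rw [evm_mgA x a p (mg p) (evm_mg x p)]
    simp only [PBox.evm]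

def mulm (m : Mo) : List Mo → List Mo
  | [] => []
  | q :: l => (Int.mul m.1 q.1, ladd m.2 q.2) :: mulm m l

theorem evm_mulm (x : ℕ → ℝ) (m : Mo) : ∀ l : List Mo,
    PBox.evm (mulm m l) x = m.1 * PBox.mon m.2 x * PBox.evm l x
  | [] => by simp [mulm, PBox.evm]
  | q :: l => by
    simp only [mulm, PBox.evm, evm_mulm x m l, mon_ladd]
    have : ((Int.mul m.1 q.1 : ℤ) : ℝ) = (m.1 : ℝ) * (q.1 : ℝ) := Int.cast_mul _ _
    rw [this]
    ring

def mulP : List Mo → List Mo → List Mo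
  | [], _ => []
  | m :: p, q => mg (mulm m q) (mulP p q)

theorem evm_mulP (x : ℕ → ℝ) : ∀ p q : List Mo,
    PBox.evm (mulP p q) x = PBox.evm p x * PBox.evm q x
  | [], q => by simp [mulP, PBox.evm]
  | m :: p, q => by
    simp only [mulP, evm_mg, evm_mulm, evm_mulP x p q, PBox.evm]
    ring

/-- multiply by a natural number -/
def smulP (k : ℕ) : List Mo → List Mo
  | [] => []
  | q :: l => (Int.mul (Int.ofNat k) q.1, q.2) :: smulP k l

theorem evm_smulP (x : ℕ → ℝ) (k : ℕ) : ∀ l : List Mo,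
    PBox.evm (smulP k l) x = k * PBox.evm l x
  | [] => by simp [smulP, PBox.evm]
  | q :: l => by
    simp only [smulP, PBox.evm, evm_smulP x k l]
    have : ((Int.mul (Int.ofNat k) q.1 : ℤ) : ℝ) = (k : ℝ) * (q.1 : ℝ) := by
      rw [show Int.mul (Int.ofNat k) q.1 = (k : ℤ) * q.1 from rfl]
      push_cast
      rfl
    rw [this]
    ring

def negP : List Mo → List Mo
  | [] => []
  | q :: l => (Int.neg q.1, q.2) :: negP l

theorem evm_negP (x : ℕ → ℝ) : ∀ l : List Mo, PBox.evm (negP l) x = - PBox.evm l x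
  | [] => by simp [negP, PBox.evm]
  | q :: l => by
    simp only [negP, PBox.evm, evm_negP x l]
    have : ((Int.neg q.1 : ℤ) : ℝ) = -(q.1 : ℝ) := Int.cast_neg _
    rw [this]
    ring

def unit : ℕ → List ℕ
  | 0 => [1]
  | i + 1 => 0 :: unit i

theorem mon_unit : ∀ (i : ℕ) (x : ℕ → ℝ), PBox.mon (unit i) x = x i
  | 0, x => by simp [unit, PBox.mon]
  | i + 1, x => by
    simp only [unit, PBox.mon, mon_unit i]
    simp

def lc (a b : ℕ) : ℕ := Nat.div (Nat.mul a b) (Nat.gcd a b)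

theorem lc_eq (a b : ℕ) : lc a b = Nat.lcm a b := rfl

/-- polynomial and denominator -/
def norm : Ex → List Mo × ℕ
  | Ex.c _ 0 => ([], 1)
  | Ex.c n (d + 1) => ([(n, [])], Nat.succ d)
  | Ex.v i => ([(1, unit i)], 1)
  | Ex.add a b => match norm a, norm b with
    | (p, d), (q, e) => (mg (smulP (Nat.div (lc d e) d) p) (smulP (Nat.div (lc d e) e) q), lc d e)
  | Ex.mul a b => match norm a, norm b with
    | (p, d), (q, e) => (mulP p q, Nat.mul d e)
  | Ex.neg a => match norm a with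
    | (p, d) => (negP p, d)

theorem norm_sound (x : ℕ → ℝ) : ∀ e : Ex,
    0 < (norm e).2 ∧ evE x e * (norm e).2 = PBox.evm (norm e).1 x
  | Ex.c n 0 => by simp [norm, evE, PBox.evm]
  | Ex.c n (d + 1) => by
    refine ⟨Nat.succ_pos d, ?_⟩
    show (n : ℝ) / ((d + 1 : ℕ) : ℝ) * ((d + 1 : ℕ) : ℝ) = (n : ℝ) * PBox.mon [] x + 0
    have : ((d + 1 : ℕ) : ℝ) ≠ 0 := by positivity
    rw [div_mul_cancel₀ _ this]
    simp [PBox.mon]
  | Ex.v i => by
    refine ⟨Nat.one_pos, ?_⟩
    simp [norm, evE, PBox.evm, mon_unit]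
  | Ex.add a b => by
    obtain ⟨h1, h2⟩ := norm_sound x a
    obtain ⟨h3, h4⟩ := norm_sound x b
    simp only [norm, evE]
    generalize norm a = A at *
    generalize norm b = B at *
    obtain ⟨p, d⟩ := A
    obtain ⟨q, e⟩ := B
    simp only at h1 h2 h3 h4 ⊢
    have hl : 0 < Nat.lcm d e := Nat.lcm_pos h1 h3
    refine ⟨hl, ?_⟩
    rw [evm_mg, evm_smulP, evm_smulP, ← h2, ← h4, lc_eq]
    have e1 : ((Nat.div (Nat.lcm d e) d : ℕ) : ℝ) * (d : ℝ) = (Nat.lcm d e : ℕ) := by
      rw [show Nat.div (Nat.lcm d e) d = Nat.lcm d e / d from rfl]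
      exact_mod_cast Nat.div_mul_cancel (Nat.dvd_lcm_left d e)
    have e2 : ((Nat.div (Nat.lcm d e) e : ℕ) : ℝ) * (e : ℝ) = (Nat.lcm d e : ℕ) := by
      rw [show Nat.div (Nat.lcm d e) e = Nat.lcm d e / e from rfl]
      exact_mod_cast Nat.div_mul_cancel (Nat.dvd_lcm_right d e)
    linear_combination (-(evE x a)) * e1 - (evE x b) * e2
  | Ex.mul a b => by
    obtain ⟨h1, h2⟩ := norm_sound x a
    obtain ⟨h3, h4⟩ := norm_sound x b
    simp only [norm, evE]
    generalize norm a = A at *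
    generalize norm b = B at *
    obtain ⟨p, d⟩ := A
    obtain ⟨q, e⟩ := B
    simp only at h1 h2 h3 h4 ⊢
    refine ⟨Nat.mul_pos h1 h3, ?_⟩
    rw [evm_mulP, ← h2, ← h4, show Nat.mul d e = d * e from rfl]
    push_cast
    ring
  | Ex.neg a => by
    obtain ⟨h1, h2⟩ := norm_sound x a
    simp only [norm, evE]
    generalize norm a = A at *
    obtain ⟨p, d⟩ := A
    simp only at h1 h2 ⊢
    refine ⟨h1, ?_⟩
    rw [evm_negP, ← h2]
    ring

/-- common denominator -/
def cden : List Ex → ℕ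
  | [] => 1
  | e :: es => lc (norm e).2 (cden es)

theorem cden_pos : ∀ es : List Ex, 0 < cden es
  | [] => Nat.one_pos
  | e :: es => Nat.lcm_pos (norm_sound (fun _ => 0) e).1 (cden_pos es)

def scl (L : ℕ) : List Ex → List (List Mo)
  | [] => []
  | e :: es => smulP (Nat.div L (norm e).2) (norm e).1 :: scl L es

def nthE : List Ex → ℕ → Ex
  | [], _ => Ex.c 0 1
  | e :: _, 0 => e
  | _ :: es, i + 1 => nthE es i

theorem evm_scl (x : ℕ → ℝ) (L : ℕ) : ∀ (es : List Ex) (i : ℕ), cden es ∣ L →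
    PBox.evm (nth (scl L es) i) x = L * evE x (nthE es i)
  | [], i, _ => by simp [scl, nth, nthE, PBox.evm, evE]
  | e :: es, 0, h => by
    obtain ⟨h1, h2⟩ := norm_sound x e
    have hd : (norm e).2 ∣ L := (Nat.dvd_lcm_left _ _).trans h
    show PBox.evm (smulP (L / (norm e).2) (norm e).1) x = L * evE x e
    rw [evm_smulP, ← h2]
    have e1 : ((L / (norm e).2 : ℕ) : ℝ) * ((norm e).2 : ℝ) = L := by
      exact_mod_cast Nat.div_mul_cancel hd
    linear_combination evE x e * e1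
  | e :: es, i + 1, h => evm_scl x L es i ((Nat.dvd_lcm_right _ _).trans h)

theorem pps_mul (f : ℕ → ℝ) {L : ℝ} (hL : 0 < L) : ∀ k i : ℕ,
    pps (fun c => L * f c) k i = L * pps f k i
  | 0, _ => by simp [pps]
  | k + 1, i => by
    simp only [pps, pps_mul f hL k, mxs hL]
    ring

/-- **the checker** -/
def checkE (w b : ℕ) (ds : List ℕ) (tb : List (ℕ × ℕ)) (T : XT) (es : List Ex) : Bool :=
  checkX w b ds tb T (scl (cden es) es)

/-- **soundness**: at every point of the unit box there is an alternative `(i, k)` of the table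
with `∑_{m=1}^{k} max p_{i+m} 0 ≤ p_i` -/
theorem checkE_sound {w b : ℕ} {ds : List ℕ} {tb : List (ℕ × ℕ)} {T : XT} {es : List Ex}
    (h : checkE w b ds tb T es = true) (l : List ℝ) (hl : ∀ a ∈ l, 0 ≤ a ∧ a ≤ 1) :
    ∃ e ∈ tb, pps (fun c => evE (PBox.xs l) (nthE es c)) e.2 (e.1 + 1) ≤
      evE (PBox.xs l) (nthE es e.1) := by
  obtain ⟨e, he, key⟩ := checkX_sound h l hl
  refine ⟨e, he, ?_⟩
  have hL : (0 : ℝ) < (cden es : ℕ) := by exact_mod_cast cden_pos es
  simp only [evm_scl _ _ es _ dvd_rfl] at key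
  rw [pps_mul _ hL] at key
  exact le_of_mul_le_mul_left key hL

/-- one polynomial, nonnegative -/
theorem checkE_sound1 {w b : ℕ} {ds : List ℕ} {T : XT} {e : Ex}
    (h : checkE w b ds [(0, 0)] T [e] = true) (l : List ℝ) (hl : ∀ a ∈ l, 0 ≤ a ∧ a ≤ 1) :
    0 ≤ evE (PBox.xs l) e := by
  obtain ⟨f, hf, h0⟩ := checkE_sound h l hl
  rw [List.mem_singleton] at hf
  subst hf
  exact h0

end Helper43.EBox
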