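import Pool.Agent.Helper43.MEI.EBox

/-!
# Fast box checker for expressions

`checkF` expands rational polynomial expressions in Horner form, bounds them from below (the main
polynomials) or from above (the arguments of the positive parts) by polynomials of bounded
degree with rounded coefficients, and runs `checkX`.
-/

set_option autoImplicit false

namespace Helper43.FBox
open Helper43.KBox Helper43.XBox Helper43.EBox

/-- Horner form: `h a b = a + x₀ b`, `a` in the later variables -/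
inductive H where
  | c : ℤ → H
  | h : H → H → H

noncomputable def evH : H → (ℕ → ℝ) → ℝ
  | H.c n, _ => (n : ℝ)
  | H.h a b, x => evH a (fun i => x (i + 1)) + x 0 * evH b x

def isz : H → Bool
  | H.c (Int.ofNat 0) => true
  | _ => false

theorem isz_ev : ∀ {p : H}, isz p = true → ∀ x, evH p x = 0
  | H.c (Int.ofNat 0), _, x => by simp [evH]
  | H.c (Int.ofNat (n + 1)), h, x => absurd (show false = true from h) (by decide)
  | H.c (Int.negSucc n), h, x => absurd (show false = true from h) (by decide)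
  | H.h a b, h, x => absurd (show false = true from h) (by decide)

def addc (n : ℤ) : H → H
  | H.c m => H.c (Int.add n m)
  | H.h a b => H.h (addc n a) b

theorem ev_addc (n : ℤ) : ∀ (p : H) (x : ℕ → ℝ), evH (addc n p) x = n + evH p x
  | H.c m, x => by
    simp only [addc, evH]
    exact_mod_cast Int.cast_add n m
  | H.h a b, x => by
    simp only [addc, evH, ev_addc n a]
    ring

def add : H → H → H
  | H.c n => addc n
  | H.h a b => fun q => match q with
    | H.c m => H.h (addc m a) b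
    | H.h a' b' => H.h (add a a') (add b b')

theorem ev_addH : ∀ (p q : H) (x : ℕ → ℝ), evH (add p q) x = evH p x + evH q x
  | H.c n, q, x => by
    show evH (addc n q) x = _
    rw [ev_addc]
    rfl
  | H.h a b, H.c m, x => by
    show evH (H.h (addc m a) b) x = _
    simp only [evH, ev_addc]
    ring
  | H.h a b, H.h a' b', x => by
    show evH (H.h (add a a') (add b b')) x = _
    simp only [evH, ev_addH a a', ev_addH b b']
    ring

def smul (n : ℤ) : H → H
  | H.c m => H.c (Int.mul n m)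
  | H.h a b => H.h (smul n a) (smul n b)

theorem ev_smul (n : ℤ) : ∀ (p : H) (x : ℕ → ℝ), evH (smul n p) x = n * evH p x
  | H.c m, x => by
    simp only [smul, evH]
    exact_mod_cast Int.cast_mul n m
  | H.h a b, x => by
    simp only [smul, evH, ev_smul n a, ev_smul n b]
    ring

/-- multiplication by a number, zero kept short -/
def mulc (n : ℤ) (q : H) : H := cond (isz (H.c n)) (H.c 0) (smul n q)

theorem ev_mulc (n : ℤ) (q : H) (x : ℕ → ℝ) : evH (mulc n q) x = n * evH q x := by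
  unfold mulc
  cases h : isz (H.c n)
  · exact ev_smul n q x
  · have := isz_ev h x
    simp only [evH] at this
    show evH (H.c 0) x = _
    rw [this]
    simp [evH]

/-- multiplication of a polynomial in the later variables (given as a function) -/
def mulL (f : H → H) : H → H
  | H.c n => f (H.c n)
  | H.h a b => H.h (f a) (mulL f b)

/-- lift of a polynomial in the later variables -/
def lift (p : H) : H := match p with
  | H.c n => H.c n
  | H.h a b => H.h (H.h a b) (H.c 0)

theorem ev_lift (p : H) (x : ℕ → ℝ) : evH (lift p) x = evH p (fun i => x (i + 1)) := by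
  cases p with
  | c n => rfl
  | h a b => simp [lift, evH]

/-- as `mulL`, with the lift at the end -/
def mulM (f : H → H) : H → H
  | H.c n => lift (f (H.c n))
  | H.h a b => H.h (f a) (mulM f b)

theorem ev_mulM (f : H → H) (p : ℝ) (x : ℕ → ℝ)
    (hf : ∀ q, evH (f q) (fun i => x (i + 1)) = p * evH q (fun i => x (i + 1))) :
    ∀ q : H, evH (mulM f q) x = p * evH q x
  | H.c n => by
    show evH (lift (f (H.c n))) x = _
    rw [ev_lift, hf]
    rfl
  | H.h a b => by
    show evH (H.h (f a) (mulM f b)) x = _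
    simp only [evH, hf, ev_mulM f p x hf b]
    ring

def mul : H → H → H
  | H.c n => mulc n
  | H.h a b => fun q => cond (isz a) (H.h (H.c 0) (mul b q))
      (cond (isz b) (mulM (mul a) q) (add (mulM (mul a) q) (H.h (H.c 0) (mul b q))))

theorem ev_mulH : ∀ (p q : H) (x : ℕ → ℝ), evH (mul p q) x = evH p x * evH q x
  | H.c n, q, x => ev_mulc n q x
  | H.h a b, q, x => by
    have ha := ev_mulM (mul a) (evH a (fun i => x (i + 1))) x
      (fun q => ev_mulH a q _) q
    have hb := ev_mulH b q x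
    show evH (cond (isz a) (H.h (H.c 0) (mul b q))
      (cond (isz b) (mulM (mul a) q) (add (mulM (mul a) q) (H.h (H.c 0) (mul b q))))) x = _
    cases h1 : isz a
    · cases h2 : isz b
      · show evH (add (mulM (mul a) q) (H.h (H.c 0) (mul b q))) x = _
        rw [ev_addH, ha]
        simp only [evH, hb]
        push_cast
        ring
      · show evH (mulM (mul a) q) x = _
        rw [ha]
        simp only [evH, isz_ev h2 x]
        ring
    · show evH (H.h (H.c 0) (mul b q)) x = _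
      simp only [evH, hb, isz_ev h1]
      push_cast
      ring

def neg : H → H
  | H.c n => H.c (Int.neg n)
  | H.h a b => H.h (neg a) (neg b)

theorem ev_negH : ∀ (p : H) (x : ℕ → ℝ), evH (neg p) x = - evH p x
  | H.c n, x => by
    simp only [neg, evH]
    exact_mod_cast Int.cast_neg n
  | H.h a b, x => by
    simp only [neg, evH, ev_negH a, ev_negH b]
    ring

/-- the variable `i` -/
def var : ℕ → H
  | 0 => H.h (H.c 0) (H.c 1)
  | i + 1 => H.h (var i) (H.c 0)

theorem ev_var : ∀ (i : ℕ) (x : ℕ → ℝ), evH (var i) x = x i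
  | 0, x => by simp [var, evH]
  | i + 1, x => by simp [var, evH, ev_var i]

/-- multiplication by a natural number, one skipped -/
def sm (k : ℕ) (p : H) : H := cond (Nat.beq k 1) p (smul (Int.ofNat k) p)

theorem ev_sm (k : ℕ) (p : H) (x : ℕ → ℝ) : evH (sm k p) x = k * evH p x := by
  unfold sm
  cases h : Nat.beq k 1
  · show evH (smul (Int.ofNat k) p) x = _
    rw [ev_smul]
    norm_num
  · rw [Nat.eq_of_beq_eq_true h]
    show evH p x = _
    norm_num

def normH : Ex → H × ℕ
  | Ex.c _ 0 => (H.c 0, 1)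
  | Ex.c n (d + 1) => (H.c n, Nat.succ d)
  | Ex.v i => (var i, 1)
  | Ex.add a b => match normH a, normH b with
    | (p, d), (q, e) => (add (sm (Nat.div (lc d e) d) p) (sm (Nat.div (lc d e) e) q), lc d e)
  | Ex.mul a b => match normH a, normH b with
    | (p, d), (q, e) => (mul p q, Nat.mul d e)
  | Ex.neg a => match normH a with
    | (p, d) => (neg p, d)

theorem normH_sound (x : ℕ → ℝ) : ∀ e : Ex,
    0 < (normH e).2 ∧ evE x e * (normH e).2 = evH (normH e).1 x
  | Ex.c n 0 => by simp [normH, evE, evH]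
  | Ex.c n (d + 1) => by
    refine ⟨Nat.succ_pos d, ?_⟩
    show (n : ℝ) / ((d + 1 : ℕ) : ℝ) * ((d + 1 : ℕ) : ℝ) = (n : ℝ)
    have : ((d + 1 : ℕ) : ℝ) ≠ 0 := by positivity
    rw [div_mul_cancel₀ _ this]
  | Ex.v i => by
    refine ⟨Nat.one_pos, ?_⟩
    simp [normH, evE, ev_var]
  | Ex.add a b => by
    obtain ⟨h1, h2⟩ := normH_sound x a
    obtain ⟨h3, h4⟩ := normH_sound x b
    simp only [normH, evE]
    generalize normH a = A at *
    generalize normH b = B at *
    obtain ⟨p, d⟩ := A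
    obtain ⟨q, e⟩ := B
    simp only at h1 h2 h3 h4 ⊢
    have hl : 0 < Nat.lcm d e := Nat.lcm_pos h1 h3
    refine ⟨hl, ?_⟩
    rw [ev_addH, ev_sm, ev_sm, ← h2, ← h4, lc_eq]
    have e1 : ((Nat.div (Nat.lcm d e) d : ℕ) : ℝ) * (d : ℝ) = (Nat.lcm d e : ℕ) := by
      rw [show Nat.div (Nat.lcm d e) d = Nat.lcm d e / d from rfl]
      exact_mod_cast Nat.div_mul_cancel (Nat.dvd_lcm_left d e)
    have e2 : ((Nat.div (Nat.lcm d e) e : ℕ) : ℝ) * (e : ℝ) = (Nat.lcm d e : ℕ) := by
      rw [show Nat.div (Nat.lcm d e) e = Nat.lcm d e / e from rfl]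
      exact_mod_cast Nat.div_mul_cancel (Nat.dvd_lcm_right d e)
    linear_combination (-(evE x a)) * e1 - (evE x b) * e2
  | Ex.mul a b => by
    obtain ⟨h1, h2⟩ := normH_sound x a
    obtain ⟨h3, h4⟩ := normH_sound x b
    simp only [normH, evE]
    generalize normH a = A at *
    generalize normH b = B at *
    obtain ⟨p, d⟩ := A
    obtain ⟨q, e⟩ := B
    simp only at h1 h2 h3 h4 ⊢
    refine ⟨Nat.mul_pos h1 h3, ?_⟩
    rw [ev_mulH, ← h2, ← h4, show Nat.mul d e = d * e from rfl]
    push_cast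
    ring
  | Ex.neg a => by
    obtain ⟨h1, h2⟩ := normH_sound x a
    simp only [normH, evE]
    generalize normH a = A at *
    obtain ⟨p, d⟩ := A
    simp only at h1 h2 ⊢
    refine ⟨h1, ?_⟩
    rw [ev_negH, ← h2]
    ring

/-- put an exponent in front -/
def consk (k : ℕ) : List Mo → List Mo
  | [] => []
  | m :: l => (m.1, k :: m.2) :: consk k l

theorem evm_consk (k : ℕ) (x : ℕ → ℝ) : ∀ l : List Mo,
    PBox.evm (consk k l) x = x 0 ^ k * PBox.evm l (fun i => x (i + 1))
  | [] => by simp [consk, PBox.evm]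
  | m :: l => by
    simp only [consk, PBox.evm, PBox.mon, evm_consk k x l]
    ring

def app : List Mo → List Mo → List Mo
  | [], q => q
  | m :: p, q => m :: app p q

theorem evm_app (x : ℕ → ℝ) : ∀ p q : List Mo,
    PBox.evm (app p q) x = PBox.evm p x + PBox.evm q x
  | [], q => by simp [app, PBox.evm]
  | m :: p, q => by
    simp only [app, PBox.evm, evm_app x p q]
    ring

/-- list of the monomials -/
def fl : H → ℕ → List Mo
  | H.c (Int.ofNat 0), _ => []
  | H.c n, 0 => [(n, [])]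
  | H.c n, k + 1 => [(n, [Nat.succ k])]
  | H.h a b, k => app (consk k (fl a 0)) (fl b (Nat.succ k))

theorem evm_fl : ∀ (p : H) (k : ℕ) (x : ℕ → ℝ), PBox.evm (fl p k) x = x 0 ^ k * evH p x
  | H.c (Int.ofNat 0), k, x => by
    show (0 : ℝ) = x 0 ^ k * ((Int.ofNat 0 : ℤ) : ℝ)
    simp
  | H.c (Int.ofNat (n + 1)), 0, x => by
    show ((Int.ofNat (n + 1) : ℤ) : ℝ) * 1 + 0 = x 0 ^ 0 * ((Int.ofNat (n + 1) : ℤ) : ℝ)
    ring
  | H.c (Int.negSucc n), 0, x => by
    show ((Int.negSucc n : ℤ) : ℝ) * 1 + 0 = x 0 ^ 0 * ((Int.negSucc n : ℤ) : ℝ)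
    ring
  | H.c (Int.ofNat (n + 1)), k + 1, x => by
    show ((Int.ofNat (n + 1) : ℤ) : ℝ) * (x 0 ^ (k + 1) * 1) + 0 =
      x 0 ^ (k + 1) * ((Int.ofNat (n + 1) : ℤ) : ℝ)
    ring
  | H.c (Int.negSucc n), k + 1, x => by
    show ((Int.negSucc n : ℤ) : ℝ) * (x 0 ^ (k + 1) * 1) + 0 =
      x 0 ^ (k + 1) * ((Int.negSucc n : ℤ) : ℝ)
    ring
  | H.h a b, k, x => by
    simp only [fl, evm_app, evm_consk, evm_fl a, evm_fl b, evH, Nat.succ_eq_add_one, pow_succ,
      pow_zero]
    ring

/-- the exponents fit -/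
def fits : List ℕ → List ℕ → Bool
  | _, [] => true
  | [], _ :: _ => false
  | d :: ds, e :: es => cond (Nat.ble e d) (fits ds es) false

/-- exponents cut at `ds` -/
def clip : List ℕ → List ℕ → List ℕ
  | _, [] => []
  | [], _ :: _ => []
  | d :: ds, e :: es => cond (Nat.ble e d) e d :: clip ds es

theorem mon_nonneg : ∀ (e : List ℕ) (x : ℕ → ℝ), (∀ i, 0 ≤ x i) → 0 ≤ PBox.mon e x
  | [], x, _ => by simp [PBox.mon]
  | k :: e, x, h => mul_nonneg (pow_nonneg (h 0) k) (mon_nonneg e _ fun i => h (i + 1))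

theorem mon_le_one : ∀ (e : List ℕ) (x : ℕ → ℝ), (∀ i, 0 ≤ x i) → (∀ i, x i ≤ 1) →
    PBox.mon e x ≤ 1
  | [], x, _, _ => by simp [PBox.mon]
  | k :: e, x, h, h1 => mul_le_one₀ (pow_le_one₀ (h 0) (h1 0))
      (mon_nonneg e _ fun i => h (i + 1)) (mon_le_one e _ (fun i => h (i + 1)) fun i => h1 (i + 1))

theorem mon_clip : ∀ (ds e : List ℕ) (x : ℕ → ℝ), (∀ i, 0 ≤ x i) → (∀ i, x i ≤ 1) →
    PBox.mon e x ≤ PBox.mon (clip ds e) x
  | _, [], x, _, _ => by
    rw [clip]
  | [], k :: e, x, h, h1 => by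
    rw [clip]
    exact mon_le_one (k :: e) x h h1
  | d :: ds, k :: e, x, h, h1 => by
    rw [clip]
    have ih := mon_clip ds e (fun i => x (i + 1)) (fun i => h (i + 1)) (fun i => h1 (i + 1))
    have n0 := mon_nonneg e (fun i => x (i + 1)) fun i => h (i + 1)
    have n1 := mon_nonneg (clip ds e) (fun i => x (i + 1)) fun i => h (i + 1)
    show x 0 ^ k * _ ≤ x 0 ^ _ * _
    cases hb : Nat.ble k d
    · show x 0 ^ k * _ ≤ x 0 ^ d * _
      have hk : d ≤ k := by
        by_contra hc
        have : Nat.ble k d = true := Nat.ble_eq_true_of_le (by omega)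
        rw [this] at hb
        exact Bool.noConfusion hb
      exact mul_le_mul (pow_le_pow_of_le_one (h 0) (h1 0) hk) ih n0 (pow_nonneg (h 0) d)
    · exact mul_le_mul_of_nonneg_left ih (pow_nonneg (h 0) k)

/-- one monomial from below, coefficient divided by `Q` -/
def tr1 (Q : ℕ) (ds : List ℕ) (m : Mo) : Mo := match m.1 with
  | Int.ofNat n => cond (fits ds m.2) (Int.ofNat (Nat.div n Q), m.2) (0, [])
  | Int.negSucc n => (Int.negSucc (Nat.div n Q), clip ds m.2)

theorem tr1_le {Q : ℕ} (hQ : 0 < Q) (ds : List ℕ) (m : Mo) {x : ℕ → ℝ} (h : ∀ i, 0 ≤ x i)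
    (h1 : ∀ i, x i ≤ 1) :
    Q * ((tr1 Q ds m).1 * PBox.mon (tr1 Q ds m).2 x) ≤ m.1 * PBox.mon m.2 x := by
  obtain ⟨c, e⟩ := m
  have hQr : (0 : ℝ) ≤ Q := Nat.cast_nonneg Q
  cases c with
  | ofNat n =>
    have n0 := mon_nonneg e x h
    cases hf : fits ds e
    · have e1 : tr1 Q ds (Int.ofNat n, e) = (0, []) := by simp only [tr1, hf, cond]
      rw [e1]
      have : (0 : ℝ) ≤ ((Int.ofNat n : ℤ) : ℝ) := by
        rw [show ((Int.ofNat n : ℤ) : ℝ) = (n : ℝ) from Int.cast_natCast n]
        exact Nat.cast_nonneg n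
      simp only [Int.cast_zero, zero_mul, mul_zero]
      exact mul_nonneg this n0
    · have e1 : tr1 Q ds (Int.ofNat n, e) = (Int.ofNat (Nat.div n Q), e) := by
        simp only [tr1, hf, cond]
      rw [e1]
      have h2 : (Q : ℝ) * ((Nat.div n Q : ℕ) : ℝ) ≤ (n : ℝ) := by
        exact_mod_cast Nat.mul_div_le n Q
      show (Q : ℝ) * (((Int.ofNat (Nat.div n Q) : ℤ) : ℝ) * _) ≤ ((Int.ofNat n : ℤ) : ℝ) * _
      have e2 : ((Int.ofNat (Nat.div n Q) : ℤ) : ℝ) = ((Nat.div n Q : ℕ) : ℝ) := Int.cast_natCast _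
      have e3 : ((Int.ofNat n : ℤ) : ℝ) = (n : ℝ) := Int.cast_natCast _
      rw [e2, e3]
      have := mul_le_mul_of_nonneg_right h2 n0
      linarith
  | negSucc n =>
    have n1 := mon_nonneg (clip ds e) x h
    have n2 := mon_clip ds e x h h1
    show (Q : ℝ) * (((Int.negSucc (Nat.div n Q) : ℤ) : ℝ) * PBox.mon (clip ds e) x) ≤
      ((Int.negSucc n : ℤ) : ℝ) * PBox.mon e x
    rw [Int.cast_negSucc, Int.cast_negSucc]
    have h2 : ((n : ℝ) + 1) ≤ (Q : ℝ) * (((Nat.div n Q : ℕ) : ℝ) + 1) := by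
      have := Nat.lt_mul_div_succ n hQ
      have h3 : n + 1 ≤ Q * (n / Q + 1) := this
      exact_mod_cast h3
    push_cast
    have h4 := mul_le_mul_of_nonneg_right h2 n1
    have h5 := mul_le_mul_of_nonneg_left n2 (show (0 : ℝ) ≤ (n : ℝ) + 1 by positivity)
    have h6 : ((Nat.div n Q : ℕ) : ℝ) = ((n / Q : ℕ) : ℝ) := rfl
    linarith

def tr (Q : ℕ) (ds : List ℕ) : List Mo → List Mo
  | [] => []
  | m :: l => tr1 Q ds m :: tr Q ds l

theorem tr_le {Q : ℕ} (hQ : 0 < Q) (ds : List ℕ) {x : ℕ → ℝ} (h : ∀ i, 0 ≤ x i)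
    (h1 : ∀ i, x i ≤ 1) : ∀ l : List Mo, Q * PBox.evm (tr Q ds l) x ≤ PBox.evm l x
  | [] => by simp [tr, PBox.evm]
  | m :: l => by
    have a := tr1_le hQ ds m h h1
    have b := tr_le hQ ds h h1 l
    simp only [tr, PBox.evm]
    linarith

/-- bound from below (`true`) or from above (`false`) -/
def bd (Q : ℕ) (ds : List ℕ) (s : Bool) (p : H) : List Mo :=
  cond s (tr Q ds (fl p 0)) (negP (tr Q ds (fl (neg p) 0)))

def nthB : List Bool → ℕ → Bool
  | [], _ => true
  | b :: _, 0 => b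
  | _ :: l, i + 1 => nthB l i

def normL : List Ex → List (H × ℕ)
  | [] => []
  | e :: es => normH e :: normL es

def cdn : List (H × ℕ) → ℕ
  | [] => 1
  | e :: es => lc e.2 (cdn es)

def sclF (Q : ℕ) (ds : List ℕ) (L : ℕ) : List Bool → List (H × ℕ) → List (List Mo)
  | _, [] => []
  | [], e :: es => bd Q ds true (sm (Nat.div L e.2) e.1) :: sclF Q ds L [] es
  | k :: ks, e :: es => bd Q ds k (sm (Nat.div L e.2) e.1) :: sclF Q ds L ks es

theorem cdn_pos : ∀ es : List Ex, 0 < cdn (normL es)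
  | [] => Nat.one_pos
  | e :: es => Nat.lcm_pos (normH_sound (fun _ => 0) e).1 (cdn_pos es)

theorem sc_ev (x : ℕ → ℝ) {L : ℕ} {e : Ex} (hd : (normH e).2 ∣ L) :
    evH (sm (Nat.div L (normH e).2) (normH e).1) x = L * evE x e := by
  obtain ⟨h1, h2⟩ := normH_sound x e
  rw [ev_sm, ← h2]
  have e1 : ((Nat.div L (normH e).2 : ℕ) : ℝ) * ((normH e).2 : ℝ) = L := by
    exact_mod_cast Nat.div_mul_cancel hd
  linear_combination evE x e * e1

theorem bd_true {Q : ℕ} (hQ : 0 < Q) (ds : List ℕ) {x : ℕ → ℝ} (h : ∀ i, 0 ≤ x i)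
    (h1 : ∀ i, x i ≤ 1) (p : H) : Q * PBox.evm (bd Q ds true p) x ≤ evH p x := by
  have := tr_le hQ ds h h1 (fl p 0)
  rw [evm_fl] at this
  simpa [bd] using this

theorem bd_false {Q : ℕ} (hQ : 0 < Q) (ds : List ℕ) {x : ℕ → ℝ} (h : ∀ i, 0 ≤ x i)
    (h1 : ∀ i, x i ≤ 1) (p : H) : evH p x ≤ Q * PBox.evm (bd Q ds false p) x := by
  have := tr_le hQ ds h h1 (fl (neg p) 0)
  rw [evm_fl, ev_negH] at this
  show _ ≤ (Q : ℝ) * PBox.evm (negP (tr Q ds (fl (neg p) 0))) x
  rw [evm_negP]
  simp only [pow_zero, one_mul] at this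
  linarith

theorem evm_sclF {Q : ℕ} (hQ : 0 < Q) (ds : List ℕ) {x : ℕ → ℝ} (h : ∀ i, 0 ≤ x i)
    (h1 : ∀ i, x i ≤ 1) (L : ℕ) : ∀ (ks : List Bool) (es : List Ex) (i : ℕ),
    cdn (normL es) ∣ L →
    (nthB ks i = true → Q * PBox.evm (nth (sclF Q ds L ks (normL es)) i) x
      ≤ L * evE x (nthE es i)) ∧
    (nthB ks i = false → L * evE x (nthE es i) ≤
      Q * PBox.evm (nth (sclF Q ds L ks (normL es)) i) x)
  | [], [], i, _ => by simp [normL, sclF, nth, nthE, PBox.evm, evE]
  | k :: ks, [], i, _ => by simp [normL, sclF, nth, nthE, PBox.evm, evE]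
  | [], e :: es, 0, hL => by
    have hd : (normH e).2 ∣ L := (Nat.dvd_lcm_left _ _).trans hL
    refine ⟨fun _ => ?_, fun hf => by simp [nthB] at hf⟩
    have := bd_true hQ ds h h1 (sm (Nat.div L (normH e).2) (normH e).1)
    rwa [sc_ev x hd] at this
  | k :: ks, e :: es, 0, hL => by
    have hd : (normH e).2 ∣ L := (Nat.dvd_lcm_left _ _).trans hL
    cases k
    · refine ⟨fun hf => by simp [nthB] at hf, fun _ => ?_⟩
      have := bd_false hQ ds h h1 (sm (Nat.div L (normH e).2) (normH e).1)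
      rwa [sc_ev x hd] at this
    · refine ⟨fun _ => ?_, fun hf => by simp [nthB] at hf⟩
      have := bd_true hQ ds h h1 (sm (Nat.div L (normH e).2) (normH e).1)
      rwa [sc_ev x hd] at this
  | [], e :: es, i + 1, hL => by
    have := evm_sclF hQ ds h h1 L [] es i ((Nat.dvd_lcm_right _ _).trans hL)
    exact this
  | k :: ks, e :: es, i + 1, hL => by
    have := evm_sclF hQ ds h h1 L ks es i ((Nat.dvd_lcm_right _ _).trans hL)
    exact this

/-- the `k` entries from `i` on are bounds from above -/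
def okU (ks : List Bool) : ℕ → ℕ → Bool
  | 0, _ => true
  | k + 1, i => cond (nthB ks i) false (okU ks k (Nat.succ i))

def okT (ks : List Bool) : List (ℕ × ℕ) → Bool
  | [] => true
  | e :: l => cond (nthB ks e.1) (cond (okU ks e.2 (Nat.succ e.1)) (okT ks l) false) false

theorem okT_mem {ks : List Bool} : ∀ {tb : List (ℕ × ℕ)}, okT ks tb = true → ∀ e ∈ tb,
    nthB ks e.1 = true ∧ okU ks e.2 (e.1 + 1) = true
  | [], _, e, he => by simp at he
  | f :: l, h, e, he => by
    rw [okT] at h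
    cases h1 : nthB ks f.1
    · rw [h1] at h
      exact Bool.noConfusion h
    · rw [h1] at h
      cases h2 : okU ks f.2 (Nat.succ f.1)
      · simp only [h2, cond] at h
        exact Bool.noConfusion h
      · simp only [h2, cond] at h
        rcases List.mem_cons.1 he with rfl | he
        · exact ⟨h1, h2⟩
        · exact okT_mem h e he

theorem pps_mono {f g : ℕ → ℝ} {Q L : ℝ} (hQ : 0 ≤ Q) (hL : 0 ≤ L) {ks : List Bool}
    (hfg : ∀ i, nthB ks i = false → L * f i ≤ Q * g i) : ∀ k i : ℕ, okU ks k i = true →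
    L * pps f k i ≤ Q * pps g k i
  | 0, _, _ => by simp [pps]
  | k + 1, i, h => by
    rw [okU] at h
    cases h1 : nthB ks i
    · simp only [h1, cond] at h
      have a := hfg i h1
      have b := pps_mono hQ hL hfg k (i + 1) h
      simp only [pps]
      have c : L * max (f i) 0 ≤ Q * max (g i) 0 := by
        rw [mul_max_of_nonneg _ _ hL, mul_max_of_nonneg _ _ hQ, mul_zero, mul_zero]
        exact max_le_max a le_rfl
      linarith
    · simp only [h1, cond] at h
      exact Bool.noConfusion h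

/-- **the checker** -/
def checkF (w b Q : ℕ) (ds : List ℕ) (tb : List (ℕ × ℕ)) (ks : List Bool) (T : XT)
    (es : List Ex) : Bool :=
  cond (Nat.ble 1 Q) (cond (okT ks tb)
    (checkX w b ds tb T (sclF Q ds (cdn (normL es)) ks (normL es))) false) false

/-- **soundness**: at every point of the unit box there is an alternative `(i, k)` of the table
with `∑_{m=1}^{k} max p_{i+m} 0 ≤ p_i` -/
theorem checkF_sound {w b Q : ℕ} {ds : List ℕ} {tb : List (ℕ × ℕ)} {ks : List Bool} {T : XT}
    {es : List Ex} (h : checkF w b Q ds tb ks T es = true) (l : List ℝ)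
    (hl : ∀ a ∈ l, 0 ≤ a ∧ a ≤ 1) :
    ∃ e ∈ tb, pps (fun c => evE (PBox.xs l) (nthE es c)) e.2 (e.1 + 1) ≤
      evE (PBox.xs l) (nthE es e.1) := by
  rw [checkF] at h
  cases hQb : Nat.ble 1 Q
  · rw [hQb] at h
    exact Bool.noConfusion h
  · simp only [hQb, cond] at h
    have hQ : 0 < Q := Nat.le_of_ble_eq_true hQb
    cases hT : okT ks tb
    · rw [hT] at h
      exact Bool.noConfusion h
    · simp only [hT] at h
      obtain ⟨e, he, key⟩ := checkX_sound h l hl
      refine ⟨e, he, ?_⟩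
      have hx := PBox.xs_box l hl
      have hL : (0 : ℝ) < (cdn (normL es) : ℕ) := by exact_mod_cast cdn_pos es
      have hQ0 : (0 : ℝ) ≤ Q := Nat.cast_nonneg Q
      obtain ⟨k1, k2⟩ := okT_mem hT e he
      have a := (evm_sclF hQ ds (fun i => (hx i).1) (fun i => (hx i).2) (cdn (normL es)) ks es
        e.1 dvd_rfl).1 k1
      have b := pps_mono (f := fun c => evE (PBox.xs l) (nthE es c))
        (g := fun c => PBox.evm (nth (sclF Q ds (cdn (normL es)) ks (normL es)) c) (PBox.xs l))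
        hQ0 hL.le (fun i hi => (evm_sclF hQ ds (fun i => (hx i).1) (fun i => (hx i).2)
          (cdn (normL es)) ks es i dvd_rfl).2 hi) e.2 (e.1 + 1) k2
      have c := mul_le_mul_of_nonneg_left key hQ0
      exact le_of_mul_le_mul_left (b.trans (c.trans a)) hL

/-- one polynomial, nonnegative -/
theorem checkF_sound1 {w b Q : ℕ} {ds : List ℕ} {T : XT} {e : Ex}
    (h : checkF w b Q ds [(0, 0)] [true] T [e] = true) (l : List ℝ)
    (hl : ∀ a ∈ l, 0 ≤ a ∧ a ≤ 1) : 0 ≤ evE (PBox.xs l) e := by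
  obtain ⟨f, hf, h0⟩ := checkF_sound h l hl
  rw [List.mem_singleton] at hf
  subst hf
  exact h0

end Helper43.FBox
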