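import Pool.Agent.Helper43.MEI.GBox
import Pool.Agent.Helper73.MEI.FE

/-!
# Certificates of the value of a face

`FD` = rational data of a face at a vertex of a piece of the simplex of the states; `cert` = the
inequality for all leaks from one kernel computation.
-/

set_option autoImplicit false

namespace Helper43.FCert

open Helper43.EBox Helper43.FBox Helper43.GBox
open Pool.Agent.Helper73.MEI.FE

/-- rational number `n / d` -/
@[reducible] def Q : Type := ℤ × ℕ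

/-- weight of the apex: `a₀ + a₁ t₀ + a₂ t₁ + a₃ t₂ + a₄ t₀ t₁ + a₅ t₀ t₂ + a₆ t₁ t₂ + a₇ t₀ t₁ t₂`
`+ b₀ κ₀ + b₁ κ₁ + b₂ κ₂` -/
structure GD where
  a0 : Q
  a1 : Q
  a2 : Q
  a3 : Q
  a4 : Q
  a5 : Q
  a6 : Q
  a7 : Q
  b0 : Q
  b1 : Q
  b2 : Q

/-- prices of an end of an arc -/
structure ED where
  al : Q
  be : Q
  ga : Q

/-- data of a face at a vertex -/
structure FD where
  A : Q
  e1 : Q
  k1 : Q
  k2 : Q
  K0 : Q
  K1 : Q
  w0 : Q
  w1 : Q
  w2 : Q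
  s : Q
  S0 : Q
  S1 : Q
  S2 : Q
  f0 : Q
  f1 : Q
  f2 : Q
  d0 : Q
  d1 : Q
  d2 : Q
  m0 : Q
  m1 : Q
  m2 : Q
  c0 : Q
  c1 : Q
  c2 : Q
  r0 : Q
  r1 : Q
  r2 : Q
  e01 : ED
  e02 : ED
  e10 : ED
  e12 : ED
  e20 : ED
  e21 : ED
  m : Q
  z0 : Q
  z1 : Q
  z2 : Q
  z3 : Q

section
variable {α : Type} [Add α] [Mul α] [Neg α] [Sub α] (c : ℤ → ℕ → α)

def q (x : Q) : α := c x.1 x.2

def fcD (D : FD) : Fc α :=
  ⟨q c D.A, q c D.e1, q c D.k1, q c D.k2, q c D.K0, q c D.K1, q c D.w0, q c D.w1, q c D.w2⟩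

/-- main part without the apex -/
def mainE (D : FD) (L : Lk α) : α :=
  corE c (fcD c D) L (q c D.S0) (q c D.S1) (q c D.S2)
    + muE c (fcD c D) L (q c D.m0) (q c D.m1) (q c D.m2) (q c D.c0) (q c D.c1) (q c D.c2)
    - (q c D.z0 + q c D.z1 * t0E L + q c D.z2 * t1E L + q c D.z3 * t2E L)
    - q c D.m

def x01E (D : FD) (L : Lk α) : α :=
  stE (fcD c D) (q c D.r0) (kv0E (fcD c D) L) (R1E c (fcD c D) L) (q c D.S1)
def x02E (D : FD) (L : Lk α) : α :=
  stE (fcD c D) (q c D.r0) (kv0E (fcD c D) L) (R2E c (fcD c D) L) (q c D.S2)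
def x10E (D : FD) (L : Lk α) : α :=
  stE (fcD c D) (q c D.r1) (kv1E (fcD c D) L) (R0E c (fcD c D) L) (q c D.S0)
def x12E (D : FD) (L : Lk α) : α :=
  stE (fcD c D) (q c D.r1) (kv1E (fcD c D) L) (R2E c (fcD c D) L) (q c D.S2)
def x20E (D : FD) (L : Lk α) : α :=
  stE (fcD c D) (q c D.r2) (kv2E (fcD c D) L) (R0E c (fcD c D) L) (q c D.S0)
def x21E (D : FD) (L : Lk α) : α :=
  stE (fcD c D) (q c D.r2) (kv2E (fcD c D) L) (R1E c (fcD c D) L) (q c D.S1)

def lo (E : ED) (x : α) : α := q c E.al * x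
def hi (E : ED) (x : α) : α := q c E.be * x - q c E.ga

/-- weight of the apex -/
def gE (D : FD) (G : GD) (L : Lk α) : α :=
  (q c G.a0 + q c G.a1 * t0E L + q c G.a2 * t1E L + q c G.a3 * t2E L
    + (q c G.a4 * (t0E L * t1E L) + q c G.a5 * (t0E L * t2E L) + q c G.a6 * (t1E L * t2E L))
    + q c G.a7 * (t0E L * (t1E L * t2E L)))
    + (q c G.b0 * kv0E (fcD c D) L + q c G.b1 * kv1E (fcD c D) L + q c G.b2 * kv2E (fcD c D) L)

/-- domain constraint: violated when nonnegative -/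
def dom0E (D : FD) (L : Lk α) : α := q0E c (fcD c D) L - q c D.d0
def dom1E (D : FD) (L : Lk α) : α := q1E c (fcD c D) L - q c D.d1
def dom2E (D : FD) (L : Lk α) : α := q2E c (fcD c D) L - q c D.d2

/-- apex term of the positions `i`, `j` -/
def apD (D : FD) (G : GD) (L : Lk α) (Ri Rj : α) : α := apE (fcD c D) (gE c D G L) Ri Rj (q c D.s)

end

/-- scaled variables -/
def LE (D : FD) : Lk Ex :=
  ⟨q Ex.c D.f1 * Ex.v 3, q Ex.c D.f2 * Ex.v 4, q Ex.c D.f0 * Ex.v 0, q Ex.c D.f2 * Ex.v 5,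
    q Ex.c D.f0 * Ex.v 1, q Ex.c D.f1 * Ex.v 2⟩

/-- evaluation of the leaks -/
noncomputable def evL (x : ℕ → ℝ) (L : Lk Ex) : Lk ℝ :=
  ⟨evE x L.n01, evE x L.n02, evE x L.n10, evE x L.n12, evE x L.n20, evE x L.n21⟩

/-- the small slack of the domain constraints is subtracted in the data, nothing here -/
def fixed (D : FD) (L : Lk Ex) (rest : List Ex) : List Ex :=
  mainE Ex.c D L :: Ex.c 0 1
    :: lo Ex.c D.e01 (x01E Ex.c D L) :: hi Ex.c D.e01 (x01E Ex.c D L)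
    :: lo Ex.c D.e02 (x02E Ex.c D L) :: hi Ex.c D.e02 (x02E Ex.c D L)
    :: lo Ex.c D.e10 (x10E Ex.c D L) :: hi Ex.c D.e10 (x10E Ex.c D L)
    :: lo Ex.c D.e12 (x12E Ex.c D L) :: hi Ex.c D.e12 (x12E Ex.c D L)
    :: lo Ex.c D.e20 (x20E Ex.c D L) :: hi Ex.c D.e20 (x20E Ex.c D L)
    :: lo Ex.c D.e21 (x21E Ex.c D L) :: hi Ex.c D.e21 (x21E Ex.c D L)
    :: dom0E Ex.c D L :: dom1E Ex.c D L :: dom2E Ex.c D L :: rest

def aps (D : FD) (L : Lk Ex) : List GD → List Ex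
  | [] => []
  | G :: gs =>
    apD Ex.c D G L (R0E Ex.c (fcD Ex.c D) L) (R1E Ex.c (fcD Ex.c D) L)
    :: apD Ex.c D G L (R0E Ex.c (fcD Ex.c D) L) (R2E Ex.c (fcD Ex.c D) L)
    :: apD Ex.c D G L (R1E Ex.c (fcD Ex.c D) L) (R0E Ex.c (fcD Ex.c D) L)
    :: apD Ex.c D G L (R1E Ex.c (fcD Ex.c D) L) (R2E Ex.c (fcD Ex.c D) L)
    :: apD Ex.c D G L (R2E Ex.c (fcD Ex.c D) L) (R0E Ex.c (fcD Ex.c D) L)
    :: apD Ex.c D G L (R2E Ex.c (fcD Ex.c D) L) (R1E Ex.c (fcD Ex.c D) L)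
    :: aps D L gs

def kinds : List Bool :=
  true :: false :: false :: false :: false :: false :: false :: false :: false :: false
    :: false :: false :: false :: false :: []

/-- the groups of the six ends -/
def grps : List (List ℕ) :=
  [1, 2, 3] :: [1, 4, 5] :: [1, 6, 7] :: [1, 8, 9] :: [1, 10, 11] :: [1, 12, 13] :: []

def alts (n : ℕ) : List (List ℕ × List (List ℕ)) :=
  ([0, Nat.add 17 n], grps) :: ([14], []) :: ([15], []) :: ([16], []) :: []

def rsOf : List GT → ℕ → List (List (List ℕ × List (List ℕ)) × GT)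
  | [], _ => []
  | T :: l, n => (alts n, T) :: rsOf l (Nat.succ n)

/-- **the kernel check**: `Ts` = the trees, six per weight of the apex -/
def okC (D : FD) (gs : List GD) (w b Qr : ℕ) (ds : List ℕ) (Ts : List GT) : Bool :=
  and (Nat.beq Ts.length (Nat.mul 6 gs.length))
    (checkG w b Qr ds kinds (rsOf Ts 0) (fixed D (LE D) (aps D (LE D) gs)))

theorem rsOf_mem : ∀ (Ts : List GT) (m n : ℕ), n < Ts.length →
    ∃ T, (alts (m + n), T) ∈ rsOf Ts m
  | [], m, n, h => absurd h (Nat.not_lt_zero n)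
  | T :: l, m, 0, _ => ⟨T, List.mem_cons_self⟩
  | T :: l, m, n + 1, h => by
    obtain ⟨T', hT⟩ := rsOf_mem l (m + 1) n (Nat.lt_of_succ_lt_succ h)
    have e : m + 1 + n = m + (n + 1) := by omega
    rw [e] at hT
    exact ⟨T', List.mem_cons_of_mem _ hT⟩

/-- the three loads -/
noncomputable def RkE (D : FD) (L : Lk ℝ) : Fin 3 → ℝ
  | 0 => R0E cR (fcD cR D) L
  | 1 => R1E cR (fcD cR D) L
  | 2 => R2E cR (fcD cR D) L

/-- price of an end -/
noncomputable def pr (E : ED) (x : ℝ) : ℝ := max 0 (max (lo cR E x) (hi cR E x))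

/-- the prices of the six ends -/
noncomputable def prs (D : FD) (L : Lk ℝ) : ℝ :=
  pr D.e01 (x01E cR D L) + pr D.e02 (x02E cR D L) + pr D.e10 (x10E cR D L)
    + pr D.e12 (x12E cR D L) + pr D.e20 (x20E cR D L) + pr D.e21 (x21E cR D L)

theorem holds_three {f : ℕ → ℝ} {z a b : ℕ} {gs : List (List ℕ)} {v : ℝ} (hz : f z = 0)
    (h : holds f ([z, a, b] :: gs) v) : holds f gs (v - max 0 (max (f a) (f b))) := by
  have h0 := h 0 (by simp)
  have h1 := h 1 (by simp)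
  have h2 := h 2 (by simp)
  simp only [nthN] at h0 h1 h2
  rcases le_total (max (f a) (f b)) 0 with k | k
  · rw [max_eq_left k]
    rw [hz] at h0
    exact h0
  · rw [max_eq_right k]
    rcases le_total (f a) (f b) with k2 | k2
    · rw [max_eq_right k2]
      exact h2
    · rw [max_eq_left k2]
      exact h1

theorem ex_u {n f : ℝ} (h0 : 0 ≤ n) (h1 : n ≤ f) : ∃ u, 0 ≤ u ∧ u ≤ 1 ∧ f * u = n := by
  rcases eq_or_lt_of_le (h0.trans h1) with h | h
  · refine ⟨0, le_rfl, zero_le_one, ?_⟩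
    rw [← h] at h1
    linarith
  · exact ⟨n / f, div_nonneg h0 h.le, (div_le_one h).2 h1, mul_div_cancel₀ n h.ne'⟩

/-- the six entries of a weight -/
def six (D : FD) (L : Lk Ex) (G : GD) : ℕ → Ex
  | 0 => apD Ex.c D G L (R0E Ex.c (fcD Ex.c D) L) (R1E Ex.c (fcD Ex.c D) L)
  | 1 => apD Ex.c D G L (R0E Ex.c (fcD Ex.c D) L) (R2E Ex.c (fcD Ex.c D) L)
  | 2 => apD Ex.c D G L (R1E Ex.c (fcD Ex.c D) L) (R0E Ex.c (fcD Ex.c D) L)
  | 3 => apD Ex.c D G L (R1E Ex.c (fcD Ex.c D) L) (R2E Ex.c (fcD Ex.c D) L)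
  | 4 => apD Ex.c D G L (R2E Ex.c (fcD Ex.c D) L) (R0E Ex.c (fcD Ex.c D) L)
  | _ => apD Ex.c D G L (R2E Ex.c (fcD Ex.c D) L) (R1E Ex.c (fcD Ex.c D) L)

theorem aps_nth (D : FD) (L : Lk Ex) {G : GD} : ∀ gs : List GD, G ∈ gs →
    ∃ a < gs.length, ∀ b < 6, nthE (aps D L gs) (6 * a + b) = six D L G b
  | [], h => by simp at h
  | G' :: gs, h => by
    rcases List.mem_cons.1 h with rfl | h
    · refine ⟨0, by simp, fun b hb => ?_⟩
      have : b = 0 ∨ b = 1 ∨ b = 2 ∨ b = 3 ∨ b = 4 ∨ b = 5 := by omega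
      rcases this with rfl | rfl | rfl | rfl | rfl | rfl <;> rfl
    · obtain ⟨a, ha, hb⟩ := aps_nth D L gs h
      refine ⟨a + 1, by simpa using ha, fun b h6 => ?_⟩
      have e : 6 * (a + 1) + b = (6 * a + b) + 6 := by ring
      rw [e]
      exact hb b h6

theorem nth_fixed (D : FD) (L : Lk Ex) (rest : List Ex) (n : ℕ) :
    nthE (fixed D L rest) (17 + n) = nthE rest n := by
  rw [Nat.add_comm 17 n]
  rfl

theorem lk_ext {a b : Lk ℝ} (h1 : a.n01 = b.n01) (h2 : a.n02 = b.n02) (h3 : a.n10 = b.n10)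
    (h4 : a.n12 = b.n12) (h5 : a.n20 = b.n20) (h6 : a.n21 = b.n21) : a = b := by
  cases a
  cases b
  simp only at h1 h2 h3 h4 h5 h6
  subst h1 h2 h3 h4 h5 h6
  rfl

/-- **soundness**, leaks `L` -/
theorem cert {D : FD} {gs : List GD} {w b Qr : ℕ} {ds : List ℕ} {Ts : List GT}
    (h : okC D gs w b Qr ds Ts = true) {L : Lk ℝ}
    (h01 : 0 ≤ L.n01 ∧ L.n01 ≤ q cR D.f1) (h02 : 0 ≤ L.n02 ∧ L.n02 ≤ q cR D.f2)
    (h10 : 0 ≤ L.n10 ∧ L.n10 ≤ q cR D.f0) (h12 : 0 ≤ L.n12 ∧ L.n12 ≤ q cR D.f2)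
    (h20 : 0 ≤ L.n20 ∧ L.n20 ≤ q cR D.f0) (h21 : 0 ≤ L.n21 ∧ L.n21 ≤ q cR D.f1)
    (hd0 : q0E cR (fcD cR D) L < q cR D.d0) (hd1 : q1E cR (fcD cR D) L < q cR D.d1)
    (hd2 : q2E cR (fcD cR D) L < q cR D.d2) {G : GD} (hG : G ∈ gs) {i j : Fin 3} (hij : i ≠ j) :
    prs D L ≤ mainE cR D L + apD cR D G L (RkE D L i) (RkE D L j) := by
  simp only [okC, Bool.and_eq_true] at h
  obtain ⟨hlen, hk⟩ := h
  have hlen' : Ts.length = 6 * gs.length := Nat.eq_of_beq_eq_true hlen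
  obtain ⟨u3, a3, b3, c3⟩ := ex_u h01.1 h01.2
  obtain ⟨u4, a4, b4, c4⟩ := ex_u h02.1 h02.2
  obtain ⟨u0, a0, b0, c0⟩ := ex_u h10.1 h10.2
  obtain ⟨u5, a5, b5, c5⟩ := ex_u h12.1 h12.2
  obtain ⟨u1, a1, b1, c1⟩ := ex_u h20.1 h20.2
  obtain ⟨u2, a2, b2, c2⟩ := ex_u h21.1 h21.2
  have hbox : ∀ a ∈ [u0, u1, u2, u3, u4, u5], 0 ≤ a ∧ a ≤ 1 := by
    intro a ha
    simp only [List.mem_cons, List.not_mem_nil, or_false] at ha
    rcases ha with rfl | rfl | rfl | rfl | rfl | rfl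
    · exact ⟨a0, b0⟩
    · exact ⟨a1, b1⟩
    · exact ⟨a2, b2⟩
    · exact ⟨a3, b3⟩
    · exact ⟨a4, b4⟩
    · exact ⟨a5, b5⟩
  have key := checkG_sound hk [u0, u1, u2, u3, u4, u5] hbox
  set x := Helper43.PBox.xs [u0, u1, u2, u3, u4, u5] with hx
  have hL : evL x (LE D) = L := by
    apply lk_ext
    · exact c3
    · exact c4
    · exact c0
    · exact c5
    · exact c1
    · exact c2
  obtain ⟨a, ha, hs⟩ := aps_nth D (LE D) gs hG
  -- the number of the pair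
  obtain ⟨bb, hb6, hbb⟩ : ∃ bb < 6, evE x (six D (LE D) G bb) =
      apD cR D G L (RkE D L i) (RkE D L j) := by
    rw [← hL]
    fin_cases i <;> fin_cases j
    · exact absurd rfl hij
    · exact ⟨0, by norm_num, rfl⟩
    · exact ⟨1, by norm_num, rfl⟩
    · exact ⟨2, by norm_num, rfl⟩
    · exact absurd rfl hij
    · exact ⟨3, by norm_num, rfl⟩
    · exact ⟨4, by norm_num, rfl⟩
    · exact ⟨5, by norm_num, rfl⟩
    · exact absurd rfl hij
  have hn : 6 * a + bb < Ts.length := by omega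
  obtain ⟨T, hT⟩ := rsOf_mem Ts 0 (6 * a + bb) hn
  rw [Nat.zero_add] at hT
  obtain ⟨e, he, hh⟩ := key _ hT
  have nap : nthE (fixed D (LE D) (aps D (LE D) gs)) (17 + (6 * a + bb)) = six D (LE D) G bb := by
    rw [nth_fixed, hs bb hb6]
  simp only [alts, List.mem_cons, List.not_mem_nil, or_false] at he
  rcases he with rfl | rfl | rfl | rfl
  · have k6 := hh
    simp only [grps] at k6
    have hz : (fun c => evE x (nthE (fixed D (LE D) (aps D (LE D) gs)) c)) 1 = 0 := by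
      show ((0 : ℤ) : ℝ) / ((1 : ℕ) : ℝ) = 0
      norm_num
    have k := holds_three hz (holds_three hz (holds_three hz (holds_three hz (holds_three hz
      (holds_three hz k6)))))
    have k' : 0 ≤ sumI (fun c => evE x (nthE (fixed D (LE D) (aps D (LE D) gs)) c))
        [0, 17 + (6 * a + bb)]
        - pr D.e01 (x01E cR D (evL x (LE D))) - pr D.e02 (x02E cR D (evL x (LE D)))
        - pr D.e10 (x10E cR D (evL x (LE D))) - pr D.e12 (x12E cR D (evL x (LE D)))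
        - pr D.e20 (x20E cR D (evL x (LE D))) - pr D.e21 (x21E cR D (evL x (LE D))) := k
    have e1 : sumI (fun c => evE x (nthE (fixed D (LE D) (aps D (LE D) gs)) c))
        [0, 17 + (6 * a + bb)] = mainE cR D (evL x (LE D))
          + (evE x (nthE (fixed D (LE D) (aps D (LE D) gs)) (17 + (6 * a + bb))) + 0) := rfl
    rw [e1, nap, hbb, hL] at k'
    unfold prs
    linarith
  · exfalso
    have : 0 ≤ (q0E cR (fcD cR D) (evL x (LE D)) - q cR D.d0) + 0 := hh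
    rw [hL] at this
    linarith
  · exfalso
    have : 0 ≤ (q1E cR (fcD cR D) (evL x (LE D)) - q cR D.d1) + 0 := hh
    rw [hL] at this
    linarith
  · exfalso
    have : 0 ≤ (q2E cR (fcD cR D) (evL x (LE D)) - q cR D.d2) + 0 := hh
    rw [hL] at this
    linarith

/-! ### the form without couplings: one tree for all weights and pairs -/

def fixedN (D : FD) (L : Lk Ex) (rest : List Ex) : List Ex :=
  mainE Ex.c D L :: Ex.c 0 1
    :: x01E Ex.c D L :: x02E Ex.c D L :: x10E Ex.c D L :: x12E Ex.c D L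
    :: x20E Ex.c D L :: x21E Ex.c D L
    :: dom0E Ex.c D L :: dom1E Ex.c D L :: dom2E Ex.c D L :: rest

/-- the negative of the entry `b` of a weight -/
def sixN (D : FD) (L : Lk Ex) (G : GD) (b : ℕ) : Ex := -(six D L G b)

def apsN (D : FD) (L : Lk Ex) : List GD → List Ex
  | [] => []
  | G :: gs => sixN D L G 0 :: sixN D L G 1 :: sixN D L G 2 :: sixN D L G 3 :: sixN D L G 4
      :: sixN D L G 5 :: apsN D L gs

def fls : ℕ → List Bool
  | 0 => []
  | n + 1 => false :: fls n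

def kindsN (n : ℕ) : List Bool :=
  true :: false :: false :: false :: false :: false :: false :: false :: true :: true :: true
    :: fls n

def rng : ℕ → ℕ → List ℕ
  | 0, _ => []
  | n + 1, s => s :: rng n (Nat.succ s)

def altsN (n : ℕ) : List (List ℕ × List (List ℕ)) :=
  ([0], [1, 2] :: [1, 3] :: [1, 4] :: [1, 5] :: [1, 6] :: [1, 7] :: rng n 11 :: [])
    :: ([8], []) :: ([9], []) :: ([10], []) :: []

/-- zero number -/
def isz0 (x : Q) : Bool := match x.1 with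
  | Int.ofNat n => Nat.beq n 0
  | Int.negSucc _ => false

/-- nonnegative number -/
def nonn (x : Q) : Bool := match x.1 with
  | Int.ofNat _ => true
  | Int.negSucc _ => false

/-- strips off: the six end terms are nonnegative -/
def offB (D : FD) : Bool :=
  and (isz0 D.K0) (and (isz0 D.K1) (and (nonn D.r0) (and (nonn D.r1) (and (nonn D.r2)
    (and (nonn D.w0) (and (nonn D.w1) (nonn D.w2)))))))

/-- strips off: the main part minus the six end terms -/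
def mainZ (D : FD) (L : Lk Ex) : Ex :=
  mainE Ex.c D L - (q Ex.c D.r0 * (R1E Ex.c (fcD Ex.c D) L + R2E Ex.c (fcD Ex.c D) L)
    + q Ex.c D.r1 * (R0E Ex.c (fcD Ex.c D) L + R2E Ex.c (fcD Ex.c D) L)
    + q Ex.c D.r2 * (R0E Ex.c (fcD Ex.c D) L + R1E Ex.c (fcD Ex.c D) L))

def fixedZ (D : FD) (L : Lk Ex) (rest : List Ex) : List Ex :=
  mainZ D L :: dom0E Ex.c D L :: dom1E Ex.c D L :: dom2E Ex.c D L :: rest

def kindsZ (n : ℕ) : List Bool := true :: true :: true :: true :: fls n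

def altsZ (n : ℕ) : List (List ℕ × List (List ℕ)) :=
  ([0], rng n 4 :: []) :: ([1], []) :: ([2], []) :: ([3], []) :: []

/-- kinds, alternatives and polynomials of a certificate -/
def ksN (D : FD) (gs : List GD) : List Bool :=
  cond (offB D) (kindsZ (Nat.mul 6 gs.length)) (kindsN (Nat.mul 6 gs.length))
def tbN (D : FD) (gs : List GD) : List (List ℕ × List (List ℕ)) :=
  cond (offB D) (altsZ (Nat.mul 6 gs.length)) (altsN (Nat.mul 6 gs.length))
def esN (D : FD) (gs : List GD) : List Ex :=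
  cond (offB D) (fixedZ D (LE D) (apsN D (LE D) gs)) (fixedN D (LE D) (apsN D (LE D) gs))

/-- **the kernel check without couplings** -/
def okN (D : FD) (gs : List GD) (w b Qr : ℕ) (ds : List ℕ) (T : GT) : Bool :=
  checkG w b Qr ds (ksN D gs) ((tbN D gs, T) :: []) (esN D gs)

/-- leaf: the inequality -/
def y : GT := GT.L 0 [[], [], [], [], [], [], []]

/-- leaf: the cap of the column 0 is violated -/
def v0 : GT := GT.L 1 []

/-- leaf: the cap of the column 1 is violated -/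
def v1 : GT := GT.L 2 []

/-- leaf: the cap of the column 2 is violated -/
def v2 : GT := GT.L 3 []

/-- no coupling -/
def E1 : ED := ⟨(1, 1), (1, 1), (0, 1)⟩

/-- the prices of the six ends -/
noncomputable def prsN (D : FD) (L : Lk ℝ) : ℝ :=
  max 0 (x01E cR D L) + max 0 (x02E cR D L) + max 0 (x10E cR D L)
    + max 0 (x12E cR D L) + max 0 (x20E cR D L) + max 0 (x21E cR D L)

theorem rng_len : ∀ n s : ℕ, (rng n s).length = n
  | 0, _ => rfl
  | n + 1, s => by rw [rng, List.length_cons, rng_len n]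

theorem rng_nth : ∀ n s m : ℕ, m < n → nthN (rng n s) m = s + m
  | n + 1, s, 0, _ => rfl
  | n + 1, s, m + 1, h => by
    have := rng_nth n (s + 1) m (Nat.lt_of_succ_lt_succ h)
    show nthN (rng n (s + 1)) m = s + (m + 1)
    omega

theorem holds_two {f : ℕ → ℝ} {z a : ℕ} {gs : List (List ℕ)} {v : ℝ} (hz : f z = 0)
    (h : holds f ([z, a] :: gs) v) : holds f gs (v - max 0 (f a)) := by
  have h0 := h 0 (by simp)
  have h1 := h 1 (by simp)
  simp only [nthN] at h0 h1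
  rcases le_total (f a) 0 with k | k
  · rw [max_eq_left k]
    rw [hz] at h0
    exact h0
  · rw [max_eq_right k]
    exact h1

theorem apsN_nth (D : FD) (L : Lk Ex) {G : GD} : ∀ gs : List GD, G ∈ gs →
    ∃ a < gs.length, ∀ b < 6, nthE (apsN D L gs) (6 * a + b) = sixN D L G b
  | [], h => by simp at h
  | G' :: gs, h => by
    rcases List.mem_cons.1 h with rfl | h
    · refine ⟨0, by simp, fun b hb => ?_⟩
      have : b = 0 ∨ b = 1 ∨ b = 2 ∨ b = 3 ∨ b = 4 ∨ b = 5 := by omega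
      rcases this with rfl | rfl | rfl | rfl | rfl | rfl <;> rfl
    · obtain ⟨a, ha, hb⟩ := apsN_nth D L gs h
      refine ⟨a + 1, by simpa using ha, fun b h6 => ?_⟩
      have e : 6 * (a + 1) + b = (6 * a + b) + 6 := by ring
      rw [e]
      exact hb b h6

theorem nth_fixedN (D : FD) (L : Lk Ex) (rest : List Ex) (n : ℕ) :
    nthE (fixedN D L rest) (11 + n) = nthE rest n := by
  rw [Nat.add_comm 11 n]
  rfl

theorem certN0 {D : FD} {gs : List GD} {w b Qr : ℕ} {ds : List ℕ} {T : GT}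
    (h : checkG w b Qr ds (kindsN (Nat.mul 6 gs.length))
      ((altsN (Nat.mul 6 gs.length), T) :: []) (fixedN D (LE D) (apsN D (LE D) gs)) = true) {L : Lk ℝ}
    (h01 : 0 ≤ L.n01 ∧ L.n01 ≤ q cR D.f1) (h02 : 0 ≤ L.n02 ∧ L.n02 ≤ q cR D.f2)
    (h10 : 0 ≤ L.n10 ∧ L.n10 ≤ q cR D.f0) (h12 : 0 ≤ L.n12 ∧ L.n12 ≤ q cR D.f2)
    (h20 : 0 ≤ L.n20 ∧ L.n20 ≤ q cR D.f0) (h21 : 0 ≤ L.n21 ∧ L.n21 ≤ q cR D.f1)
    (hd0 : q0E cR (fcD cR D) L < q cR D.d0) (hd1 : q1E cR (fcD cR D) L < q cR D.d1)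
    (hd2 : q2E cR (fcD cR D) L < q cR D.d2) {G : GD} (hG : G ∈ gs) {i j : Fin 3} (hij : i ≠ j) :
    prsN D L ≤ mainE cR D L + apD cR D G L (RkE D L i) (RkE D L j) := by
  obtain ⟨u3, a3, b3, c3⟩ := ex_u h01.1 h01.2
  obtain ⟨u4, a4, b4, c4⟩ := ex_u h02.1 h02.2
  obtain ⟨u0, a0, b0, c0⟩ := ex_u h10.1 h10.2
  obtain ⟨u5, a5, b5, c5⟩ := ex_u h12.1 h12.2
  obtain ⟨u1, a1, b1, c1⟩ := ex_u h20.1 h20.2
  obtain ⟨u2, a2, b2, c2⟩ := ex_u h21.1 h21.2
  have hbox : ∀ a ∈ [u0, u1, u2, u3, u4, u5], 0 ≤ a ∧ a ≤ 1 := by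
    intro a ha
    simp only [List.mem_cons, List.not_mem_nil, or_false] at ha
    rcases ha with rfl | rfl | rfl | rfl | rfl | rfl
    · exact ⟨a0, b0⟩
    · exact ⟨a1, b1⟩
    · exact ⟨a2, b2⟩
    · exact ⟨a3, b3⟩
    · exact ⟨a4, b4⟩
    · exact ⟨a5, b5⟩
  have key := checkG_sound h [u0, u1, u2, u3, u4, u5] hbox _ List.mem_cons_self
  set x := Helper43.PBox.xs [u0, u1, u2, u3, u4, u5] with hx
  have hL : evL x (LE D) = L := by
    apply lk_ext
    · exact c3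
    · exact c4
    · exact c0
    · exact c5
    · exact c1
    · exact c2
  obtain ⟨a, ha, hs⟩ := apsN_nth D (LE D) gs hG
  obtain ⟨bb, hb6, hbb⟩ : ∃ bb < 6, evE x (sixN D (LE D) G bb) =
      -(apD cR D G L (RkE D L i) (RkE D L j)) := by
    rw [← hL]
    fin_cases i <;> fin_cases j
    · exact absurd rfl hij
    · exact ⟨0, by norm_num, rfl⟩
    · exact ⟨1, by norm_num, rfl⟩
    · exact ⟨2, by norm_num, rfl⟩
    · exact absurd rfl hij
    · exact ⟨3, by norm_num, rfl⟩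
    · exact ⟨4, by norm_num, rfl⟩
    · exact ⟨5, by norm_num, rfl⟩
    · exact absurd rfl hij
  obtain ⟨e, he, hh⟩ := key
  have nap : nthE (fixedN D (LE D) (apsN D (LE D) gs)) (11 + (6 * a + bb)) =
      sixN D (LE D) G bb := by
    rw [nth_fixedN, hs bb hb6]
  simp only [altsN, List.mem_cons, List.not_mem_nil, or_false] at he
  rcases he with rfl | rfl | rfl | rfl
  · have k6 := hh
    simp only at k6
    have hz : (fun c => evE x (nthE (fixedN D (LE D) (apsN D (LE D) gs)) c)) 1 = 0 := by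
      show ((0 : ℤ) : ℝ) / ((1 : ℕ) : ℝ) = 0
      norm_num
    have k := holds_two hz (holds_two hz (holds_two hz (holds_two hz (holds_two hz
      (holds_two hz k6)))))
    have hm : 6 * a + bb < (rng (Nat.mul 6 gs.length) 11).length := by
      rw [rng_len]
      show 6 * a + bb < 6 * gs.length
      omega
    have k1 := k (6 * a + bb) hm
    rw [rng_nth _ _ _ (by rw [rng_len] at hm; exact hm)] at k1
    have k' : 0 ≤ (mainE cR D (evL x (LE D)) + 0)
        - max 0 (x01E cR D (evL x (LE D))) - max 0 (x02E cR D (evL x (LE D)))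
        - max 0 (x10E cR D (evL x (LE D))) - max 0 (x12E cR D (evL x (LE D)))
        - max 0 (x20E cR D (evL x (LE D))) - max 0 (x21E cR D (evL x (LE D)))
        - evE x (nthE (fixedN D (LE D) (apsN D (LE D) gs)) (11 + (6 * a + bb))) := k1
    rw [nap, hbb, hL] at k'
    unfold prsN
    linarith
  · exfalso
    have : 0 ≤ (q0E cR (fcD cR D) (evL x (LE D)) - q cR D.d0) + 0 := hh
    rw [hL] at this
    linarith
  · exfalso
    have : 0 ≤ (q1E cR (fcD cR D) (evL x (LE D)) - q cR D.d1) + 0 := hh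
    rw [hL] at this
    linarith
  · exfalso
    have : 0 ≤ (q2E cR (fcD cR D) (evL x (LE D)) - q cR D.d2) + 0 := hh
    rw [hL] at this
    linarith

theorem isz0_eq {x : Q} (h : isz0 x = true) : q cR x = 0 := by
  obtain ⟨n, d⟩ := x
  cases n with
  | ofNat n =>
    have h1 : n = 0 := Nat.eq_of_beq_eq_true h
    subst h1
    show ((0 : ℤ) : ℝ) / (d : ℝ) = 0
    simp
  | negSucc n => exact Bool.noConfusion h

theorem nonn_le {x : Q} (h : nonn x = true) : 0 ≤ q cR x := by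
  obtain ⟨n, d⟩ := x
  cases n with
  | ofNat n =>
    show (0 : ℝ) ≤ ((n : ℤ) : ℝ) / (d : ℝ)
    positivity
  | negSucc n => exact Bool.noConfusion h

theorem dq_nonneg {a b : ℝ} (ha : 0 ≤ a) (hb : 0 ≤ b) : 0 ≤ dqE cR a b := by
  show (0 : ℝ) ≤ ((2 : ℤ) : ℝ) / ((3 : ℕ) : ℝ) * (a * a + a * b + b * b)
  positivity

theorem nth_fixedZ (D : FD) (L : Lk Ex) (rest : List Ex) (n : ℕ) :
    nthE (fixedZ D L rest) (4 + n) = nthE rest n := by
  rw [Nat.add_comm 4 n]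
  rfl

theorem certZ {D : FD} {gs : List GD} {w b Qr : ℕ} {ds : List ℕ} {T : GT} (hoff : offB D = true)
    (h : checkG w b Qr ds (kindsZ (Nat.mul 6 gs.length))
      ((altsZ (Nat.mul 6 gs.length), T) :: []) (fixedZ D (LE D) (apsN D (LE D) gs)) = true)
    {L : Lk ℝ}
    (h01 : 0 ≤ L.n01 ∧ L.n01 ≤ q cR D.f1) (h02 : 0 ≤ L.n02 ∧ L.n02 ≤ q cR D.f2)
    (h10 : 0 ≤ L.n10 ∧ L.n10 ≤ q cR D.f0) (h12 : 0 ≤ L.n12 ∧ L.n12 ≤ q cR D.f2)
    (h20 : 0 ≤ L.n20 ∧ L.n20 ≤ q cR D.f0) (h21 : 0 ≤ L.n21 ∧ L.n21 ≤ q cR D.f1)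
    (hd0 : q0E cR (fcD cR D) L < q cR D.d0) (hd1 : q1E cR (fcD cR D) L < q cR D.d1)
    (hd2 : q2E cR (fcD cR D) L < q cR D.d2) {G : GD} (hG : G ∈ gs) {i j : Fin 3} (hij : i ≠ j) :
    prsN D L ≤ mainE cR D L + apD cR D G L (RkE D L i) (RkE D L j) := by
  simp only [offB, Bool.and_eq_true] at hoff
  obtain ⟨z0, z1, n0, n1, n2, w0, w1, w2⟩ := hoff
  -- the six end terms
  have kz0 : kv0E (fcD cR D) L = 0 := by
    show q cR D.K0 * (L.n01 + L.n02) - q cR D.K1 * (L.n02 * L.n21 + L.n01 * L.n12) = 0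
    rw [isz0_eq z0, isz0_eq z1]
    ring
  have kz1 : kv1E (fcD cR D) L = 0 := by
    show q cR D.K0 * (L.n12 + L.n10) - q cR D.K1 * (L.n10 * L.n02 + L.n12 * L.n20) = 0
    rw [isz0_eq z0, isz0_eq z1]
    ring
  have kz2 : kv2E (fcD cR D) L = 0 := by
    show q cR D.K0 * (L.n20 + L.n21) - q cR D.K1 * (L.n21 * L.n10 + L.n20 * L.n01) = 0
    rw [isz0_eq z0, isz0_eq z1]
    ring
  have R0 : 0 ≤ R0E cR (fcD cR D) L := mul_nonneg (dq_nonneg h10.1 h20.1) (nonn_le w0)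
  have R1 : 0 ≤ R1E cR (fcD cR D) L := mul_nonneg (dq_nonneg h21.1 h01.1) (nonn_le w1)
  have R2 : 0 ≤ R2E cR (fcD cR D) L := mul_nonneg (dq_nonneg h02.1 h12.1) (nonn_le w2)
  have st0 : ∀ rho Rk Sk : ℝ, stE (fcD cR D) rho 0 Rk Sk = rho * Rk := fun rho Rk Sk => by
    show rho * Rk - (fcD cR D).A * 0 * (Rk + Sk) = rho * Rk
    ring
  have x01 : x01E cR D L = q cR D.r0 * R1E cR (fcD cR D) L := by
    unfold x01E
    rw [kz0, st0]
  have x02 : x02E cR D L = q cR D.r0 * R2E cR (fcD cR D) L := by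
    unfold x02E
    rw [kz0, st0]
  have x10 : x10E cR D L = q cR D.r1 * R0E cR (fcD cR D) L := by
    unfold x10E
    rw [kz1, st0]
  have x12 : x12E cR D L = q cR D.r1 * R2E cR (fcD cR D) L := by
    unfold x12E
    rw [kz1, st0]
  have x20 : x20E cR D L = q cR D.r2 * R0E cR (fcD cR D) L := by
    unfold x20E
    rw [kz2, st0]
  have x21 : x21E cR D L = q cR D.r2 * R1E cR (fcD cR D) L := by
    unfold x21E
    rw [kz2, st0]
  have hprs : prsN D L = q cR D.r0 * (R1E cR (fcD cR D) L + R2E cR (fcD cR D) L)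
      + q cR D.r1 * (R0E cR (fcD cR D) L + R2E cR (fcD cR D) L)
      + q cR D.r2 * (R0E cR (fcD cR D) L + R1E cR (fcD cR D) L) := by
    unfold prsN
    rw [x01, x02, x10, x12, x20, x21, max_eq_right (mul_nonneg (nonn_le n0) R1),
      max_eq_right (mul_nonneg (nonn_le n0) R2), max_eq_right (mul_nonneg (nonn_le n1) R0),
      max_eq_right (mul_nonneg (nonn_le n1) R2), max_eq_right (mul_nonneg (nonn_le n2) R0),
      max_eq_right (mul_nonneg (nonn_le n2) R1)]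
    ring
  obtain ⟨u3, a3, b3, c3⟩ := ex_u h01.1 h01.2
  obtain ⟨u4, a4, b4, c4⟩ := ex_u h02.1 h02.2
  obtain ⟨u0, a0, b0, c0⟩ := ex_u h10.1 h10.2
  obtain ⟨u5, a5, b5, c5⟩ := ex_u h12.1 h12.2
  obtain ⟨u1, a1, b1, c1⟩ := ex_u h20.1 h20.2
  obtain ⟨u2, a2, b2, c2⟩ := ex_u h21.1 h21.2
  have hbox : ∀ a ∈ [u0, u1, u2, u3, u4, u5], 0 ≤ a ∧ a ≤ 1 := by
    intro a ha
    simp only [List.mem_cons, List.not_mem_nil, or_false] at ha
    rcases ha with rfl | rfl | rfl | rfl | rfl | rfl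
    · exact ⟨a0, b0⟩
    · exact ⟨a1, b1⟩
    · exact ⟨a2, b2⟩
    · exact ⟨a3, b3⟩
    · exact ⟨a4, b4⟩
    · exact ⟨a5, b5⟩
  have key := checkG_sound h [u0, u1, u2, u3, u4, u5] hbox _ List.mem_cons_self
  set x := Helper43.PBox.xs [u0, u1, u2, u3, u4, u5] with hx
  have hL : evL x (LE D) = L := by
    apply lk_ext
    · exact c3
    · exact c4
    · exact c0
    · exact c5
    · exact c1
    · exact c2
  obtain ⟨a, ha, hs⟩ := apsN_nth D (LE D) gs hG
  obtain ⟨bb, hb6, hbb⟩ : ∃ bb < 6, evE x (sixN D (LE D) G bb) =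
      -(apD cR D G L (RkE D L i) (RkE D L j)) := by
    rw [← hL]
    fin_cases i <;> fin_cases j
    · exact absurd rfl hij
    · exact ⟨0, by norm_num, rfl⟩
    · exact ⟨1, by norm_num, rfl⟩
    · exact ⟨2, by norm_num, rfl⟩
    · exact absurd rfl hij
    · exact ⟨3, by norm_num, rfl⟩
    · exact ⟨4, by norm_num, rfl⟩
    · exact ⟨5, by norm_num, rfl⟩
    · exact absurd rfl hij
  obtain ⟨e, he, hh⟩ := key
  have nap : nthE (fixedZ D (LE D) (apsN D (LE D) gs)) (4 + (6 * a + bb)) =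
      sixN D (LE D) G bb := by
    rw [nth_fixedZ, hs bb hb6]
  simp only [altsZ, List.mem_cons, List.not_mem_nil, or_false] at he
  rcases he with rfl | rfl | rfl | rfl
  · have k6 := hh
    simp only at k6
    have hm : 6 * a + bb < (rng (Nat.mul 6 gs.length) 4).length := by
      rw [rng_len]
      show 6 * a + bb < 6 * gs.length
      omega
    have k1 := k6 (6 * a + bb) hm
    rw [rng_nth _ _ _ (by rw [rng_len] at hm; exact hm)] at k1
    have k' : 0 ≤ ((mainE cR D (evL x (LE D))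
        - (q cR D.r0 * (R1E cR (fcD cR D) (evL x (LE D)) + R2E cR (fcD cR D) (evL x (LE D)))
        + q cR D.r1 * (R0E cR (fcD cR D) (evL x (LE D)) + R2E cR (fcD cR D) (evL x (LE D)))
        + q cR D.r2 * (R0E cR (fcD cR D) (evL x (LE D)) + R1E cR (fcD cR D) (evL x (LE D))))) + 0)
        - evE x (nthE (fixedZ D (LE D) (apsN D (LE D) gs)) (4 + (6 * a + bb))) := k1
    rw [nap, hbb, hL] at k'
    rw [hprs]
    linarith
  · exfalso
    have : 0 ≤ (q0E cR (fcD cR D) (evL x (LE D)) - q cR D.d0) + 0 := hh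
    rw [hL] at this
    linarith
  · exfalso
    have : 0 ≤ (q1E cR (fcD cR D) (evL x (LE D)) - q cR D.d1) + 0 := hh
    rw [hL] at this
    linarith
  · exfalso
    have : 0 ≤ (q2E cR (fcD cR D) (evL x (LE D)) - q cR D.d2) + 0 := hh
    rw [hL] at this
    linarith

/-- **soundness without couplings**, leaks `L` -/
theorem certN {D : FD} {gs : List GD} {w b Qr : ℕ} {ds : List ℕ} {T : GT}
    (h : okN D gs w b Qr ds T = true) {L : Lk ℝ}
    (h01 : 0 ≤ L.n01 ∧ L.n01 ≤ q cR D.f1) (h02 : 0 ≤ L.n02 ∧ L.n02 ≤ q cR D.f2)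
    (h10 : 0 ≤ L.n10 ∧ L.n10 ≤ q cR D.f0) (h12 : 0 ≤ L.n12 ∧ L.n12 ≤ q cR D.f2)
    (h20 : 0 ≤ L.n20 ∧ L.n20 ≤ q cR D.f0) (h21 : 0 ≤ L.n21 ∧ L.n21 ≤ q cR D.f1)
    (hd0 : q0E cR (fcD cR D) L < q cR D.d0) (hd1 : q1E cR (fcD cR D) L < q cR D.d1)
    (hd2 : q2E cR (fcD cR D) L < q cR D.d2) {G : GD} (hG : G ∈ gs) {i j : Fin 3} (hij : i ≠ j) :
    prsN D L ≤ mainE cR D L + apD cR D G L (RkE D L i) (RkE D L j) := by
  unfold okN ksN tbN esN at h
  cases hoff : offB D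
  · rw [hoff] at h
    exact certN0 h h01 h02 h10 h12 h20 h21 hd0 hd1 hd2 hG hij
  · rw [hoff] at h
    exact certZ hoff h h01 h02 h10 h12 h20 h21 hd0 hd1 hd2 hG hij

end Helper43.FCert
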