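import Pool.Agent.Helper43.MEI.FBox

/-!
# Box checker for sums of polynomials minus maxima of groups of polynomials

`checkG` proves, for several runs with the same polynomials: at every point of the unit box there
is an alternative `(main, groups)` of the run with
`∑_{i ∈ main} p_i - ∑_{g ∈ groups} p_{σ g} ≥ 0` for every choice `σ g ∈ g`.
-/

set_option autoImplicit false

namespace Helper43.GBox
open Helper43.KBox Helper43.XBox Helper43.EBox Helper43.FBox

/-- `L a τ`: alternative `a`, for every group the list of the dominating positions -/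
inductive GT where
  | L : ℕ → List (List ℕ) → GT
  | N : ℕ → GT → GT → GT

def nthN : List ℕ → ℕ → ℕ
  | [], _ => 0
  | a :: _, 0 => a
  | _ :: l, i + 1 => nthN l i

def sumP (F : ℕ → Bool → ℕ) (g : Bool) : List ℕ → ℕ
  | [] => 0
  | i :: l => Nat.add (F i g) (sumP F g l)

/-- entry `m` of a group: kept or dominated by a kept one -/
def ent (H : ℕ) (F : ℕ → Bool → ℕ) (cont : ℕ → ℕ → Bool) (P M : ℕ) (g τ : List ℕ) (m : ℕ) : Bool :=
  cond (Nat.beq (nthN τ m) m)
    (cont (Nat.add P (F (nthN g m) false)) (Nat.add M (F (nthN g m) true)))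
    (and (Nat.beq (nthN τ (nthN τ m)) (nthN τ m)) (and (Nat.ble (Nat.succ (nthN τ m)) g.length)
      (leafck H (Nat.add (F (nthN g (nthN τ m)) true) (F (nthN g m) false))
        (Nat.add (F (nthN g (nthN τ m)) false) (F (nthN g m) true)))))

def grp (H : ℕ) (F : ℕ → Bool → ℕ) (cont : ℕ → ℕ → Bool) (P M : ℕ) (g τ : List ℕ) : ℕ → Bool
  | 0 => true
  | m + 1 => and (ent H F cont P M g τ m) (grp H F cont P M g τ m)

/-- maximum of two shifted arrays, digit by digit -/
def cmx (w H A B : ℕ) : ℕ :=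
  Nat.add B (Nat.land (Nat.sub (Nat.add A H) B)
    (Nat.sub (Nat.land (Nat.sub (Nat.add A H) B) H)
      (Nat.shiftRight (Nat.land (Nat.sub (Nat.add A H) B) H) (Nat.pred w))))

def emax (w H : ℕ) (F : ℕ → Bool → ℕ) : ℕ → List ℕ → ℕ
  | E, [] => E
  | E, j :: l => emax w H F (cmx w H E (F j true)) l

/-- an empty list of tags: the maximum of the group digit by digit -/
def gl (w H : ℕ) (F : ℕ → Bool → ℕ) : List (List ℕ) → List (List ℕ) → ℕ → ℕ → Bool
  | [], _, P, M => leafck H P M
  | _ :: _, [], _, _ => false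
  | [] :: gs, [] :: τs, P, M => gl w H F gs τs P M
  | (j :: g) :: gs, [] :: τs, P, M =>
    gl w H F gs τs (Nat.add P (F j false)) (Nat.add M (emax w H F (F j true) g))
  | g :: gs, (t :: τ) :: τs, P, M => grp H F (gl w H F gs τs) P M g (t :: τ) g.length

def nthA : List (List ℕ × List (List ℕ)) → ℕ → Option (List ℕ × List (List ℕ))
  | [], _ => none
  | a :: _, 0 => some a
  | _ :: l, i + 1 => nthA l i

def gchk (w : ℕ) (tb : List (List ℕ × List (List ℕ))) (ds : List ℕ) :
    GT → ℕ → (ℕ → Bool → ℕ) → Bool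
  | GT.L a τ, r, F => match nthA tb a with
    | none => false
    | some e => and (Nat.ble (Nat.succ (Nat.add (Nat.add r e.1.length) e.2.length)) (Nat.pred w))
      (gl w (mH w ds) F e.2 τ (sumP F true e.1) (sumP F false e.1))
  | GT.N i a b, r, F =>
    and (Nat.ble (Nat.add r (Nat.mul 2 (dg ds i))) (Nat.pred w))
      (and (gchk w tb ds a (Nat.add r (Nat.mul 2 (dg ds i)))
          (fun c g => rL w ds i (sg w ds i) (dg ds i) (F c g)))
        (gchk w tb ds b (Nat.add r (Nat.mul 2 (dg ds i)))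
          (fun c g => rR w ds i (sg w ds i) (dg ds i) (F c g))))

/-- every choice of one entry per group -/
def holds (f : ℕ → ℝ) : List (List ℕ) → ℝ → Prop
  | [], v => 0 ≤ v
  | g :: gs, v => ∀ m < g.length, holds f gs (v - f (nthN g m))

noncomputable def sumI (f : ℕ → ℝ) : List ℕ → ℝ
  | [] => 0
  | i :: l => f i + sumI f l

theorem holds_mono {f : ℕ → ℝ} : ∀ (gs : List (List ℕ)) {v v' : ℝ}, v ≤ v' → holds f gs v →
    holds f gs v'
  | [], v, v', h, h0 => le_trans h0 h
  | g :: gs, v, v', h, h0 => fun m hm =>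
    holds_mono gs (sub_le_sub_right h (f (nthN g m))) (h0 m hm)

theorem holds_scale {f f' : ℕ → ℝ} {Q L : ℝ} (hQ : 0 ≤ Q) (hL : 0 < L) (ok : ℕ → Prop)
    (hf : ∀ i, ok i → L * f' i ≤ Q * f i) :
    ∀ (gs : List (List ℕ)) (v v' : ℝ), (∀ g ∈ gs, ∀ m < g.length, ok (nthN g m)) →
    Q * v ≤ L * v' → holds f gs v → holds f' gs v'
  | [], v, v', _, h, h0 => by
    have h1 : 0 ≤ v := h0
    have h2 : 0 ≤ L * v' := le_trans (mul_nonneg hQ h1) h
    show 0 ≤ v'
    by_contra hc
    push Not at hc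
    nlinarith
  | g :: gs, v, v', hg, h, h0 => fun m hm => by
    refine holds_scale hQ hL ok hf gs (v - f (nthN g m)) (v' - f' (nthN g m))
      (fun g' hg' => hg g' (List.mem_cons_of_mem _ hg')) ?_ (h0 m hm)
    have := hf _ (hg g List.mem_cons_self m hm)
    nlinarith

/-- constant array -/
def pcst (v : ℕ) : (ds : List ℕ) → Pol ds
  | [] => v
  | _ :: ds => fun _ => pcst v ds

def cO (w v : ℕ) : List ℕ → ℕ
  | [] => v
  | d :: ds => bsum (Nat.mul w (nl ds)) (fun _ => cO w v ds) (Nat.succ d)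

theorem pack_cst (w v : ℕ) : ∀ ds : List ℕ, pack w ds (pcst v ds) = cO w v ds
  | [] => rfl
  | d :: ds => by
    simp only [pack, pcst, pack_cst w v ds]
    rfl

theorem nat_sub1 {a v b : ℕ} (h : b < v + 1) : a + v - b + b = a + v := by omega

theorem nat_sub2 {a v b A : ℕ} (h : a < A) : a + v - b < A + v := by omega

theorem nat_sub3 {a v b : ℕ} (h : b < v + 1) :
    ((a + v - b : ℕ) : ℝ) - (v : ℝ) = (a : ℝ) - (b : ℝ) := by
  rw [Nat.cast_sub (by omega)]
  push_cast
  ring

/-- `a + v - b` -/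
def psb (v : ℕ) : (ds : List ℕ) → Pol ds → Pol ds → Pol ds
  | [], a, b => Nat.sub (Nat.add a v) b
  | _ :: ds, a, b => fun k => psb v ds (a k) (b k)

theorem pack_psb (w v : ℕ) : ∀ (ds : List ℕ) (a b : Pol ds), Bdd (v + 1) ds b →
    pack w ds (psb v ds a b) + pack w ds b = pack w ds a + cO w v ds
  | [], a, b, h => nat_sub1 (a := a) h
  | d :: ds, a, b, h => by
    show bsum (w * nl ds) (fun k => pack w ds (psb v ds (a k) (b k))) (d + 1)
      + bsum (w * nl ds) (fun k => pack w ds (b k)) (d + 1)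
      = bsum (w * nl ds) (fun k => pack w ds (a k)) (d + 1)
      + bsum (w * nl ds) (fun _ => cO w v ds) (d + 1)
    rw [← bsum_add, ← bsum_add]
    exact bsum_congr _ _ _ _ fun k hk => pack_psb w v ds (a k) (b k) (h k (by omega))

theorem Bdd_psb {v A : ℕ} : ∀ (ds : List ℕ) (a b : Pol ds), Bdd A ds a →
    Bdd (A + v) ds (psb v ds a b)
  | [], a, b, h => nat_sub2 (b := b) h
  | d :: ds, a, b, h => fun k hk => Bdd_psb ds (a k) (b k) (h k hk)

theorem Bdd_cst {v B : ℕ} (h : v < B) : ∀ ds : List ℕ, Bdd B ds (pcst v ds)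
  | [] => h
  | _ :: ds => fun _ _ => Bdd_cst h ds

theorem ev_psb (v : ℕ) : ∀ (ds : List ℕ) (a b : Pol ds) (s t : ℕ → ℝ), Bdd (v + 1) ds b →
    ev ds (psb v ds a b) s t - ev ds (pcst v ds) s t = ev ds a s t - ev ds b s t
  | [], a, b, s, t, h => by
    exact nat_sub3 (a := a) h
  | d :: ds, a, b, s, t, h => by
    show (∑ k ∈ Finset.range (d + 1), ev ds (psb v ds (a k) (b k)) (fun j => s (j + 1))
        (fun j => t (j + 1)) * (s 0 ^ (d - k) * t 0 ^ k))
      - (∑ k ∈ Finset.range (d + 1), ev ds (pcst v ds) (fun j => s (j + 1))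
        (fun j => t (j + 1)) * (s 0 ^ (d - k) * t 0 ^ k))
      = (∑ k ∈ Finset.range (d + 1), ev ds (a k) (fun j => s (j + 1))
        (fun j => t (j + 1)) * (s 0 ^ (d - k) * t 0 ^ k))
      - (∑ k ∈ Finset.range (d + 1), ev ds (b k) (fun j => s (j + 1))
        (fun j => t (j + 1)) * (s 0 ^ (d - k) * t 0 ^ k))
    rw [← Finset.sum_sub_distrib, ← Finset.sum_sub_distrib]
    refine Finset.sum_congr rfl fun k hk => ?_
    have := ev_psb v ds (a k) (b k) (fun j => s (j + 1)) (fun j => t (j + 1))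
      (h k (by have := Finset.mem_range.1 hk; omega))
    rw [← sub_mul, ← sub_mul, this]

/-! ### the maximum digit by digit -/

def pbit : (ds : List ℕ) → Pol ds → Pol ds → Pol ds
  | [], a, b => cond (Nat.ble b a) 1 0
  | _ :: ds, a, b => fun k => pbit ds (a k) (b k)

def pmk (v : ℕ) : (ds : List ℕ) → Pol ds → Pol ds → Pol ds
  | [], a, b => cond (Nat.ble b a) (v - 1) 0
  | _ :: ds, a, b => fun k => pmk v ds (a k) (b k)

def pmx : (ds : List ℕ) → Pol ds → Pol ds → Pol ds
  | [], a, b => Nat.max a b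
  | _ :: ds, a, b => fun k => pmx ds (a k) (b k)

theorem ble_cases (a b : ℕ) : (Nat.ble b a = true ∧ b ≤ a) ∨ (Nat.ble b a = false ∧ a < b) := by
  rcases Nat.lt_or_ge a b with h | h
  · right
    refine ⟨?_, h⟩
    cases hb : Nat.ble b a
    · rfl
    · have := Nat.le_of_ble_eq_true hb
      omega
  · exact Or.inl ⟨Nat.ble_eq_true_of_le h, h⟩

theorem num1 {m a b : ℕ} (ha : a < 2 ^ m) (hb : b < 2 ^ m) :
    Nat.land (a + 2 ^ m - b) (2 ^ m) = 2 ^ m * cond (Nat.ble b a) 1 0 := by
  show (a + 2 ^ m - b) &&& (2 ^ m) = _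
  have hz : (0 : ℕ) < 2 ^ m := by positivity
  rcases ble_cases a b with ⟨h, h1⟩ | ⟨h, h1⟩
  · rw [h]
    have e : a + 2 ^ m - b = (a - b) + 1 * 2 ^ m := by omega
    have := land_split (m := m) 1 1 (show a - b < 2 ^ m by omega) hz
    rw [zero_add, one_mul] at this
    rw [e, one_mul, this]
    simp
  · rw [h]
    have e : a + 2 ^ m - b = (a + 2 ^ m - b) + 0 * 2 ^ m := by omega
    have := land_split (m := m) 0 1 (show a + 2 ^ m - b < 2 ^ m by omega) hz
    rw [zero_add, one_mul] at this
    rw [e, this]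
    simp

theorem num3 {m a b : ℕ} (ha : a < 2 ^ m) (hb : b < 2 ^ m) :
    b + Nat.land (a + 2 ^ m - b) (cond (Nat.ble b a) (2 ^ m - 1) 0) = Nat.max a b := by
  rcases ble_cases a b with ⟨h, h1⟩ | ⟨h, h1⟩
  · rw [h]
    have e : Nat.land (a + 2 ^ m - b) (2 ^ m - 1) = (a + 2 ^ m - b) % 2 ^ m :=
      Nat.and_two_pow_sub_one_eq_mod _ m
    show b + Nat.land (a + 2 ^ m - b) (2 ^ m - 1) = _
    have e2 : a + 2 ^ m - b = (a - b) + 2 ^ m := by omega
    rw [e, e2, Nat.add_mod_right, Nat.mod_eq_of_lt (by omega)]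
    have : Nat.max a b = a := Nat.max_eq_left h1
    omega
  · rw [h]
    have e : Nat.land (a + 2 ^ m - b) 0 = 0 := Nat.and_zero _
    show b + Nat.land (a + 2 ^ m - b) 0 = _
    have : Nat.max a b = b := Nat.max_eq_right h1.le
    rw [e]
    omega

theorem num2 (v a b : ℕ) (hv : 1 ≤ v) :
    cond (Nat.ble b a) (v - 1) 0 + cond (Nat.ble b a) 1 0 = v * cond (Nat.ble b a) 1 0 := by
  cases Nat.ble b a
  · simp
  · simp only [cond]
    omega

theorem pack_bit {m : ℕ} : ∀ (ds : List ℕ) (a b : Pol ds), Bdd (2 ^ m) ds a → Bdd (2 ^ m) ds b →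
    Nat.land (pack (m + 1) ds (psb (2 ^ m) ds a b)) (cO (m + 1) (2 ^ m) ds) =
      2 ^ m * pack (m + 1) ds (pbit ds a b)
  | [], a, b, ha, hb => num1 (a := a) (b := b) ha hb
  | d :: ds, a, b, ha, hb => by
    have e2 : 2 ^ m + 2 ^ m = 2 ^ (m + 1) := by rw [pow_succ]; ring
    have hz : (0 : ℕ) < 2 ^ m := by positivity
    show (bsum ((m + 1) * nl ds) (fun k => pack (m + 1) ds (psb (2 ^ m) ds (a k) (b k))) (d + 1))
      &&& (bsum ((m + 1) * nl ds) (fun _ => cO (m + 1) (2 ^ m) ds) (d + 1)) = _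
    rw [bsum_land ((m + 1) * nl ds) _ _ (d + 1)
      (fun k hk => pack_lt (m + 1) ds _ (by
        rw [← e2]
        exact Bdd_psb ds _ _ (ha k (by omega))))
      (fun k hk => by
        rw [← pack_cst]
        exact pack_lt (m + 1) ds _ (Bdd_cst (by rw [← e2]; omega) ds))]
    show _ = 2 ^ m * bsum ((m + 1) * nl ds) (fun k => pack (m + 1) ds (pbit ds (a k) (b k))) (d + 1)
    rw [← bsum_mul]
    exact bsum_congr _ _ _ _ fun k hk => pack_bit ds (a k) (b k) (ha k (by omega)) (hb k (by omega))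

theorem pack_mk {w v : ℕ} (hv : 1 ≤ v) : ∀ (ds : List ℕ) (a b : Pol ds),
    pack w ds (pmk v ds a b) + pack w ds (pbit ds a b) = v * pack w ds (pbit ds a b)
  | [], a, b => num2 v a b hv
  | d :: ds, a, b => by
    show bsum (w * nl ds) (fun k => pack w ds (pmk v ds (a k) (b k))) (d + 1)
      + bsum (w * nl ds) (fun k => pack w ds (pbit ds (a k) (b k))) (d + 1)
      = v * bsum (w * nl ds) (fun k => pack w ds (pbit ds (a k) (b k))) (d + 1)
    rw [← bsum_add, ← bsum_mul]
    exact bsum_congr _ _ _ _ fun k _ => pack_mk hv ds (a k) (b k)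

theorem cond_lt {v B : ℕ} (h : v - 1 < B) (c : Bool) : cond c (v - 1) 0 < B := by
  cases c
  · show 0 < B
    omega
  · exact h

theorem Bdd_mk {v B : ℕ} (h : v - 1 < B) : ∀ (ds : List ℕ) (a b : Pol ds), Bdd B ds (pmk v ds a b)
  | [], a, b => cond_lt h _
  | _ :: ds, a, b => fun k _ => Bdd_mk h ds (a k) (b k)

theorem pack_mx {m : ℕ} : ∀ (ds : List ℕ) (a b : Pol ds), Bdd (2 ^ m) ds a → Bdd (2 ^ m) ds b →
    pack (m + 1) ds b + Nat.land (pack (m + 1) ds (psb (2 ^ m) ds a b))
      (pack (m + 1) ds (pmk (2 ^ m) ds a b)) = pack (m + 1) ds (pmx ds a b)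
  | [], a, b, ha, hb => num3 (a := a) (b := b) ha hb
  | d :: ds, a, b, ha, hb => by
    have e2 : 2 ^ m + 2 ^ m = 2 ^ (m + 1) := by rw [pow_succ]; ring
    have hz : (0 : ℕ) < 2 ^ m := by positivity
    show bsum ((m + 1) * nl ds) (fun k => pack (m + 1) ds (b k)) (d + 1) +
      ((bsum ((m + 1) * nl ds) (fun k => pack (m + 1) ds (psb (2 ^ m) ds (a k) (b k))) (d + 1))
      &&& (bsum ((m + 1) * nl ds) (fun k => pack (m + 1) ds (pmk (2 ^ m) ds (a k) (b k))) (d + 1)))
      = _
    rw [bsum_land ((m + 1) * nl ds) _ _ (d + 1)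
      (fun k hk => pack_lt (m + 1) ds _ (by
        rw [← e2]
        exact Bdd_psb ds _ _ (ha k (by omega))))
      (fun k hk => pack_lt (m + 1) ds _ (Bdd_mk (by rw [← e2]; omega) ds _ _)), ← bsum_add]
    exact bsum_congr _ _ _ _ fun k hk => pack_mx ds (a k) (b k) (ha k (by omega)) (hb k (by omega))

theorem mH_cO {m : ℕ} : ∀ ds : List ℕ, mH (m + 1) ds = cO (m + 1) (2 ^ m) ds
  | [] => rfl
  | d :: ds => by
    show bsum ((m + 1) * nl ds) (fun _ => mH (m + 1) ds) (d + 1) =
      bsum ((m + 1) * nl ds) (fun _ => cO (m + 1) (2 ^ m) ds) (d + 1)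
    rw [mH_cO ds]

theorem cmx_pack {m : ℕ} {ds : List ℕ} {a b : Pol ds} (ha : Bdd (2 ^ m) ds a)
    (hb : Bdd (2 ^ m) ds b) : cmx (m + 1) (mH (m + 1) ds) (pack (m + 1) ds a) (pack (m + 1) ds b) =
      pack (m + 1) ds (pmx ds a b) := by
  have hz : (0 : ℕ) < 2 ^ m := by positivity
  have h1 := pack_psb (m + 1) (2 ^ m) ds a b (Bdd_mono (Nat.le_succ _) _ _ hb)
  have h2 := pack_bit ds a b ha hb
  have h3 := pack_mk (w := m + 1) (v := 2 ^ m) hz ds a b
  have h4 := pack_mx ds a b ha hb
  have e1 : Nat.sub (Nat.add (pack (m + 1) ds a) (mH (m + 1) ds)) (pack (m + 1) ds b) =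
      pack (m + 1) ds (psb (2 ^ m) ds a b) := by
    rw [mH_cO]
    show pack (m + 1) ds a + cO (m + 1) (2 ^ m) ds - pack (m + 1) ds b = _
    omega
  unfold cmx
  rw [e1, mH_cO, h2]
  have e2 : Nat.shiftRight (2 ^ m * pack (m + 1) ds (pbit ds a b)) (Nat.pred (m + 1)) =
      pack (m + 1) ds (pbit ds a b) := by
    show (2 ^ m * pack (m + 1) ds (pbit ds a b)) >>> m = _
    rw [Nat.shiftRight_eq_div_pow, Nat.mul_div_cancel_left _ hz]
  rw [e2]
  have e3 : Nat.sub (2 ^ m * pack (m + 1) ds (pbit ds a b)) (pack (m + 1) ds (pbit ds a b)) =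
      pack (m + 1) ds (pmk (2 ^ m) ds a b) := by
    show 2 ^ m * pack (m + 1) ds (pbit ds a b) - pack (m + 1) ds (pbit ds a b) = _
    omega
  rw [e3]
  exact h4

theorem Le_refl : ∀ (ds : List ℕ) (a : Pol ds), Le ds a a
  | [], a => Nat.le_refl a
  | _ :: ds, a => fun k _ => Le_refl ds (a k)

theorem Le_trans : ∀ (ds : List ℕ) (a b c : Pol ds), Le ds a b → Le ds b c → Le ds a c
  | [], a, b, c, h1, h2 => Nat.le_trans h1 h2
  | _ :: ds, a, b, c, h1, h2 => fun k hk => Le_trans ds (a k) (b k) (c k) (h1 k hk) (h2 k hk)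

theorem Le_mx_left : ∀ (ds : List ℕ) (a b : Pol ds), Le ds a (pmx ds a b)
  | [], a, b => Nat.le_max_left a b
  | _ :: ds, a, b => fun k _ => Le_mx_left ds (a k) (b k)

theorem Le_mx_right : ∀ (ds : List ℕ) (a b : Pol ds), Le ds b (pmx ds a b)
  | [], a, b => Nat.le_max_right a b
  | _ :: ds, a, b => fun k _ => Le_mx_right ds (a k) (b k)

theorem mx_lt {a b B : ℕ} (ha : a < B) (hb : b < B) : Nat.max a b < B := by
  rcases Nat.le_total a b with h | h
  · exact (Nat.max_le.2 ⟨h, Nat.le_refl b⟩).trans_lt hb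
  · exact (Nat.max_le.2 ⟨Nat.le_refl a, h⟩).trans_lt ha

theorem Bdd_mx {B : ℕ} : ∀ (ds : List ℕ) (a b : Pol ds), Bdd B ds a → Bdd B ds b →
    Bdd B ds (pmx ds a b)
  | [], a, b, ha, hb => mx_lt (a := a) (b := b) ha hb
  | _ :: ds, a, b, ha, hb => fun k hk => Bdd_mx ds (a k) (b k) (ha k hk) (hb k hk)

theorem emax_sound {m r : ℕ} (hr : r ≤ m) {ds : List ℕ} {F : ℕ → Bool → ℕ}
    {a : ℕ → Bool → Pol ds} (hF : ∀ c g, F c g = pack (m + 1) ds (a c g) ∧ Bdd (2 ^ r) ds (a c g)) :
    ∀ (l : List ℕ) (e : Pol ds), Bdd (2 ^ r) ds e →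
      ∃ e' : Pol ds, emax (m + 1) (mH (m + 1) ds) F (pack (m + 1) ds e) l = pack (m + 1) ds e' ∧
        Bdd (2 ^ r) ds e' ∧ Le ds e e' ∧ ∀ j ∈ l, Le ds (a j true) e'
  | [], e, he => ⟨e, rfl, he, Le_refl ds e, fun j hj => by simp at hj⟩
  | j :: l, e, he => by
    have hp : 2 ^ r ≤ 2 ^ m := Nat.pow_le_pow_right (by norm_num) hr
    have h1 := cmx_pack (Bdd_mono hp _ _ he) (Bdd_mono hp _ _ (hF j true).2)
    obtain ⟨e', h2, h3, h4, h5⟩ := emax_sound hr hF l (pmx ds e (a j true))
      (Bdd_mx ds _ _ he (hF j true).2)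
    refine ⟨e', ?_, h3, Le_trans ds _ _ _ (Le_mx_left ds e (a j true)) h4, ?_⟩
    · rw [← h2, ← h1, ← (hF j true).1]
      rfl
    · intro i hi
      rcases List.mem_cons.1 hi with rfl | hi
      · exact Le_trans ds _ _ _ (Le_mx_right ds e _) h4
      · exact h5 i hi

theorem nthN_mem : ∀ (l : List ℕ) (m : ℕ), m < l.length → nthN l m ∈ l
  | [], m, h => by simp at h
  | a :: l, 0, _ => List.mem_cons_self
  | a :: l, m + 1, h => List.mem_cons_of_mem _ (nthN_mem l m (by simpa using h))

theorem grp_all {H : ℕ} {F : ℕ → Bool → ℕ} {cont : ℕ → ℕ → Bool} {P M : ℕ} {g τ : List ℕ} :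
    ∀ n : ℕ, grp H F cont P M g τ n = true → ∀ m < n, ent H F cont P M g τ m = true
  | 0, _, m, hm => absurd hm (Nat.not_lt_zero m)
  | n + 1, h, m, hm => by
    simp only [grp, Bool.and_eq_true] at h
    rcases Nat.lt_succ_iff_lt_or_eq.1 hm with h1 | rfl
    · exact grp_all n h.2 m h1
    · exact h.1

theorem gl_sound {w r : ℕ} (hw : 1 ≤ w) {ds : List ℕ} {F : ℕ → Bool → ℕ}
    {a : ℕ → Bool → Pol ds} (hF : ∀ c g, F c g = pack w ds (a c g) ∧ Bdd (2 ^ r) ds (a c g))
    (hO : ∀ c c', a c false = a c' false)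
    {s t : ℕ → ℝ} (hs : ∀ j, 0 ≤ s j) (ht : ∀ j, 0 ≤ t j) (hr1 : r + 1 ≤ w - 1) :
    ∀ (gs τs : List (List ℕ)) (P M r' : ℕ) (A B : Pol ds), P = pack w ds A → M = pack w ds B →
      Bdd (2 ^ r') ds A → Bdd (2 ^ r') ds B → r ≤ r' → r' + gs.length ≤ w - 1 →
      gl w (mH w ds) F gs τs P M = true →
      holds (fun c => ev ds (a c true) s t - ev ds (a c false) s t) gs
        (ev ds A s t - ev ds B s t)
  | [], τs, P, M, r', A, B, hP, hM, hA, hB, hr, hl, h => by
    have hl' : r' ≤ w - 1 := by simpa using hl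
    rw [gl] at h
    have := leafck_sound hw hP hM hA hB hl' hl' hs ht h
    show 0 ≤ _
    linarith
  | g :: gs, [], P, M, r', A, B, hP, hM, hA, hB, hr, hl, h => by
    rw [gl] at h
    exact Bool.noConfusion h
  | [] :: gs, [] :: τs, P, M, r', A, B, hP, hM, hA, hB, hr, hl, h => fun m hm => by
    simp at hm
  | (j :: g) :: gs, [] :: τs, P, M, r', A, B, hP, hM, hA, hB, hr, hl, h => by
    rw [gl] at h
    have hl1 : r' + 1 + gs.length ≤ w - 1 := by
      rw [List.length_cons] at hl
      omega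
    obtain ⟨m', rfl⟩ : ∃ m', w = m' + 1 := ⟨w - 1, by omega⟩
    have hb : ∀ c g, Bdd (2 ^ r') ds (a c g) := fun c g =>
      Bdd_mono (Nat.pow_le_pow_right (by norm_num) hr) _ _ (hF c g).2
    have e2 : 2 ^ r' + 2 ^ r' = 2 ^ (r' + 1) := by rw [pow_succ]; ring
    obtain ⟨e, h1, h2, h3, h4⟩ := emax_sound (m := m') (by omega) hF g (a j true) (hF j true).2
    have h2' : Bdd (2 ^ r') ds e := Bdd_mono (Nat.pow_le_pow_right (by norm_num) hr) _ _ h2
    have key := gl_sound hw hF hO hs ht hr1 gs τs _ _ (r' + 1)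
      (padd ds A (a j false)) (padd ds B e)
      (by rw [pack_add, ← hP, ← (hF _ false).1]; rfl)
      (by rw [pack_add, ← hM, ← h1, ← (hF _ true).1]; rfl)
      (by rw [← e2]; exact Bdd_add ds _ _ hA (hb _ false))
      (by rw [← e2]; exact Bdd_add ds _ _ hB h2') (by omega) hl1 h
    rw [KBox.ev_add, KBox.ev_add] at key
    intro m hm
    have hmem := nthN_mem (j :: g) m hm
    have hle : Le ds (a (nthN (j :: g) m) true) e := by
      rcases List.mem_cons.1 hmem with h5 | h5
      · rw [h5]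
        exact h3
      · exact h4 _ h5
    have hev := ev_le ds _ _ s t hs ht hle
    refine holds_mono gs ?_ key
    beta_reduce
    rw [hO (nthN (j :: g) m) j]
    linarith
  | g :: gs, (t₀ :: τ₀) :: τs, P, M, r', A, B, hP, hM, hA, hB, hr, hl, h => by
    set τ := t₀ :: τ₀ with hτ
    have h : grp (mH w ds) F (gl w (mH w ds) F gs τs) P M g τ g.length = true := by
      rw [hτ]
      cases g with
      | nil => rfl
      | cons j g => exact h
    have hl1 : r' + 1 + gs.length ≤ w - 1 := by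
      rw [List.length_cons] at hl
      omega
    have hb : ∀ c g, Bdd (2 ^ r') ds (a c g) := fun c g =>
      Bdd_mono (Nat.pow_le_pow_right (by norm_num) hr) _ _ (hF c g).2
    have e2 : 2 ^ r' + 2 ^ r' = 2 ^ (r' + 1) := by rw [pow_succ]; ring
    have e3 : 2 ^ r + 2 ^ r = 2 ^ (r + 1) := by rw [pow_succ]; ring
    have hall := grp_all _ h
    -- kept entries
    have kept : ∀ m, m < g.length → nthN τ m = m →
        holds (fun c => ev ds (a c true) s t - ev ds (a c false) s t) gs
          (ev ds A s t - ev ds B s t - (ev ds (a (nthN g m) true) s t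
            - ev ds (a (nthN g m) false) s t)) := by
      intro m hm hk
      have h1 := hall m hm
      unfold ent at h1
      rw [hk, Nat.beq_refl] at h1
      simp only [cond] at h1
      have key := gl_sound hw hF hO hs ht hr1 gs τs _ _ (r' + 1)
        (padd ds A (a (nthN g m) false)) (padd ds B (a (nthN g m) true))
        (by rw [pack_add, ← hP, ← (hF _ false).1]; rfl)
        (by rw [pack_add, ← hM, ← (hF _ true).1]; rfl)
        (by rw [← e2]; exact Bdd_add ds _ _ hA (hb _ false))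
        (by rw [← e2]; exact Bdd_add ds _ _ hB (hb _ true)) (by omega) hl1 h1
      rw [KBox.ev_add, KBox.ev_add] at key
      exact holds_mono gs (by linarith) key
    intro m hm
    by_cases hk : nthN τ m = m
    · exact kept m hm hk
    · have h1 := hall m hm
      unfold ent at h1
      have hk' : Nat.beq (nthN τ m) m = false := by
        cases hb : Nat.beq (nthN τ m) m
        · rfl
        · exact absurd (Nat.eq_of_beq_eq_true hb) hk
      rw [hk'] at h1
      simp only [cond, Bool.and_eq_true] at h1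
      obtain ⟨h2, h3, h4⟩ := h1
      have h5 : nthN τ (nthN τ m) = nthN τ m := Nat.eq_of_beq_eq_true h2
      have h6 : nthN τ m < g.length := Nat.le_of_ble_eq_true h3
      have key := kept (nthN τ m) h6 h5
      have hd := leafck_sound hw (A := padd ds (a (nthN g (nthN τ m)) true) (a (nthN g m) false))
        (B := padd ds (a (nthN g (nthN τ m)) false) (a (nthN g m) true))
        (P := Nat.add (F (nthN g (nthN τ m)) true) (F (nthN g m) false))
        (M := Nat.add (F (nthN g (nthN τ m)) false) (F (nthN g m) true))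
        (by rw [pack_add, ← (hF _ true).1, ← (hF _ false).1]; rfl)
        (by rw [pack_add, ← (hF _ false).1, ← (hF _ true).1]; rfl)
        (by rw [← e3]; exact Bdd_add ds _ _ (hF _ true).2 (hF _ false).2)
        (by rw [← e3]; exact Bdd_add ds _ _ (hF _ false).2 (hF _ true).2) hr1 hr1 hs ht h4
      rw [KBox.ev_add, KBox.ev_add] at hd
      refine holds_mono gs ?_ key
      beta_reduce
      linarith

theorem sumP_pack {w r : ℕ} {ds : List ℕ} {F : ℕ → Bool → ℕ} {a : ℕ → Bool → Pol ds}
    (hF : ∀ c g, F c g = pack w ds (a c g) ∧ Bdd (2 ^ r) ds (a c g)) (g : Bool) (s t : ℕ → ℝ) :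
    ∀ l : List ℕ, ∃ A : Pol ds, sumP F g l = pack w ds A ∧ Bdd (2 ^ (r + l.length)) ds A ∧
      ev ds A s t = sumI (fun c => ev ds (a c g) s t) l
  | [] => ⟨pzero ds, (pack_zero w ds).symm, Bdd_zero (by positivity) ds, ev_zero ds s t⟩
  | i :: l => by
    obtain ⟨A, h1, h2, h3⟩ := sumP_pack hF g s t l
    refine ⟨padd ds (a i g) A, ?_, ?_, ?_⟩
    · rw [pack_add, ← (hF i g).1, ← h1]
      rfl
    · have e : 2 ^ (r + (i :: l).length) = 2 ^ (r + l.length) + 2 ^ (r + l.length) := by
        rw [List.length_cons, ← add_assoc, pow_succ]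
        ring
      rw [e]
      exact Bdd_add ds _ _ (Bdd_mono (Nat.pow_le_pow_right (by norm_num) (by omega)) _ _
        (hF i g).2) h2
    · rw [KBox.ev_add, h3]
      rfl

theorem sumI_sub (f g : ℕ → ℝ) : ∀ l : List ℕ,
    sumI (fun c => f c - g c) l = sumI f l - sumI g l
  | [] => by simp [sumI]
  | i :: l => by
    simp only [sumI, sumI_sub f g l]
    ring

theorem nthA_mem : ∀ (tb : List (List ℕ × List (List ℕ))) (a : ℕ)
    (e : List ℕ × List (List ℕ)), nthA tb a = some e → e ∈ tb
  | [], a, e, h => by simp [nthA] at h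
  | f :: tb, 0, e, h => by
    have : f = e := by simpa [nthA] using h
    rw [this]
    exact List.mem_cons_self
  | f :: tb, a + 1, e, h => List.mem_cons_of_mem _ (nthA_mem tb a e h)

theorem gchk_sound {w : ℕ} (hw : 1 ≤ w) (tb : List (List ℕ × List (List ℕ))) (ds : List ℕ) :
    ∀ (T : GT) (r : ℕ)
    (F : ℕ → Bool → ℕ) (a : ℕ → Bool → Pol ds) (s t : ℕ → ℝ),
    (∀ c g, F c g = pack w ds (a c g) ∧ Bdd (2 ^ r) ds (a c g)) →
    (∀ c c', a c false = a c' false) → r ≤ w - 1 →
    (∀ j, 0 ≤ s j) → (∀ j, 0 ≤ t j) → gchk w tb ds T r F = true →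
    ∃ e ∈ tb, holds (fun c => ev ds (a c true) s t - ev ds (a c false) s t) e.2
      (sumI (fun c => ev ds (a c true) s t - ev ds (a c false) s t) e.1)
  | GT.L i τ, r, F, a, s, t, hF, hO, hr, hs, ht, h => by
    rw [gchk] at h
    cases hA : nthA tb i with
    | none =>
      rw [hA] at h
      simp at h
    | some e =>
      rw [hA] at h
      simp only [Bool.and_eq_true] at h
      obtain ⟨h2, h3⟩ := h
      have h4 : r + e.1.length + e.2.length + 1 ≤ w - 1 := Nat.le_of_ble_eq_true h2
      refine ⟨e, nthA_mem tb i e hA, ?_⟩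
      obtain ⟨A, a1, a2, a3⟩ := sumP_pack hF true s t e.1
      obtain ⟨B, b1, b2, b3⟩ := sumP_pack hF false s t e.1
      have := gl_sound hw hF hO hs ht (by omega) e.2 τ _ _ (r + e.1.length) A B a1 b1 a2 b2
        (by omega) (by omega) h3
      rw [sumI_sub]
      rw [a3, b3] at this
      exact this
  | GT.N i T1 T2, r, F, a, s, t, hF, hO, hr, hs, ht, h => by
    simp only [gchk, Bool.and_eq_true] at h
    obtain ⟨h1, h2, h3⟩ := h
    have h4 : r + 2 * dg ds i ≤ w - 1 := Nat.le_of_ble_eq_true h1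
    rcases le_total (t i) (s i) with hle | hle
    · have hs' : ∀ j, 0 ≤ Function.update s i ((s i - t i) / 2) j := by
        intro j
        by_cases hj : j = i
        · subst hj
          simp
          linarith
        · rw [Function.update_of_ne hj]
          exact hs j
      obtain ⟨e, he, key⟩ := gchk_sound hw tb ds T1 (r + 2 * dg ds i) _
        (fun c g => qL ds i (dg ds i) (a c g))
        (Function.update s i ((s i - t i) / 2)) t
        (fun c g => by
          obtain ⟨h5, h6⟩ := pack_qL (w := w) i (hF c g).2 (dg ds i) le_rfl (by omega)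
          refine ⟨?_, h6⟩
          rw [h5, (hF c g).1]) (fun c c' => by rw [hO c c']) h4 hs' ht h2
      refine ⟨e, he, ?_⟩
      have e1 : Function.update (Function.update s i ((s i - t i) / 2)) i
          (2 * Function.update s i ((s i - t i) / 2) i + t i) = s := by
        funext j
        by_cases hj : j = i
        · subst hj
          simp
          ring
        · rw [Function.update_of_ne hj, Function.update_of_ne hj]
      simp only [ev_L, e1] at key
      exact key
    · have ht' : ∀ j, 0 ≤ Function.update t i ((t i - s i) / 2) j := by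
        intro j
        by_cases hj : j = i
        · subst hj
          simp
          linarith
        · rw [Function.update_of_ne hj]
          exact ht j
      obtain ⟨e, he, key⟩ := gchk_sound hw tb ds T2 (r + 2 * dg ds i) _
        (fun c g => qR ds i (dg ds i) (a c g)) s
        (Function.update t i ((t i - s i) / 2))
        (fun c g => by
          obtain ⟨h5, h6⟩ := pack_qR (w := w) i (dg ds i) r _ (hF c g).2 (by omega)
          refine ⟨?_, h6⟩
          rw [h5, (hF c g).1]) (fun c c' => by rw [hO c c']) h4 hs ht' h3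
      refine ⟨e, he, ?_⟩
      have e1 : Function.update (Function.update t i ((t i - s i) / 2)) i
          (s i + 2 * Function.update t i ((t i - s i) / 2) i) = t := by
        funext j
        by_cases hj : j = i
        · subst hj
          simp
          ring
        · rw [Function.update_of_ne hj, Function.update_of_ne hj]
      simp only [ev_R, e1] at key
      exact key

/-! ### one array per polynomial: all values shifted by a constant -/

def gchkO (w : ℕ) (tb : List (List ℕ × List (List ℕ))) (ds : List ℕ) :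
    GT → ℕ → (ℕ → ℕ) → ℕ → Bool
  | GT.L a τ, r, F, O => match nthA tb a with
    | none => false
    | some e => and (Nat.ble (Nat.succ (Nat.add (Nat.add r e.1.length) e.2.length)) (Nat.pred w))
      (gl w (mH w ds) (fun c g => cond g (F c) O) e.2 τ
        (sumP (fun c g => cond g (F c) O) true e.1) (sumP (fun c g => cond g (F c) O) false e.1))
  | GT.N i a b, r, F, O =>
    and (Nat.ble (Nat.add r (Nat.mul 2 (dg ds i))) (Nat.pred w))
      (and (gchkO w tb ds a (Nat.add r (Nat.mul 2 (dg ds i)))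
          (fun c => rL w ds i (sg w ds i) (dg ds i) (F c)) (rL w ds i (sg w ds i) (dg ds i) O))
        (gchkO w tb ds b (Nat.add r (Nat.mul 2 (dg ds i)))
          (fun c => rR w ds i (sg w ds i) (dg ds i) (F c)) (rR w ds i (sg w ds i) (dg ds i) O)))

theorem gchkO_eq (w : ℕ) (tb : List (List ℕ × List (List ℕ))) (ds : List ℕ) :
    ∀ (T : GT) (r : ℕ) (F : ℕ → ℕ) (O : ℕ),
    gchkO w tb ds T r F O = gchk w tb ds T r (fun c g => cond g (F c) O)
  | GT.L a τ, r, F, O => rfl
  | GT.N i a b, r, F, O => by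
    have e1 : (fun c g => rL w ds i (sg w ds i) (dg ds i)
        ((fun c g => cond g (F c) O) c g)) = (fun (c : ℕ) (g : Bool) => cond g
        ((fun c => rL w ds i (sg w ds i) (dg ds i) (F c)) c)
        (rL w ds i (sg w ds i) (dg ds i) O)) := by
      funext c g
      cases g <;> rfl
    have e2 : (fun c g => rR w ds i (sg w ds i) (dg ds i)
        ((fun c g => cond g (F c) O) c g)) = (fun (c : ℕ) (g : Bool) => cond g
        ((fun c => rR w ds i (sg w ds i) (dg ds i) (F c)) c)
        (rR w ds i (sg w ds i) (dg ds i) O)) := by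
      funext c g
      cases g <;> rfl
    simp only [gchkO, gchk]
    rw [gchkO_eq w tb ds a, gchkO_eq w tb ds b, e1, e2]

/-- soundness for pairs of arrays turned into shifted arrays -/
theorem gchkO_sound {w : ℕ} (hw : 1 ≤ w) (tb : List (List ℕ × List (List ℕ))) (ds : List ℕ)
    (T : GT) (r : ℕ) (F : ℕ → Bool → ℕ) (a : ℕ → Bool → Pol ds) (s t : ℕ → ℝ)
    (hF : ∀ c g, F c g = pack w ds (a c g) ∧ Bdd (2 ^ r) ds (a c g)) (hr : r + 1 ≤ w - 1)
    (hs : ∀ j, 0 ≤ s j) (ht : ∀ j, 0 ≤ t j)
    (h : gchkO w tb ds T (r + 1) (fun c => Nat.sub (Nat.add (F c true) (cO w (2 ^ r) ds))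
      (F c false)) (cO w (2 ^ r) ds) = true) :
    ∃ e ∈ tb, holds (fun c => ev ds (a c true) s t - ev ds (a c false) s t) e.2
      (sumI (fun c => ev ds (a c true) s t - ev ds (a c false) s t) e.1) := by
  rw [gchkO_eq] at h
  have e3 : 2 ^ r + 2 ^ r = 2 ^ (r + 1) := by rw [pow_succ]; ring
  have hb : ∀ c, Bdd (2 ^ r + 1) ds (a c false) := fun c =>
    Bdd_mono (Nat.le_succ _) _ _ (hF c false).2
  have key := gchk_sound hw tb ds T (r + 1) _
    (fun c g => cond g (psb (2 ^ r) ds (a c true) (a c false)) (pcst (2 ^ r) ds)) s t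
    (fun c g => by
      cases g
      · refine ⟨(pack_cst w _ ds).symm, Bdd_cst ?_ ds⟩
        rw [← e3]
        have : 0 < 2 ^ r := by positivity
        omega
      · refine ⟨?_, ?_⟩
        · have h1 := pack_psb w (2 ^ r) ds (a c true) (a c false) (hb c)
          rw [← (hF c true).1, ← (hF c false).1] at h1
          show F c true + cO w (2 ^ r) ds - F c false =
            pack w ds (psb (2 ^ r) ds (a c true) (a c false))
          omega
        · show Bdd _ ds (psb (2 ^ r) ds (a c true) (a c false))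
          rw [← e3]
          exact Bdd_psb ds _ _ (hF c true).2) (fun c c' => rfl) hr hs ht h
  have e : (fun c => ev ds (cond true (psb (2 ^ r) ds (a c true) (a c false)) (pcst (2 ^ r) ds)) s t
      - ev ds (cond false (psb (2 ^ r) ds (a c true) (a c false)) (pcst (2 ^ r) ds)) s t)
      = fun c => ev ds (a c true) s t - ev ds (a c false) s t := by
    funext c
    exact ev_psb _ ds _ _ s t (hb c)
  rw [e] at key
  exact key

/-- kinds: `main` from below, groups from above -/
def okI (ks : List Bool) (k : Bool) : List ℕ → Bool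
  | [] => true
  | i :: l => and (cond k (nthB ks i) (not (nthB ks i))) (okI ks k l)

def okG (ks : List Bool) : List (List ℕ) → Bool
  | [] => true
  | g :: gs => and (okI ks false g) (okG ks gs)

def okA (ks : List Bool) : List (List ℕ × List (List ℕ)) → Bool
  | [] => true
  | e :: l => and (and (okI ks true e.1) (okG ks e.2)) (okA ks l)

theorem okI_true {ks : List Bool} : ∀ {l : List ℕ}, okI ks true l = true → ∀ i ∈ l,
    nthB ks i = true
  | [], _, i, hi => by simp at hi
  | j :: l, h, i, hi => by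
    simp only [okI, Bool.and_eq_true, cond] at h
    rcases List.mem_cons.1 hi with rfl | hi
    · exact h.1
    · exact okI_true h.2 i hi

theorem okI_false {ks : List Bool} : ∀ {l : List ℕ}, okI ks false l = true → ∀ m < l.length,
    nthB ks (nthN l m) = false
  | [], _, m, hm => by simp at hm
  | j :: l, h, 0, _ => by
    simp only [okI, Bool.and_eq_true, cond, Bool.not_eq_true'] at h
    exact h.1
  | j :: l, h, m + 1, hm => by
    simp only [okI, Bool.and_eq_true, cond, Bool.not_eq_true'] at h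
    exact okI_false h.2 m (by simpa using hm)

theorem okG_mem {ks : List Bool} : ∀ {gs : List (List ℕ)}, okG ks gs = true → ∀ g ∈ gs,
    okI ks false g = true
  | [], _, g, hg => by simp at hg
  | f :: gs, h, g, hg => by
    simp only [okG, Bool.and_eq_true] at h
    rcases List.mem_cons.1 hg with rfl | hg
    · exact h.1
    · exact okG_mem h.2 g hg

theorem okA_mem {ks : List Bool} : ∀ {tb : List (List ℕ × List (List ℕ))}, okA ks tb = true →
    ∀ e ∈ tb, okI ks true e.1 = true ∧ okG ks e.2 = true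
  | [], _, e, he => by simp at he
  | f :: l, h, e, he => by
    simp only [okA, Bool.and_eq_true] at h
    rcases List.mem_cons.1 he with rfl | he
    · exact h.1
    · exact okA_mem h.2 e he

/-- the runs on given packed polynomials -/
def runs (w r : ℕ) (ds : List ℕ) (ks : List Bool) (F : ℕ → ℕ) (O : ℕ) :
    List (List (List ℕ × List (List ℕ)) × GT) → Bool
  | [] => true
  | e :: l => and (and (okA ks e.1) (gchkO w e.1 ds e.2 r F O)) (runs w r ds ks F O l)

theorem runs_mem {w r : ℕ} {ds : List ℕ} {ks : List Bool} {F : ℕ → ℕ} {O : ℕ} :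
    ∀ {rs : List (List (List ℕ × List (List ℕ)) × GT)}, runs w r ds ks F O rs = true →
    ∀ e ∈ rs, okA ks e.1 = true ∧ gchkO w e.1 ds e.2 r F O = true
  | [], _, e, he => by simp at he
  | f :: l, h, e, he => by
    simp only [runs, Bool.and_eq_true] at h
    rcases List.mem_cons.1 he with rfl | he
    · exact h.1
    · exact runs_mem h.2 e he

/-- the runs on a list of integer polynomials -/
def checkM (w b : ℕ) (ds : List ℕ) (ks : List Bool)
    (rs : List (List (List ℕ × List (List ℕ)) × GT)) (mss : List (List Mo)) : Bool :=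
  and (Nat.ble 1 w) (and (okb ds b mss)
    (and (Nat.ble (Nat.succ (Nat.add b (sdg ds ds.length))) (Nat.pred w))
    (runs w (Nat.succ (Nat.add b (sdg ds ds.length))) ds ks
      (fun c => Nat.sub (Nat.add (pC w ds ds.length (pk w ds true (nth mss c)))
        (cO w (Nat.pow 2 (Nat.add b (sdg ds ds.length))) ds))
        (pC w ds ds.length (pk w ds false (nth mss c))))
      (cO w (Nat.pow 2 (Nat.add b (sdg ds ds.length))) ds) rs)))

theorem checkM_sound {w b : ℕ} {ds : List ℕ} {ks : List Bool}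
    {rs : List (List (List ℕ × List (List ℕ)) × GT)} {mss : List (List Mo)}
    (h : checkM w b ds ks rs mss = true) (l : List ℝ) (hl : ∀ a ∈ l, 0 ≤ a ∧ a ≤ 1) :
    ∀ q ∈ rs, okA ks q.1 = true ∧ ∃ e ∈ q.1, holds
      (fun c => PBox.evm (nth mss c) (PBox.xs l)) e.2
      (sumI (fun c => PBox.evm (nth mss c) (PBox.xs l)) e.1) := by
  simp only [checkM, Bool.and_eq_true] at h
  obtain ⟨h1, h2, h3, h4⟩ := h
  have hw : 1 ≤ w := Nat.le_of_ble_eq_true h1
  have hb : b + sdg ds ds.length + 1 ≤ w - 1 := Nat.le_of_ble_eq_true h3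
  have hx := PBox.xs_box l hl
  intro q hq
  obtain ⟨h5, h6⟩ := runs_mem h4 q hq
  refine ⟨h5, ?_⟩
  obtain ⟨c, hc, key⟩ := gchkO_sound hw q.1 ds q.2 (b + sdg ds ds.length)
    (fun c g => pC w ds ds.length (pk w ds g (nth mss c)))
    (fun c g => qCC ds ds.length (psum ds g (nth mss c)))
    (fun j => if j < ds.length then 1 - PBox.xs l j else 1) (PBox.xs l)
    (fun c g => by
      obtain ⟨h5, h6⟩ := okb_nth mss c h2
      obtain ⟨h7, h8⟩ := pack_qCC (w := w) (Bdd_mono (h6 g) _ _ (Bdd_psum ds g (nth mss c)))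
        ds.length (by omega)
      refine ⟨?_, h8⟩
      rw [h7, pack_psum w ds g _ h5]) hb
    (fun j => by
      split_ifs
      · linarith [(hx j).2]
      · norm_num) (fun j => (hx j).1) h6
  refine ⟨c, hc, ?_⟩
  have e : (fun j => if j < ds.length then
      (if j < ds.length then 1 - PBox.xs l j else 1) + PBox.xs l j
      else (if j < ds.length then 1 - PBox.xs l j else 1)) = fun _ => (1 : ℝ) := by
    funext j
    split_ifs
    · ring
    · rfl
  have e2 : ∀ c, ev ds (qCC ds ds.length (psum ds true (nth mss c)))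
      (fun j => if j < ds.length then 1 - PBox.xs l j else 1) (PBox.xs l) -
      ev ds (qCC ds ds.length (psum ds false (nth mss c)))
      (fun j => if j < ds.length then 1 - PBox.xs l j else 1) (PBox.xs l) =
      PBox.evm (nth mss c) (PBox.xs l) := fun c => by
    rw [ev_qCC, ev_qCC, e, ev_psum ds _ _ (okb_nth mss c h2).1]
  simp only [e2] at key
  exact key

/-- **the checker** -/
def checkG (w b Q : ℕ) (ds : List ℕ) (ks : List Bool)
    (rs : List (List (List ℕ × List (List ℕ)) × GT)) (es : List Ex) : Bool :=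
  cond (Nat.ble 1 Q) (checkM w b ds ks rs (sclF Q ds (cdn (normL es)) ks (normL es))) false

theorem sumI_scale {f f' : ℕ → ℝ} {Q L : ℝ} : ∀ l : List ℕ, (∀ i ∈ l, Q * f i ≤ L * f' i) →
    Q * sumI f l ≤ L * sumI f' l
  | [], _ => by simp [sumI]
  | i :: l, h => by
    have a := h i List.mem_cons_self
    have b := sumI_scale l fun j hj => h j (List.mem_cons_of_mem _ hj)
    simp only [sumI]
    linarith

/-- **soundness**: every run has, at every point of the unit box, a good alternative -/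
theorem checkG_sound {w b Q : ℕ} {ds : List ℕ} {ks : List Bool}
    {rs : List (List (List ℕ × List (List ℕ)) × GT)} {es : List Ex}
    (h : checkG w b Q ds ks rs es = true) (l : List ℝ) (hl : ∀ a ∈ l, 0 ≤ a ∧ a ≤ 1) :
    ∀ q ∈ rs, ∃ e ∈ q.1, holds (fun c => evE (PBox.xs l) (nthE es c)) e.2
      (sumI (fun c => evE (PBox.xs l) (nthE es c)) e.1) := by
  rw [checkG] at h
  cases hQb : Nat.ble 1 Q
  · rw [hQb] at h
    exact Bool.noConfusion h
  · simp only [hQb, cond] at h
    have hQ : 0 < Q := Nat.le_of_ble_eq_true hQb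
    intro q hq
    obtain ⟨h1, e, he, key⟩ := checkM_sound h l hl q hq
    refine ⟨e, he, ?_⟩
    have hx := PBox.xs_box l hl
    have hL : (0 : ℝ) < (cdn (normL es) : ℕ) := by exact_mod_cast cdn_pos es
    have hQ0 : (0 : ℝ) ≤ Q := Nat.cast_nonneg Q
    obtain ⟨k1, k2⟩ := okA_mem h1 e he
    have hb := fun i => evm_sclF hQ ds (fun i => (hx i).1) (fun i => (hx i).2)
      (cdn (normL es)) ks es i dvd_rfl
    refine holds_scale hQ0 hL (fun i => nthB ks i = false) (fun i hi => (hb i).2 hi) e.2 _ _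
      (fun g hg m hm => okI_false (okG_mem k2 g hg) m hm) ?_ key
    exact sumI_scale e.1 fun i hi => (hb i).1 (okI_true k1 i hi)

end Helper43.GBox
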