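import Pool.Agent.Helper43.MEI.FCert

/-!
# Parts of a certificate tree

`okP D gs w b Qr ds T p` checks the subtree of `T` at the path `p` only (`false` = left half); the
parts are put together by `okP_cut`, the whole check `okN` is the part at the empty path.
-/

set_option autoImplicit false

namespace Helper43.GPart

open Helper43.KBox Helper43.EBox Helper43.FBox Helper43.GBox Helper43.FCert

/-- the check of the subtree at a path -/
def gchkP (w : ℕ) (tb : List (List ℕ × List (List ℕ))) (ds : List ℕ) :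
    List Bool → GT → ℕ → (ℕ → ℕ) → ℕ → Bool
  | [], T, r, F, O => gchkO w tb ds T r F O
  | _ :: _, GT.L _ _, _, _, _ => false
  | false :: p, GT.N i a _, r, F, O =>
    and (Nat.ble (Nat.add r (Nat.mul 2 (dg ds i))) (Nat.pred w))
      (gchkP w tb ds p a (Nat.add r (Nat.mul 2 (dg ds i)))
          (fun c => rL w ds i (sg w ds i) (dg ds i) (F c)) (rL w ds i (sg w ds i) (dg ds i) O))
  | true :: p, GT.N i _ b, r, F, O =>
    and (Nat.ble (Nat.add r (Nat.mul 2 (dg ds i))) (Nat.pred w))
      (gchkP w tb ds p b (Nat.add r (Nat.mul 2 (dg ds i)))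
          (fun c => rR w ds i (sg w ds i) (dg ds i) (F c)) (rR w ds i (sg w ds i) (dg ds i) O))

theorem gchkP_cut {w : ℕ} {tb : List (List ℕ × List (List ℕ))} {ds : List ℕ} :
    ∀ (p : List Bool) (T : GT) (r : ℕ) (F : ℕ → ℕ) (O : ℕ),
    gchkP w tb ds (p ++ [false]) T r F O = true → gchkP w tb ds (p ++ [true]) T r F O = true →
    gchkP w tb ds p T r F O = true
  | [], GT.L _ _, _, _, _, h0, _ => by
    simp [gchkP] at h0
  | [], GT.N i a b, r, F, O, h0, h1 => by
    simp only [List.nil_append, gchkP, Bool.and_eq_true] at h0 h1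
    simp only [gchkP, gchkO, Bool.and_eq_true]
    exact ⟨h0.1, h0.2, h1.2⟩
  | _ :: _, GT.L _ _, _, _, _, h0, _ => by
    simp [gchkP] at h0
  | false :: p, GT.N i a b, r, F, O, h0, h1 => by
    simp only [List.cons_append, gchkP, Bool.and_eq_true] at h0 h1 ⊢
    exact ⟨h0.1, gchkP_cut p a _ _ _ h0.2 h1.2⟩
  | true :: p, GT.N i a b, r, F, O, h0, h1 => by
    simp only [List.cons_append, gchkP, Bool.and_eq_true] at h0 h1 ⊢
    exact ⟨h0.1, gchkP_cut p b _ _ _ h0.2 h1.2⟩

/-- one run, part of the tree -/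
def checkMp (w b : ℕ) (ds : List ℕ) (ks : List Bool) (tb : List (List ℕ × List (List ℕ)))
    (T : GT) (p : List Bool) (mss : List (List Mo)) : Bool :=
  and (Nat.ble 1 w) (and (okb ds b mss)
    (and (Nat.ble (Nat.succ (Nat.add b (sdg ds ds.length))) (Nat.pred w))
    (and (okA ks tb) (gchkP w tb ds p T (Nat.succ (Nat.add b (sdg ds ds.length)))
      (fun c => Nat.sub (Nat.add (pC w ds ds.length (pk w ds true (nth mss c)))
        (cO w (Nat.pow 2 (Nat.add b (sdg ds ds.length))) ds))
        (pC w ds ds.length (pk w ds false (nth mss c))))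
      (cO w (Nat.pow 2 (Nat.add b (sdg ds ds.length))) ds)))))

theorem checkMp_cut {w b : ℕ} {ds : List ℕ} {ks : List Bool}
    {tb : List (List ℕ × List (List ℕ))} {T : GT} {p : List Bool} {mss : List (List Mo)}
    (h0 : checkMp w b ds ks tb T (p ++ [false]) mss = true)
    (h1 : checkMp w b ds ks tb T (p ++ [true]) mss = true) :
    checkMp w b ds ks tb T p mss = true := by
  simp only [checkMp, Bool.and_eq_true] at h0 h1 ⊢
  exact ⟨h0.1, h0.2.1, h0.2.2.1, h0.2.2.2.1, gchkP_cut p T _ _ _ h0.2.2.2.2 h1.2.2.2.2⟩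

theorem checkMp_nil {w b : ℕ} {ds : List ℕ} {ks : List Bool}
    {tb : List (List ℕ × List (List ℕ))} {T : GT} {mss : List (List Mo)}
    (h : checkMp w b ds ks tb T [] mss = true) :
    checkM w b ds ks ((tb, T) :: []) mss = true := by
  simp only [checkMp, gchkP, Bool.and_eq_true] at h
  simp only [checkM, runs, Bool.and_eq_true, and_true]
  exact ⟨h.1, h.2.1, h.2.2.1, h.2.2.2.1, h.2.2.2.2⟩

/-- **the kernel check of a part of the tree** -/
def okP (D : FD) (gs : List GD) (w b Qr : ℕ) (ds : List ℕ) (T : GT) (p : List Bool) : Bool :=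
  cond (Nat.ble 1 Qr) (checkMp w b ds (ksN D gs) (tbN D gs) T p
    (sclF Qr ds (cdn (normL (esN D gs))) (ksN D gs) (normL (esN D gs)))) false

theorem okP_cut {D : FD} {gs : List GD} {w b Qr : ℕ} {ds : List ℕ} {T : GT} {p : List Bool}
    (h0 : okP D gs w b Qr ds T (p ++ [false]) = true)
    (h1 : okP D gs w b Qr ds T (p ++ [true]) = true) : okP D gs w b Qr ds T p = true := by
  unfold okP at h0 h1 ⊢
  cases hQ : Nat.ble 1 Qr
  · rw [hQ] at h0
    exact Bool.noConfusion h0
  · rw [hQ] at h0 h1
    exact checkMp_cut h0 h1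

theorem okN_of {D : FD} {gs : List GD} {w b Qr : ℕ} {ds : List ℕ} {T : GT}
    (h : okP D gs w b Qr ds T [] = true) : okN D gs w b Qr ds T = true := by
  unfold okP at h
  unfold okN checkG
  cases hQ : Nat.ble 1 Qr
  · rw [hQ] at h
    exact Bool.noConfusion h
  · rw [hQ] at h
    exact checkMp_nil h

/-- several parts of the tree -/
def okPs (D : FD) (gs : List GD) (w b Qr : ℕ) (ds : List ℕ) (T : GT) : List (List Bool) → Bool
  | [] => true
  | p :: ps => and (okP D gs w b Qr ds T p) (okPs D gs w b Qr ds T ps)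

theorem okPs_hd {D : FD} {gs : List GD} {w b Qr : ℕ} {ds : List ℕ} {T : GT} {p : List Bool}
    {ps : List (List Bool)} (h : okPs D gs w b Qr ds T (p :: ps) = true) :
    okP D gs w b Qr ds T p = true := by
  simp only [okPs, Bool.and_eq_true] at h
  exact h.1

theorem okPs_tl {D : FD} {gs : List GD} {w b Qr : ℕ} {ds : List ℕ} {T : GT} {p : List Bool}
    {ps : List (List Bool)} (h : okPs D gs w b Qr ds T (p :: ps) = true) :
    okPs D gs w b Qr ds T ps = true := by
  simp only [okPs, Bool.and_eq_true] at h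
  exact h.2

/-- leaf: the inequality, entry by entry -/
def yz : GT := GT.L 0 [[0, 1, 2, 3, 4, 5]]

end Helper43.GPart
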