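import Pool.Agent.Helper43.MEI.PBox

/-!
# A fast verified checker for polynomial inequalities on the unit box

The coefficients of a polynomial in homogeneous form are packed into one natural number
(base `2 ^ w`), the positive and the negative part separately. Halving the box in one variable
is a sequence of operations `A ↦ A + U + shift U`, `U = A &&& mask`, on the packed numbers.
-/

set_option autoImplicit false

namespace Helper43.KBox

/-! ### digits -/

/-- `∑ k < n, f k * 2 ^ (q * k)` -/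
def bsum (q : ℕ) (f : ℕ → ℕ) : ℕ → ℕ
  | 0 => 0
  | n + 1 => Nat.add (bsum q f n) (Nat.shiftLeft (f n) (Nat.mul q n))

theorem bsum_zero (q : ℕ) (f : ℕ → ℕ) : bsum q f 0 = 0 := rfl

theorem bsum_succ (q : ℕ) (f : ℕ → ℕ) (n : ℕ) :
    bsum q f (n + 1) = bsum q f n + f n * 2 ^ (q * n) := by
  show bsum q f n + (f n) <<< (q * n) = _
  rw [Nat.shiftLeft_eq]

theorem bsum_congr (q : ℕ) (f g : ℕ → ℕ) : ∀ n : ℕ, (∀ k < n, f k = g k) →
    bsum q f n = bsum q g n
  | 0, _ => rfl
  | n + 1, h => by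
    rw [bsum_succ, bsum_succ, bsum_congr q f g n (fun k hk => h k (by omega)), h n (by omega)]

theorem bsum_add (q : ℕ) (f g : ℕ → ℕ) : ∀ n : ℕ,
    bsum q (fun k => f k + g k) n = bsum q f n + bsum q g n
  | 0 => rfl
  | n + 1 => by
    rw [bsum_succ, bsum_succ, bsum_succ, bsum_add q f g n]
    ring

theorem bsum_mul (q c : ℕ) (f : ℕ → ℕ) : ∀ n : ℕ,
    bsum q (fun k => c * f k) n = c * bsum q f n
  | 0 => rfl
  | n + 1 => by
    rw [bsum_succ, bsum_succ, bsum_mul q c f n]
    ring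

theorem bsum_succ' (q : ℕ) (f : ℕ → ℕ) : ∀ n : ℕ,
    bsum q f (n + 1) = f 0 + 2 ^ q * bsum q (fun k => f (k + 1)) n
  | 0 => by simp [bsum_succ, bsum_zero]
  | n + 1 => by
    rw [bsum_succ, bsum_succ' q f n, bsum_succ, Nat.mul_succ, pow_add]
    ring

theorem bsum_lt (q : ℕ) (f : ℕ → ℕ) : ∀ n : ℕ, (∀ k < n, f k < 2 ^ q) →
    bsum q f n < 2 ^ (q * n)
  | 0, _ => by simp [bsum_zero]
  | n + 1, h => by
    rw [bsum_succ, Nat.mul_succ, pow_add]
    have h1 := bsum_lt q f n (fun k hk => h k (by omega))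
    have h2 : f n + 1 ≤ 2 ^ q := h n (by omega)
    calc bsum q f n + f n * 2 ^ (q * n) < 2 ^ (q * n) + f n * 2 ^ (q * n) := by omega
      _ = (f n + 1) * 2 ^ (q * n) := by ring
      _ ≤ 2 ^ q * 2 ^ (q * n) := Nat.mul_le_mul_right _ h2
      _ = _ := by ring

theorem land_split {m a b : ℕ} (x y : ℕ) (ha : a < 2 ^ m) (hb : b < 2 ^ m) :
    (a + x * 2 ^ m) &&& (b + y * 2 ^ m) = (a &&& b) + (x &&& y) * 2 ^ m := by
  have hab : a &&& b < 2 ^ m := Nat.and_lt_two_pow a hb
  apply Nat.eq_of_testBit_eq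
  intro i
  have e1 : a + x * 2 ^ m = 2 ^ m * x + a := by ring
  have e2 : b + y * 2 ^ m = 2 ^ m * y + b := by ring
  have e3 : (a &&& b) + (x &&& y) * 2 ^ m = 2 ^ m * (x &&& y) + (a &&& b) := by ring
  rw [e1, e2, e3, Nat.testBit_and, Nat.testBit_two_pow_mul_add _ ha,
    Nat.testBit_two_pow_mul_add _ hb, Nat.testBit_two_pow_mul_add _ hab]
  by_cases h : i < m
  · simp only [h, if_true, Nat.testBit_and]
  · simp only [h, if_false, Nat.testBit_and]

theorem bsum_land (q : ℕ) (f g : ℕ → ℕ) : ∀ n : ℕ, (∀ k < n, f k < 2 ^ q) →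
    (∀ k < n, g k < 2 ^ q) →
    bsum q f n &&& bsum q g n = bsum q (fun k => f k &&& g k) n
  | 0, _, _ => by simp [bsum_zero]
  | n + 1, hf, hg => by
    rw [bsum_succ, bsum_succ, bsum_succ,
      land_split _ _ (bsum_lt q f n (fun k hk => hf k (by omega)))
        (bsum_lt q g n (fun k hk => hg k (by omega))),
      bsum_land q f g n (fun k hk => hf k (by omega)) (fun k hk => hg k (by omega))]

/-- shift down -/
theorem bsum_down (q : ℕ) (f : ℕ → ℕ) (d : ℕ) (h0 : f 0 = 0) :
    bsum q f (d + 1) = 2 ^ q * bsum q (fun k => if k + 1 ≤ d then f (k + 1) else 0) (d + 1) := by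
  rw [bsum_succ', h0, zero_add, bsum_succ]
  have : bsum q (fun k => if k + 1 ≤ d then f (k + 1) else 0) d =
      bsum q (fun k => f (k + 1)) d := by
    apply bsum_congr
    intro k hk
    rw [if_pos (by omega)]
  rw [this, if_neg (by omega)]
  simp

/-- shift up -/
theorem bsum_up (q : ℕ) (f : ℕ → ℕ) (d : ℕ) (h0 : f d = 0) :
    bsum q (fun k => if 1 ≤ k then f (k - 1) else 0) (d + 1) = 2 ^ q * bsum q f (d + 1) := by
  rw [bsum_succ', if_neg (by omega), zero_add, bsum_succ, h0, zero_mul, add_zero]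
  simp

/-! ### packed polynomials -/

/-- number of coefficients -/
def nl : List ℕ → ℕ
  | [] => 1
  | d :: ds => Nat.mul (Nat.succ d) (nl ds)

/-- the digits of the entries whose index in the variable `i` satisfies `J` -/
def mask (w : ℕ) (J : ℕ → Bool) : List ℕ → ℕ → ℕ
  | [], _ => 0
  | d :: ds, 0 => bsum (Nat.mul w (nl ds))
      (fun k => cond (J k) (Nat.pred (Nat.pow 2 (Nat.mul w (nl ds)))) 0) (Nat.succ d)
  | d :: ds, i + 1 => bsum (Nat.mul w (nl ds)) (fun _ => mask w J ds i) (Nat.succ d)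

/-- the top bits of all digits -/
def mH (w : ℕ) : List ℕ → ℕ
  | [] => Nat.pow 2 (Nat.pred w)
  | d :: ds => bsum (Nat.mul w (nl ds)) (fun _ => mH w ds) (Nat.succ d)

/-- distance of neighbours in the variable `i` -/
def sg (w : ℕ) : List ℕ → ℕ → ℕ
  | [], _ => 0
  | _ :: ds, 0 => Nat.mul w (nl ds)
  | _ :: ds, i + 1 => sg w ds i

/-- degree in the variable `i` -/
def dg : List ℕ → ℕ → ℕ
  | [], _ => 0
  | d :: _, 0 => d
  | _ :: ds, i + 1 => dg ds i

/-- coefficient arrays (only used in proofs) -/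
@[reducible] def Pol : List ℕ → Type
  | [] => ℕ
  | _ :: ds => ℕ → Pol ds

def pack (w : ℕ) : (ds : List ℕ) → Pol ds → ℕ
  | [], c => c
  | d :: ds, c => bsum (w * nl ds) (fun k => pack w ds (c k)) (d + 1)

noncomputable def ev : (ds : List ℕ) → Pol ds → (ℕ → ℝ) → (ℕ → ℝ) → ℝ
  | [], c, _, _ => Nat.cast (R := ℝ) (id c : ℕ)
  | d :: ds, c, s, t => ∑ k ∈ Finset.range (d + 1),
      ev ds (c k) (fun j => s (j + 1)) (fun j => t (j + 1)) * (s 0 ^ (d - k) * t 0 ^ k)

def Bdd (B : ℕ) : (ds : List ℕ) → Pol ds → Prop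
  | [], c => Nat.lt (id c : ℕ) B
  | d :: ds, c => ∀ k ≤ d, Bdd B ds (c k)

def pzero : (ds : List ℕ) → Pol ds
  | [] => (0 : ℕ)
  | _ :: ds => fun _ => pzero ds

def padd : (ds : List ℕ) → Pol ds → Pol ds → Pol ds
  | [], a, b => Nat.add a b
  | _ :: ds, a, b => fun k => padd ds (a k) (b k)

/-- keep the entries with index in `J` -/
def pmsk (J : ℕ → Bool) : (ds : List ℕ) → ℕ → Pol ds → Pol ds
  | [], _, _ => (0 : ℕ)
  | _ :: ds, 0, c => fun k => if J k then c k else pzero ds
  | _ :: ds, i + 1, c => fun k => pmsk J ds i (c k)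

def pdn : (ds : List ℕ) → ℕ → Pol ds → Pol ds
  | [], _, _ => (0 : ℕ)
  | d :: ds, 0, c => fun k => if k + 1 ≤ d then c (k + 1) else pzero ds
  | _ :: ds, i + 1, c => fun k => pdn ds i (c k)

def pup : (ds : List ℕ) → ℕ → Pol ds → Pol ds
  | [], _, _ => (0 : ℕ)
  | _ :: ds, 0, c => fun k => if 1 ≤ k then c (k - 1) else pzero ds
  | _ :: ds, i + 1, c => fun k => pup ds i (c k)

theorem pack_zero (w : ℕ) : ∀ ds : List ℕ, pack w ds (pzero ds) = 0
  | [] => rfl
  | d :: ds => by
    simp only [pack, pzero, pack_zero w ds]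
    have := bsum_mul (w * nl ds) 0 (fun _ => 0) (d + 1)
    simpa using this

theorem pack_add (w : ℕ) : ∀ (ds : List ℕ) (a b : Pol ds),
    pack w ds (padd ds a b) = pack w ds a + pack w ds b
  | [], _, _ => rfl
  | d :: ds, a, b => by
    simp only [pack, padd, pack_add w ds]
    exact bsum_add _ _ _ _

theorem pack_lt (w : ℕ) : ∀ (ds : List ℕ) (c : Pol ds), Bdd (2 ^ w) ds c →
    pack w ds c < 2 ^ (w * nl ds)
  | [], c, h => by simpa [pack, nl, Bdd] using h
  | d :: ds, c, h => by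
    have := bsum_lt (w * nl ds) (fun k => pack w ds (c k)) (d + 1)
      (fun k hk => pack_lt w ds (c k) (h k (by omega)))
    have e : w * nl (d :: ds) = w * nl ds * (d + 1) := by
      show w * ((d + 1) * nl ds) = _
      ring
    rw [e]
    exact this

theorem mask_lt (w : ℕ) (J : ℕ → Bool) : ∀ (ds : List ℕ) (i : ℕ),
    mask w J ds i < 2 ^ (w * nl ds)
  | [], i => by simp [mask]
  | d :: ds, 0 => by
    have := bsum_lt (w * nl ds)
      (fun k => cond (J k) (Nat.pred (Nat.pow 2 (Nat.mul w (nl ds)))) 0) (d + 1)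
      (fun k _ => by
        have h : 0 < 2 ^ (w * nl ds) := by positivity
        cases J k
        · exact h
        · exact Nat.pred_lt (Nat.pos_iff_ne_zero.mp h))
    have e : w * nl (d :: ds) = w * nl ds * (d + 1) := by
      show w * ((d + 1) * nl ds) = _
      ring
    rw [e]
    exact this
  | d :: ds, i + 1 => by
    have := bsum_lt (w * nl ds) (fun _ => mask w J ds i) (d + 1)
      (fun k _ => mask_lt w J ds i)
    have e : w * nl (d :: ds) = w * nl ds * (d + 1) := by
      show w * ((d + 1) * nl ds) = _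
      ring
    rw [e]
    exact this

theorem pack_msk (w : ℕ) (J : ℕ → Bool) : ∀ (ds : List ℕ) (i : ℕ) (c : Pol ds),
    Bdd (2 ^ w) ds c → pack w ds c &&& mask w J ds i = pack w ds (pmsk J ds i c)
  | [], i, c, h => by simp [pack, mask, pmsk]
  | d :: ds, 0, c, h => by
    have h1 : ∀ k < d + 1, pack w ds (c k) < 2 ^ (w * nl ds) := fun k hk =>
      pack_lt w ds (c k) (h k (by omega))
    have h2 : ∀ k < d + 1, (fun k => cond (J k)
        (Nat.pred (Nat.pow 2 (Nat.mul w (nl ds)))) 0) k < 2 ^ (w * nl ds) := by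
      intro k _
      have h : 0 < 2 ^ (w * nl ds) := by positivity
      show cond (J k) (Nat.pred (Nat.pow 2 (Nat.mul w (nl ds)))) 0 < _
      cases J k
      · exact h
      · exact Nat.pred_lt (Nat.pos_iff_ne_zero.mp h)
    show bsum (w * nl ds) _ (d + 1) &&& bsum (w * nl ds) _ (d + 1) = bsum (w * nl ds) _ (d + 1)
    rw [bsum_land _ _ _ _ h1 h2]
    apply bsum_congr
    intro k hk
    have hk1 := h1 k hk
    simp only [pmsk]
    cases J k
    · simp [pack_zero]
    · show pack w ds (c k) &&& (2 ^ (w * nl ds) - 1) = _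
      rw [Nat.and_two_pow_sub_one_eq_mod, Nat.mod_eq_of_lt hk1]
      simp
  | d :: ds, i + 1, c, h => by
    have h1 : ∀ k < d + 1, pack w ds (c k) < 2 ^ (w * nl ds) := fun k hk =>
      pack_lt w ds (c k) (h k (by omega))
    show bsum (w * nl ds) _ (d + 1) &&& bsum (w * nl ds) _ (d + 1) = bsum (w * nl ds) _ (d + 1)
    rw [bsum_land _ _ _ _ h1 (fun k _ => mask_lt w J ds i)]
    apply bsum_congr
    intro k hk
    exact pack_msk w J ds i (c k) (h k (by omega))

theorem pack_dn (w : ℕ) (J : ℕ → Bool) (hJ : J 0 = false) : ∀ (ds : List ℕ) (i : ℕ) (c : Pol ds),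
    pack w ds (pmsk J ds i c) = 2 ^ sg w ds i * pack w ds (pdn ds i (pmsk J ds i c))
  | [], i, c => by simp [pack, pmsk, pdn]
  | d :: ds, 0, c => by
    show bsum (w * nl ds) _ (d + 1) = 2 ^ (w * nl ds) * bsum (w * nl ds) _ (d + 1)
    rw [bsum_down _ _ d (by simp [pmsk, hJ, pack_zero])]
    congr 1
    apply bsum_congr
    intro k hk
    simp only [pdn]
    split_ifs with h
    · rfl
    · rw [pack_zero]
  | d :: ds, i + 1, c => by
    show bsum (w * nl ds) _ (d + 1) = 2 ^ sg w ds i * bsum (w * nl ds) _ (d + 1)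
    rw [← bsum_mul]
    apply bsum_congr
    intro k hk
    exact pack_dn w J hJ ds i (c k)

theorem pack_up (w : ℕ) (J : ℕ → Bool) : ∀ (ds : List ℕ) (i : ℕ) (c : Pol ds),
    J (dg ds i) = false →
    pack w ds (pup ds i (pmsk J ds i c)) = 2 ^ sg w ds i * pack w ds (pmsk J ds i c)
  | [], i, c, _ => by simp [pack, pmsk, pup]
  | d :: ds, 0, c, hJ => by
    show bsum (w * nl ds) _ (d + 1) = 2 ^ (w * nl ds) * bsum (w * nl ds) _ (d + 1)
    have hJ' : J d = false := hJ
    rw [← bsum_up _ _ d (by simp [pmsk, hJ', pack_zero])]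
    apply bsum_congr
    intro k hk
    simp only [pup]
    split_ifs with h
    · rfl
    · rw [pack_zero]
  | d :: ds, i + 1, c, hJ => by
    show bsum (w * nl ds) _ (d + 1) = 2 ^ sg w ds i * bsum (w * nl ds) _ (d + 1)
    rw [← bsum_mul]
    apply bsum_congr
    intro k hk
    exact pack_up w J ds i (c k) hJ

/-! ### bounds -/

theorem Bdd_zero {B : ℕ} (hB : 0 < B) : ∀ ds : List ℕ, Bdd B ds (pzero ds)
  | [] => hB
  | _ :: ds => fun _ _ => Bdd_zero hB ds

theorem Bdd_add {A B : ℕ} : ∀ (ds : List ℕ) (a b : Pol ds), Bdd A ds a → Bdd B ds b →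
    Bdd (A + B) ds (padd ds a b)
  | [], _, _, ha, hb => Nat.add_lt_add ha hb
  | _ :: ds, a, b, ha, hb => fun k hk => Bdd_add ds (a k) (b k) (ha k hk) (hb k hk)

theorem Bdd_mono {A B : ℕ} (h : A ≤ B) : ∀ (ds : List ℕ) (a : Pol ds), Bdd A ds a → Bdd B ds a
  | [], _, ha => Nat.lt_of_lt_of_le ha h
  | _ :: ds, a, ha => fun k hk => Bdd_mono h ds (a k) (ha k hk)

theorem Bdd_msk {B : ℕ} (hB : 0 < B) (J : ℕ → Bool) : ∀ (ds : List ℕ) (i : ℕ) (c : Pol ds),
    Bdd B ds c → Bdd B ds (pmsk J ds i c)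
  | [], _, _, _ => hB
  | _ :: ds, 0, c, h => fun k hk => by
    simp only [pmsk]
    split_ifs
    · exact h k hk
    · exact Bdd_zero hB ds
  | _ :: ds, i + 1, c, h => fun k hk => Bdd_msk hB J ds i (c k) (h k hk)

theorem Bdd_dn {B : ℕ} (hB : 0 < B) : ∀ (ds : List ℕ) (i : ℕ) (c : Pol ds),
    Bdd B ds c → Bdd B ds (pdn ds i c)
  | [], _, _, _ => hB
  | _ :: ds, 0, c, h => fun k hk => by
    simp only [pdn]
    split_ifs with h1
    · exact h (k + 1) h1
    · exact Bdd_zero hB ds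
  | _ :: ds, i + 1, c, h => fun k hk => Bdd_dn hB ds i (c k) (h k hk)

theorem Bdd_up {B : ℕ} (hB : 0 < B) : ∀ (ds : List ℕ) (i : ℕ) (c : Pol ds),
    Bdd B ds c → Bdd B ds (pup ds i c)
  | [], _, _, _ => hB
  | _ :: ds, 0, c, h => fun k hk => by
    simp only [pup]
    split_ifs with h1
    · exact h (k - 1) (by omega)
    · exact Bdd_zero hB ds
  | _ :: ds, i + 1, c, h => fun k hk => Bdd_up hB ds i (c k) (h k hk)

/-! ### the steps -/

def ge (j k : ℕ) : Bool := Nat.ble j k

def lt (m k : ℕ) : Bool := Nat.ble (Nat.succ k) m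

def oR (q A U : ℕ) : ℕ := Nat.add (Nat.add A U) (Nat.shiftRight U q)

def oL (q A U : ℕ) : ℕ := Nat.add (Nat.add A U) (Nat.shiftLeft U q)

def oC (q A U : ℕ) : ℕ := Nat.add A (Nat.shiftLeft U q)

def stR (ds : List ℕ) (i j : ℕ) (c : Pol ds) : Pol ds :=
  padd ds (padd ds c (pmsk (ge j) ds i c)) (pdn ds i (pmsk (ge j) ds i c))

def stL (ds : List ℕ) (i m : ℕ) (c : Pol ds) : Pol ds :=
  padd ds (padd ds c (pmsk (lt m) ds i c)) (pup ds i (pmsk (lt m) ds i c))

def stC (ds : List ℕ) (i m : ℕ) (c : Pol ds) : Pol ds :=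
  padd ds c (pup ds i (pmsk (lt m) ds i c))

theorem pack_stR {w : ℕ} {ds : List ℕ} (i : ℕ) {j : ℕ} (hj : 1 ≤ j) {c : Pol ds}
    (h : Bdd (2 ^ w) ds c) : pack w ds (stR ds i j c) =
      oR (sg w ds i) (pack w ds c) (Nat.land (pack w ds c) (mask w (ge j) ds i)) := by
  have hJ : ge j 0 = false := by
    simp only [ge]
    cases j with
    | zero => omega
    | succ j => rfl
  have e1 : Nat.land (pack w ds c) (mask w (ge j) ds i) = pack w ds (pmsk (ge j) ds i c) :=
    pack_msk w _ ds i c h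
  have e2 := pack_dn w (ge j) hJ ds i c
  rw [e1, stR, pack_add, pack_add]
  show _ = pack w ds c + pack w ds (pmsk (ge j) ds i c) +
    pack w ds (pmsk (ge j) ds i c) >>> sg w ds i
  rw [Nat.shiftRight_eq_div_pow, Nat.div_eq_of_eq_mul_right (by positivity) e2]

theorem pack_stL {w : ℕ} {ds : List ℕ} (i : ℕ) {m : ℕ} (hm : m ≤ dg ds i) {c : Pol ds}
    (h : Bdd (2 ^ w) ds c) : pack w ds (stL ds i m c) =
      oL (sg w ds i) (pack w ds c) (Nat.land (pack w ds c) (mask w (lt m) ds i)) := by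
  have hJ : lt m (dg ds i) = false := by
    simp only [lt]
    rw [Bool.eq_false_iff]
    intro h
    have := Nat.le_of_ble_eq_true h
    omega
  have e1 : Nat.land (pack w ds c) (mask w (lt m) ds i) = pack w ds (pmsk (lt m) ds i c) :=
    pack_msk w _ ds i c h
  have e2 := pack_up w (lt m) ds i c hJ
  rw [e1, stL, pack_add, pack_add, e2]
  show _ = pack w ds c + pack w ds (pmsk (lt m) ds i c) +
    pack w ds (pmsk (lt m) ds i c) <<< sg w ds i
  rw [Nat.shiftLeft_eq]
  ring

theorem pack_stC {w : ℕ} {ds : List ℕ} (i : ℕ) {m : ℕ} (hm : m ≤ dg ds i) {c : Pol ds}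
    (h : Bdd (2 ^ w) ds c) : pack w ds (stC ds i m c) =
      oC (sg w ds i) (pack w ds c) (Nat.land (pack w ds c) (mask w (lt m) ds i)) := by
  have hJ : lt m (dg ds i) = false := by
    simp only [lt]
    rw [Bool.eq_false_iff]
    intro h
    have := Nat.le_of_ble_eq_true h
    omega
  have e1 : Nat.land (pack w ds c) (mask w (lt m) ds i) = pack w ds (pmsk (lt m) ds i c) :=
    pack_msk w _ ds i c h
  have e2 := pack_up w (lt m) ds i c hJ
  rw [e1, stC, pack_add, e2]
  show _ = pack w ds c + pack w ds (pmsk (lt m) ds i c) <<< sg w ds i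
  rw [Nat.shiftLeft_eq]
  ring

theorem Bdd_stR {b : ℕ} {ds : List ℕ} (i j : ℕ) {c : Pol ds} (h : Bdd (2 ^ b) ds c) :
    Bdd (2 ^ (b + 2)) ds (stR ds i j c) := by
  have hB : 0 < 2 ^ b := by positivity
  have h1 := Bdd_msk hB (ge j) ds i c h
  refine Bdd_mono ?_ ds _ (Bdd_add ds _ _ (Bdd_add ds _ _ h h1) (Bdd_dn hB ds i _ h1))
  rw [pow_add]
  omega

theorem Bdd_stL {b : ℕ} {ds : List ℕ} (i j : ℕ) {c : Pol ds} (h : Bdd (2 ^ b) ds c) :
    Bdd (2 ^ (b + 2)) ds (stL ds i j c) := by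
  have hB : 0 < 2 ^ b := by positivity
  have h1 := Bdd_msk hB (lt j) ds i c h
  refine Bdd_mono ?_ ds _ (Bdd_add ds _ _ (Bdd_add ds _ _ h h1) (Bdd_up hB ds i _ h1))
  rw [pow_add]
  omega

theorem Bdd_stC {b : ℕ} {ds : List ℕ} (i j : ℕ) {c : Pol ds} (h : Bdd (2 ^ b) ds c) :
    Bdd (2 ^ (b + 1)) ds (stC ds i j c) := by
  have hB : 0 < 2 ^ b := by positivity
  have h1 := Bdd_msk hB (lt j) ds i c h
  refine Bdd_mono ?_ ds _ (Bdd_add ds _ _ h (Bdd_up hB ds i _ h1))
  rw [pow_add]
  omega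

/-- the steps `n, n - 1, …, 1` -/
def rR (w : ℕ) (ds : List ℕ) (i q n : ℕ) : ℕ → ℕ :=
  Nat.rec (motive := fun _ => ℕ → ℕ) (fun A => A)
    (fun j ih A => ih (oR q A (Nat.land A (mask w (ge (Nat.succ j)) ds i)))) n

/-- the steps `1, …, n` -/
def rL (w : ℕ) (ds : List ℕ) (i q n A : ℕ) : ℕ :=
  Nat.rec (motive := fun _ => ℕ) A
    (fun j ih => oL q ih (Nat.land ih (mask w (lt (Nat.succ j)) ds i))) n

def rC (w : ℕ) (ds : List ℕ) (i q n A : ℕ) : ℕ :=
  Nat.rec (motive := fun _ => ℕ) A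
    (fun j ih => oC q ih (Nat.land ih (mask w (lt (Nat.succ j)) ds i))) n

def qR (ds : List ℕ) (i : ℕ) : ℕ → Pol ds → Pol ds
  | 0, c => c
  | j + 1, c => qR ds i j (stR ds i (j + 1) c)

def qL (ds : List ℕ) (i : ℕ) : ℕ → Pol ds → Pol ds
  | 0, c => c
  | j + 1, c => stL ds i (j + 1) (qL ds i j c)

def qC (ds : List ℕ) (i : ℕ) : ℕ → Pol ds → Pol ds
  | 0, c => c
  | j + 1, c => stC ds i (j + 1) (qC ds i j c)

theorem pack_qR {w : ℕ} {ds : List ℕ} (i : ℕ) : ∀ (n b : ℕ) (c : Pol ds), Bdd (2 ^ b) ds c →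
    b + 2 * n ≤ w → pack w ds (qR ds i n c) = rR w ds i (sg w ds i) n (pack w ds c) ∧
      Bdd (2 ^ (b + 2 * n)) ds (qR ds i n c)
  | 0, b, c, h, _ => ⟨rfl, h⟩
  | n + 1, b, c, h, hb => by
    have h1 := Bdd_stR i (n + 1) h
    obtain ⟨h2, h3⟩ := pack_qR (w := w) i n (b + 2) _ h1 (by omega)
    have hw : b ≤ w := by omega
    have h4 : Bdd (2 ^ w) ds c := Bdd_mono (Nat.pow_le_pow_right (by norm_num) hw) _ _ h
    refine ⟨?_, ?_⟩
    · show pack w ds (qR ds i n (stR ds i (n + 1) c)) = _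
      rw [h2, pack_stR i (Nat.succ_pos n) h4]
      rfl
    · show Bdd _ ds (qR ds i n (stR ds i (n + 1) c))
      rwa [show b + 2 * (n + 1) = b + 2 + 2 * n by ring]

theorem pack_qL {w : ℕ} {ds : List ℕ} (i : ℕ) {b : ℕ} {c : Pol ds} (h : Bdd (2 ^ b) ds c) :
    ∀ n : ℕ, n ≤ dg ds i →
    b + 2 * n ≤ w → pack w ds (qL ds i n c) = rL w ds i (sg w ds i) n (pack w ds c) ∧
      Bdd (2 ^ (b + 2 * n)) ds (qL ds i n c)
  | 0, _, _ => ⟨rfl, h⟩
  | n + 1, hn, hb => by
    obtain ⟨h2, h3⟩ := pack_qL (w := w) i h n (by omega) (by omega)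
    have h1 := Bdd_stL i (n + 1) h3
    have hw : b + 2 * n ≤ w := by omega
    have h4 : Bdd (2 ^ w) ds (qL ds i n c) :=
      Bdd_mono (Nat.pow_le_pow_right (by norm_num) hw) _ _ h3
    refine ⟨?_, ?_⟩
    · show pack w ds (stL ds i (n + 1) (qL ds i n c)) = _
      rw [pack_stL i hn h4, h2]
      rfl
    · show Bdd _ ds (stL ds i (n + 1) (qL ds i n c))
      rwa [show b + 2 * (n + 1) = b + 2 * n + 2 by ring]

theorem pack_qC {w : ℕ} {ds : List ℕ} (i : ℕ) {b : ℕ} {c : Pol ds} (h : Bdd (2 ^ b) ds c) :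
    ∀ n : ℕ, n ≤ dg ds i →
    b + n ≤ w → pack w ds (qC ds i n c) = rC w ds i (sg w ds i) n (pack w ds c) ∧
      Bdd (2 ^ (b + n)) ds (qC ds i n c)
  | 0, _, _ => ⟨rfl, h⟩
  | n + 1, hn, hb => by
    obtain ⟨h2, h3⟩ := pack_qC (w := w) i h n (by omega) (by omega)
    have h1 := Bdd_stC i (n + 1) h3
    have hw : b + n ≤ w := by omega
    have h4 : Bdd (2 ^ w) ds (qC ds i n c) :=
      Bdd_mono (Nat.pow_le_pow_right (by norm_num) hw) _ _ h3
    refine ⟨?_, ?_⟩
    · show pack w ds (stC ds i (n + 1) (qC ds i n c)) = _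
      rw [pack_stC i hn h4, h2]
      rfl
    · show Bdd _ ds (stC ds i (n + 1) (qC ds i n c))
      rwa [show b + (n + 1) = b + n + 1 by ring]

/-! ### the steps on values -/

theorem ev_zero : ∀ (ds : List ℕ) (s t : ℕ → ℝ), ev ds (pzero ds) s t = 0
  | [], _, _ => by simp [ev, pzero]
  | d :: ds, s, t => by simp [ev, pzero, ev_zero ds]

theorem ev_add : ∀ (ds : List ℕ) (a b : Pol ds) (s t : ℕ → ℝ),
    ev ds (padd ds a b) s t = ev ds a s t + ev ds b s t
  | [], a, b, _, _ => by
    show ((a + b : ℕ) : ℝ) = (a : ℝ) + (b : ℝ)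
    push_cast
    rfl
  | d :: ds, a, b, s, t => by
    simp only [ev, padd, ev_add ds, add_mul, Finset.sum_add_distrib]

def SR (d j : ℕ) (a : ℕ → ℝ) : ℕ → ℝ := fun k =>
  a k + (if j ≤ k then a k else 0) + (if k + 1 ≤ d then (if j ≤ k + 1 then a (k + 1) else 0) else 0)

def QR (d : ℕ) : ℕ → (ℕ → ℝ) → ℕ → ℝ
  | 0, a => a
  | j + 1, a => QR d j (SR d (j + 1) a)

def SL (β : ℝ) (m : ℕ) (a : ℕ → ℝ) : ℕ → ℝ := fun k =>
  a k + (if k < m then (β - 1) * a k else 0) + (if 1 ≤ k then (if k - 1 < m then a (k - 1) else 0)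
    else 0)

def QL (β : ℝ) : ℕ → (ℕ → ℝ) → ℕ → ℝ
  | 0, a => a
  | j + 1, a => SL β (j + 1) (QL β j a)

theorem univ_R (s t : ℝ) (d : ℕ) : ∀ (m : ℕ) (a b : ℕ → ℝ), m ≤ d → (∀ k < m, b k = a k) →
    (∑ k ∈ Finset.range (d - m + 1), b (m + k) * (s ^ (d - m - k) * t ^ k) =
      ∑ k ∈ Finset.range (d - m + 1), a (m + k) * (s ^ (d - m - k) * (s + 2 * t) ^ k)) →
    ∑ k ∈ Finset.range (d + 1), QR d m b k * (s ^ (d - k) * t ^ k) =
      ∑ k ∈ Finset.range (d + 1), a k * (s ^ (d - k) * (s + 2 * t) ^ k)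
  | 0, a, b, _, _, h => by simpa [QR] using h
  | m + 1, a, b, hm, hk, h => by
    obtain ⟨n, rfl⟩ : ∃ n, d = m + 1 + n := ⟨d - (m + 1), by omega⟩
    apply univ_R s t (m + 1 + n) m a (SR (m + 1 + n) (m + 1) b) (by omega)
    · intro k hk1
      simp only [SR]
      rw [if_neg (by omega), if_pos (by omega), if_neg (by omega), hk k (by omega)]
      ring
    · have e1 : m + 1 + n - m + 1 = n + 2 := by omega
      have e2 : m + 1 + n - (m + 1) + 1 = n + 1 := by omega
      have e3 : m + 1 + n - m = n + 1 := by omega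
      have e4 : m + 1 + n - (m + 1) = n := by omega
      rw [e3]
      rw [e4] at h
      have hb : ∀ k ∈ Finset.range (n + 1), b (m + 1 + k) * (s ^ (n + 1 - k) * t ^ k) =
          s * (b (m + 1 + k) * (s ^ (n - k) * t ^ k)) := by
        intro k hk1
        rw [Finset.mem_range] at hk1
        rw [show n + 1 - k = (n - k) + 1 by omega, pow_succ]
        ring
      have hz : ∑ k ∈ Finset.range (n + 1 + 1), (if k ≤ n then b (m + 1 + k) else 0) *
          (s ^ (n + 1 - k) * t ^ k) =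
          s * ∑ k ∈ Finset.range (n + 1), b (m + 1 + k) * (s ^ (n - k) * t ^ k) := by
        rw [Finset.sum_range_succ, if_neg (by omega), zero_mul, add_zero, Finset.mul_sum]
        rw [← Finset.sum_congr rfl hb]
        apply Finset.sum_congr rfl
        intro k hk1
        rw [Finset.mem_range] at hk1
        rw [if_pos (by omega)]
      rw [Finset.sum_range_succ'] at hz
      rw [Finset.sum_range_succ', Finset.sum_range_succ' (fun k => a (m + k) * _)]
      have hl : ∀ k ∈ Finset.range (n + 1), SR (m + 1 + n) (m + 1) b (m + (k + 1)) *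
          (s ^ (n + 1 - (k + 1)) * t ^ (k + 1)) =
          2 * t * (b (m + 1 + k) * (s ^ (n - k) * t ^ k)) +
          (if k + 1 ≤ n then b (m + 1 + (k + 1)) else 0) *
          (s ^ (n + 1 - (k + 1)) * t ^ (k + 1)) := by
        intro k _
        simp only [SR]
        rw [if_pos (by omega), show m + (k + 1) = m + 1 + k by ring,
          show n + 1 - (k + 1) = n - k by omega]
        by_cases hc : k + 1 ≤ n
        · rw [if_pos (by omega), if_pos (by omega), if_pos hc,
            show m + 1 + k + 1 = m + 1 + (k + 1) by ring]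
          ring
        · rw [if_neg (by omega), if_neg hc]
          ring
      have hr : ∀ k ∈ Finset.range (n + 1), a (m + (k + 1)) *
          (s ^ (n + 1 - (k + 1)) * (s + 2 * t) ^ (k + 1)) =
          (s + 2 * t) * (a (m + 1 + k) * (s ^ (n - k) * (s + 2 * t) ^ k)) := by
        intro k _
        rw [show m + (k + 1) = m + 1 + k by ring, show n + 1 - (k + 1) = n - k by omega]
        ring
      rw [Finset.sum_congr rfl hl, Finset.sum_congr rfl hr, Finset.sum_add_distrib,
        ← Finset.mul_sum, ← Finset.mul_sum, ← h]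
      have h0 : SR (m + 1 + n) (m + 1) b (m + 0) = b m + b (m + 1) := by
        simp only [SR]
        rw [if_neg (by omega), if_pos (by omega), if_pos (by omega)]
        simp
      rw [h0]
      have h1 : b m = a m := hk m (by omega)
      simp only [Nat.sub_zero, pow_zero, mul_one, add_zero, Nat.zero_le, if_true] at hz ⊢
      rw [h1]
      linarith

theorem univ_L (β s t : ℝ) (a : ℕ → ℝ) : ∀ m : ℕ, (∀ k, m < k → QL β m a k = a k) ∧
    ∑ k ∈ Finset.range (m + 1), QL β m a k * (s ^ (m - k) * t ^ k) =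
      ∑ k ∈ Finset.range (m + 1), a k * ((β * s + t) ^ (m - k) * t ^ k)
  | 0 => by simp [QL]
  | m + 1 => by
    obtain ⟨h1, h2⟩ := univ_L β s t a m
    refine ⟨?_, ?_⟩
    · intro k hk
      simp only [QL, SL]
      rw [if_neg (by omega), if_pos (by omega), if_neg (by omega), h1 k (by omega)]
      ring
    · set b := QL β m a with hb
      have hz : ∑ k ∈ Finset.range (m + 1 + 1), (if 1 ≤ k then b (k - 1) else 0) *
          (s ^ (m + 1 - k) * t ^ k) =
          t * ∑ k ∈ Finset.range (m + 1), b k * (s ^ (m - k) * t ^ k) := by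
        rw [Finset.sum_range_succ', if_neg (by omega), zero_mul, add_zero, Finset.mul_sum]
        apply Finset.sum_congr rfl
        intro k hk1
        rw [if_pos (by omega), show m + 1 - (k + 1) = m - k by omega, Nat.add_sub_cancel]
        ring
      rw [Finset.sum_range_succ] at hz
      rw [Finset.sum_range_succ, Finset.sum_range_succ (fun k => a k * _)]
      have hl : ∀ k ∈ Finset.range (m + 1), QL β (m + 1) a k * (s ^ (m + 1 - k) * t ^ k) =
          β * s * (b k * (s ^ (m - k) * t ^ k)) +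
          (if 1 ≤ k then b (k - 1) else 0) * (s ^ (m + 1 - k) * t ^ k) := by
        intro k hk1
        rw [Finset.mem_range] at hk1
        simp only [QL, SL]
        rw [← hb, if_pos (by omega), show m + 1 - k = m - k + 1 by omega]
        by_cases hc : 1 ≤ k
        · rw [if_pos hc, if_pos hc, if_pos (by omega)]
          ring
        · rw [if_neg hc, if_neg hc]
          ring
      have hr : ∀ k ∈ Finset.range (m + 1), a k * ((β * s + t) ^ (m + 1 - k) * t ^ k) =
          (β * s + t) * (a k * ((β * s + t) ^ (m - k) * t ^ k)) := by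
        intro k hk1
        rw [Finset.mem_range] at hk1
        rw [show m + 1 - k = m - k + 1 by omega]
        ring
      rw [Finset.sum_congr rfl hl, Finset.sum_congr rfl hr, Finset.sum_add_distrib,
        ← Finset.mul_sum, ← Finset.mul_sum, ← h2]
      have h0 : QL β (m + 1) a (m + 1) = a (m + 1) + b m := by
        simp only [QL, SL]
        rw [← hb, if_neg (by omega), if_pos (by omega), if_pos (by omega),
          h1 (m + 1) (by omega)]
        simp
      rw [h0]
      simp only [Nat.sub_self, pow_zero, one_mul, Nat.add_sub_cancel, Nat.le_add_left,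
        if_true] at hz ⊢
      linarith

theorem lt_iff (m k : ℕ) : lt m k = true ↔ k < m := by
  simp only [lt, Nat.ble_eq]
  exact Nat.succ_le_iff

theorem ge_iff (j k : ℕ) : ge j k = true ↔ j ≤ k := by
  simp only [ge, Nat.ble_eq]

theorem QR_lift (d : ℕ) (ds : List ℕ) (s t : ℕ → ℝ) : ∀ (n : ℕ) (c : Pol (d :: ds)) (k : ℕ),
    ev ds (qR (d :: ds) 0 n c k) s t = QR d n (fun k => ev ds (c k) s t) k
  | 0, c, k => rfl
  | n + 1, c, k => by
    show ev ds (qR (d :: ds) 0 n (stR (d :: ds) 0 (n + 1) c) k) s t = _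
    rw [QR_lift d ds s t n]
    show _ = QR d n (SR d (n + 1) (fun k => ev ds (c k) s t)) k
    congr 1
    funext k
    show ev ds (padd ds (padd ds (c k) (pmsk (ge (n + 1)) (d :: ds) 0 c k))
      (pdn (d :: ds) 0 (pmsk (ge (n + 1)) (d :: ds) 0 c) k)) s t = _
    rw [ev_add, ev_add]
    simp only [SR, pmsk, pdn, ge_iff]
    congr 1
    · congr 1
      split_ifs
      · rfl
      · exact ev_zero ds s t
    · split_ifs
      · rfl
      · exact ev_zero ds s t
      · exact ev_zero ds s t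

theorem QL_lift (d : ℕ) (ds : List ℕ) (s t : ℕ → ℝ) (c : Pol (d :: ds)) : ∀ (n : ℕ) (k : ℕ),
    ev ds (qL (d :: ds) 0 n c k) s t = QL 2 n (fun k => ev ds (c k) s t) k
  | 0, k => rfl
  | n + 1, k => by
    show ev ds (padd ds (padd ds (qL (d :: ds) 0 n c k)
      (pmsk (lt (n + 1)) (d :: ds) 0 (qL (d :: ds) 0 n c) k))
      (pup (d :: ds) 0 (pmsk (lt (n + 1)) (d :: ds) 0 (qL (d :: ds) 0 n c)) k)) s t = _
    rw [ev_add, ev_add]
    simp only [QL, SL, pmsk, pup, lt_iff, ← QL_lift d ds s t c n]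
    congr 1
    · congr 1
      split_ifs
      · ring
      · exact ev_zero ds s t
    · split_ifs
      · rfl
      · exact ev_zero ds s t
      · exact ev_zero ds s t

theorem QC_lift (d : ℕ) (ds : List ℕ) (s t : ℕ → ℝ) (c : Pol (d :: ds)) : ∀ (n : ℕ) (k : ℕ),
    ev ds (qC (d :: ds) 0 n c k) s t = QL 1 n (fun k => ev ds (c k) s t) k
  | 0, k => rfl
  | n + 1, k => by
    show ev ds (padd ds (qC (d :: ds) 0 n c k)
      (pup (d :: ds) 0 (pmsk (lt (n + 1)) (d :: ds) 0 (qC (d :: ds) 0 n c)) k)) s t = _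
    rw [ev_add]
    simp only [QL, SL, pmsk, pup, lt_iff, ← QC_lift d ds s t c n]
    rw [sub_self, zero_mul, ite_self, add_zero]
    congr 1
    split_ifs
    · rfl
    · exact ev_zero ds s t
    · exact ev_zero ds s t

theorem qR_succ (d : ℕ) (ds : List ℕ) (i : ℕ) : ∀ (n : ℕ) (c : Pol (d :: ds)),
    qR (d :: ds) (i + 1) n c = fun k => qR ds i n (c k)
  | 0, c => rfl
  | n + 1, c => by
    show qR (d :: ds) (i + 1) n (stR (d :: ds) (i + 1) (n + 1) c) = _
    rw [qR_succ d ds i n]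
    rfl

theorem qL_succ (d : ℕ) (ds : List ℕ) (i : ℕ) (c : Pol (d :: ds)) : ∀ n : ℕ,
    qL (d :: ds) (i + 1) n c = fun k => qL ds i n (c k)
  | 0 => rfl
  | n + 1 => by
    show stL (d :: ds) (i + 1) (n + 1) (qL (d :: ds) (i + 1) n c) = _
    rw [qL_succ d ds i c n]
    rfl

theorem qC_succ (d : ℕ) (ds : List ℕ) (i : ℕ) (c : Pol (d :: ds)) : ∀ n : ℕ,
    qC (d :: ds) (i + 1) n c = fun k => qC ds i n (c k)
  | 0 => rfl
  | n + 1 => by
    show stC (d :: ds) (i + 1) (n + 1) (qC (d :: ds) (i + 1) n c) = _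
    rw [qC_succ d ds i c n]
    rfl

theorem upd_zero (t : ℕ → ℝ) (x : ℝ) :
    (fun j => Function.update t 0 x (j + 1)) = fun j => t (j + 1) := by
  funext j
  rw [Function.update_of_ne (by omega)]

theorem ev_R : ∀ (ds : List ℕ) (i : ℕ) (c : Pol ds) (s t : ℕ → ℝ),
    ev ds (qR ds i (dg ds i) c) s t = ev ds c s (Function.update t i (s i + 2 * t i))
  | [], i, c, s, t => rfl
  | d :: ds, 0, c, s, t => by
    have h := univ_R (s 0) (t 0) d d
      (fun k => ev ds (c k) (fun j => s (j + 1)) (fun j => t (j + 1)))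
      (fun k => ev ds (c k) (fun j => s (j + 1)) (fun j => t (j + 1))) le_rfl
      (fun k _ => rfl) (by simp)
    show ∑ k ∈ Finset.range (d + 1), ev ds (qR (d :: ds) 0 d c k) (fun j => s (j + 1))
      (fun j => t (j + 1)) * (s 0 ^ (d - k) * t 0 ^ k) = ∑ k ∈ Finset.range (d + 1),
      ev ds (c k) (fun j => s (j + 1)) (fun j => Function.update t 0 (s 0 + 2 * t 0) (j + 1)) *
        (s 0 ^ (d - k) * Function.update t 0 (s 0 + 2 * t 0) 0 ^ k)
    rw [upd_zero, Function.update_self, ← h]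
    apply Finset.sum_congr rfl
    intro k _
    rw [QR_lift]
  | d :: ds, i + 1, c, s, t => by
    show ∑ k ∈ Finset.range (d + 1), ev ds (qR (d :: ds) (i + 1) (dg ds i) c k)
      (fun j => s (j + 1)) (fun j => t (j + 1)) * (s 0 ^ (d - k) * t 0 ^ k) =
      ∑ k ∈ Finset.range (d + 1), ev ds (c k) (fun j => s (j + 1))
        (fun j => Function.update t (i + 1) (s (i + 1) + 2 * t (i + 1)) (j + 1)) *
        (s 0 ^ (d - k) * Function.update t (i + 1) (s (i + 1) + 2 * t (i + 1)) 0 ^ k)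
    rw [PBox.upd_succ, Function.update_of_ne (by omega), qR_succ]
    apply Finset.sum_congr rfl
    intro k _
    rw [ev_R ds i]

theorem ev_L : ∀ (ds : List ℕ) (i : ℕ) (c : Pol ds) (s t : ℕ → ℝ),
    ev ds (qL ds i (dg ds i) c) s t = ev ds c (Function.update s i (2 * s i + t i)) t
  | [], i, c, s, t => rfl
  | d :: ds, 0, c, s, t => by
    have h := (univ_L 2 (s 0) (t 0)
      (fun k => ev ds (c k) (fun j => s (j + 1)) (fun j => t (j + 1))) d).2
    show ∑ k ∈ Finset.range (d + 1), ev ds (qL (d :: ds) 0 d c k) (fun j => s (j + 1))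
      (fun j => t (j + 1)) * (s 0 ^ (d - k) * t 0 ^ k) = ∑ k ∈ Finset.range (d + 1),
      ev ds (c k) (fun j => Function.update s 0 (2 * s 0 + t 0) (j + 1)) (fun j => t (j + 1)) *
        (Function.update s 0 (2 * s 0 + t 0) 0 ^ (d - k) * t 0 ^ k)
    rw [upd_zero, Function.update_self, ← h]
    apply Finset.sum_congr rfl
    intro k _
    rw [QL_lift]
  | d :: ds, i + 1, c, s, t => by
    show ∑ k ∈ Finset.range (d + 1), ev ds (qL (d :: ds) (i + 1) (dg ds i) c k)
      (fun j => s (j + 1)) (fun j => t (j + 1)) * (s 0 ^ (d - k) * t 0 ^ k) =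
      ∑ k ∈ Finset.range (d + 1), ev ds (c k)
        (fun j => Function.update s (i + 1) (2 * s (i + 1) + t (i + 1)) (j + 1))
        (fun j => t (j + 1)) *
        (Function.update s (i + 1) (2 * s (i + 1) + t (i + 1)) 0 ^ (d - k) * t 0 ^ k)
    rw [PBox.upd_succ, Function.update_of_ne (by omega), qL_succ]
    apply Finset.sum_congr rfl
    intro k _
    rw [ev_L ds i]

theorem ev_C : ∀ (ds : List ℕ) (i : ℕ) (c : Pol ds) (s t : ℕ → ℝ),
    ev ds (qC ds i (dg ds i) c) s t = ev ds c (Function.update s i (s i + t i)) t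
  | [], i, c, s, t => rfl
  | d :: ds, 0, c, s, t => by
    have h := (univ_L 1 (s 0) (t 0)
      (fun k => ev ds (c k) (fun j => s (j + 1)) (fun j => t (j + 1))) d).2
    rw [one_mul] at h
    show ∑ k ∈ Finset.range (d + 1), ev ds (qC (d :: ds) 0 d c k) (fun j => s (j + 1))
      (fun j => t (j + 1)) * (s 0 ^ (d - k) * t 0 ^ k) = ∑ k ∈ Finset.range (d + 1),
      ev ds (c k) (fun j => Function.update s 0 (s 0 + t 0) (j + 1)) (fun j => t (j + 1)) *
        (Function.update s 0 (s 0 + t 0) 0 ^ (d - k) * t 0 ^ k)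
    rw [upd_zero, Function.update_self, ← h]
    apply Finset.sum_congr rfl
    intro k _
    rw [QC_lift]
  | d :: ds, i + 1, c, s, t => by
    show ∑ k ∈ Finset.range (d + 1), ev ds (qC (d :: ds) (i + 1) (dg ds i) c k)
      (fun j => s (j + 1)) (fun j => t (j + 1)) * (s 0 ^ (d - k) * t 0 ^ k) =
      ∑ k ∈ Finset.range (d + 1), ev ds (c k)
        (fun j => Function.update s (i + 1) (s (i + 1) + t (i + 1)) (j + 1))
        (fun j => t (j + 1)) *
        (Function.update s (i + 1) (s (i + 1) + t (i + 1)) 0 ^ (d - k) * t 0 ^ k)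
    rw [PBox.upd_succ, Function.update_of_ne (by omega), qC_succ]
    apply Finset.sum_congr rfl
    intro k _
    rw [ev_C ds i]

/-! ### leaves -/

def Le : (ds : List ℕ) → Pol ds → Pol ds → Prop
  | [], a, b => Nat.le a b
  | d :: ds, a, b => ∀ k ≤ d, Le ds (a k) (b k)

theorem ev_le : ∀ (ds : List ℕ) (a b : Pol ds) (s t : ℕ → ℝ), (∀ j, 0 ≤ s j) →
    (∀ j, 0 ≤ t j) → Le ds a b → ev ds a s t ≤ ev ds b s t
  | [], a, b, _, _, _, _, h => by
    have h' : (a : ℕ) ≤ b := h
    show ((a : ℕ) : ℝ) ≤ ((b : ℕ) : ℝ)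
    exact_mod_cast h'
  | d :: ds, a, b, s, t, hs, ht, h => by
    simp only [ev]
    apply Finset.sum_le_sum
    intro k hk
    rw [Finset.mem_range] at hk
    apply mul_le_mul_of_nonneg_right
      (ev_le ds (a k) (b k) _ _ (fun j => hs _) (fun j => ht _) (h k (by omega)))
    have := hs 0
    have := ht 0
    positivity

theorem nl_pos : ∀ ds : List ℕ, 0 < nl ds
  | [] => Nat.one_pos
  | d :: ds => Nat.mul_pos (Nat.succ_pos d) (nl_pos ds)

theorem nl_cons (w d : ℕ) (ds : List ℕ) : w * nl (d :: ds) = w * nl ds * (d + 1) := by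
  show w * ((d + 1) * nl ds) = _
  ring

theorem mH_lt {w : ℕ} (hw : 1 ≤ w) : ∀ ds : List ℕ, mH w ds < 2 ^ (w * nl ds)
  | [] => by
    show 2 ^ (w - 1) < 2 ^ (w * 1)
    exact Nat.pow_lt_pow_right (by norm_num) (by omega)
  | d :: ds => by
    rw [nl_cons]
    exact bsum_lt (w * nl ds) (fun _ => mH w ds) (d + 1) (fun k _ => mH_lt hw ds)

theorem mH_top {w : ℕ} (hw : 1 ≤ w) : ∀ ds : List ℕ,
    (mH w ds).testBit (w * nl ds - 1) = true
  | [] => by
    show (2 ^ (w - 1)).testBit (w * 1 - 1) = true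
    rw [mul_one]
    exact Nat.testBit_two_pow_self
  | d :: ds => by
    have hq : 1 ≤ w * nl ds := Nat.mul_pos hw (nl_pos ds)
    have hl : bsum (w * nl ds) (fun _ => mH w ds) d < 2 ^ (w * nl ds * d) :=
      bsum_lt (w * nl ds) (fun _ => mH w ds) d (fun k _ => mH_lt hw ds)
    have e : mH w (d :: ds) = 2 ^ (w * nl ds * d) * mH w ds +
        bsum (w * nl ds) (fun _ => mH w ds) d := by
      show bsum (w * nl ds) (fun _ => mH w ds) (d + 1) = _
      rw [bsum_succ]
      ring
    rw [e, nl_cons, Nat.testBit_two_pow_mul_add _ hl, if_neg (by rw [Nat.mul_succ]; omega)]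
    have e2 : w * nl ds * (d + 1) - 1 - w * nl ds * d = w * nl ds - 1 := by
      rw [Nat.mul_succ]
      omega
    rw [e2]
    exact mH_top hw ds

theorem half {q x H : ℕ} (hx : x < 2 ^ q) (hH : H.testBit (q - 1) = true)
    (h : x &&& H = 0) : x < 2 ^ (q - 1) := by
  apply Nat.lt_pow_two_of_testBit
  intro i hi
  by_cases h1 : i = q - 1
  · subst h1
    have h2 : (x &&& H).testBit (q - 1) = false := by rw [h]; simp
    rw [Nat.testBit_and, hH, Bool.and_true] at h2
    exact h2
  · apply Nat.testBit_lt_two_pow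
    exact lt_of_lt_of_le hx (Nat.pow_le_pow_right (by norm_num) (by omega))

theorem digits {q H : ℕ} (hq : 1 ≤ q) (hH : H < 2 ^ q) (hT : H.testBit (q - 1) = true) :
    ∀ (n : ℕ) (f g : ℕ → ℕ) (Q : ℕ), (∀ k < n, f k < 2 ^ q) → (∀ k < n, g k < 2 ^ (q - 1)) →
    bsum q f n = bsum q g n + Q → Q &&& bsum q (fun _ => H) n = 0 →
    ∀ k < n, ∃ x, f k = g k + x ∧ x &&& H = 0
  | 0, _, _, _, _, _, _, _, k, hk => by omega
  | n + 1, f, g, Q, hf, hg, h, h0, k, hk => by
    have hZ : 0 < 2 ^ q := by positivity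
    have hQ : Q = Q % 2 ^ q + Q / 2 ^ q * 2 ^ q := by
      have := Nat.mod_add_div Q (2 ^ q)
      rw [mul_comm (Q / 2 ^ q)]
      exact this.symm
    have hQ0 : Q % 2 ^ q < 2 ^ q := Nat.mod_lt _ hZ
    rw [bsum_succ', mul_comm (2 ^ q), hQ, land_split _ _ hQ0 hH] at h0
    have h1 : (Q % 2 ^ q) &&& H = 0 := by omega
    have h2 : Q / 2 ^ q &&& bsum q (fun _ => H) n = 0 := by
      have : (Q / 2 ^ q &&& bsum q (fun _ => H) n) * 2 ^ q = 0 := by omega
      rcases Nat.mul_eq_zero.mp this with h | h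
      · exact h
      · omega
    have h3 := half hQ0 hT h1
    have h4 := hg 0 (by omega)
    have h5 : g 0 + Q % 2 ^ q < 2 ^ q := by
      have : 2 ^ q = 2 ^ (q - 1) + 2 ^ (q - 1) := by
        rw [← two_mul, ← pow_succ', Nat.sub_add_cancel hq]
      omega
    have h6 := hf 0 (by omega)
    rw [bsum_succ', bsum_succ'] at h
    have h7 : f 0 + 2 ^ q * bsum q (fun k => f (k + 1)) n =
        (g 0 + Q % 2 ^ q) + 2 ^ q * (bsum q (fun k => g (k + 1)) n + Q / 2 ^ q) := by
      rw [h]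
      nlinarith [hQ]
    have h8 : f 0 = g 0 + Q % 2 ^ q := by
      have := congrArg (fun z => z % 2 ^ q) h7
      simp only [Nat.add_mul_mod_self_left] at this
      rwa [Nat.mod_eq_of_lt h6, Nat.mod_eq_of_lt h5] at this
    have h9 : bsum q (fun k => f (k + 1)) n = bsum q (fun k => g (k + 1)) n + Q / 2 ^ q := by
      rw [h8] at h7
      exact Nat.eq_of_mul_eq_mul_left hZ (by omega)
    cases k with
    | zero => exact ⟨_, h8, h1⟩
    | succ k =>
      have h10 := digits hq hH hT n (fun k => f (k + 1)) (fun k => g (k + 1)) (Q / 2 ^ q)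
        (fun k hk => hf (k + 1) (by omega)) (fun k hk => hg (k + 1) (by omega)) h9 h2 k (by omega)
      exact h10

theorem pack_lt' {w : ℕ} (hw : 1 ≤ w) : ∀ (ds : List ℕ) (c : Pol ds), Bdd (2 ^ (w - 1)) ds c →
    pack w ds c < 2 ^ (w * nl ds - 1)
  | [], c, h => by
    show (c : ℕ) < 2 ^ (w * 1 - 1)
    rw [mul_one]
    exact h
  | d :: ds, c, h => by
    have hq : 1 ≤ w * nl ds := Nat.mul_pos hw (nl_pos ds)
    have hm : ∀ k < d, pack w ds (c k) < 2 ^ (w * nl ds) := fun k hk =>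
      lt_of_lt_of_le (pack_lt' hw ds (c k) (h k (by omega)))
        (Nat.pow_le_pow_right (by norm_num) (by omega))
    have hl := bsum_lt (w * nl ds) (fun k => pack w ds (c k)) d hm
    have ht : pack w ds (c d) + 1 ≤ 2 ^ (w * nl ds - 1) := pack_lt' hw ds (c d) (h d le_rfl)
    rw [nl_cons]
    show bsum (w * nl ds) (fun k => pack w ds (c k)) (d + 1) < _
    have e : w * nl ds * (d + 1) - 1 = (w * nl ds - 1) + w * nl ds * d := by
      rw [Nat.mul_succ]
      omega
    rw [bsum_succ, e, pow_add]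
    calc bsum (w * nl ds) (fun k => pack w ds (c k)) d + pack w ds (c d) * 2 ^ (w * nl ds * d)
        < 2 ^ (w * nl ds * d) + pack w ds (c d) * 2 ^ (w * nl ds * d) := by omega
      _ = (pack w ds (c d) + 1) * 2 ^ (w * nl ds * d) := by ring
      _ ≤ _ := Nat.mul_le_mul_right _ ht

theorem leaf {w : ℕ} (hw : 1 ≤ w) : ∀ (ds : List ℕ) (a b : Pol ds) (Q : ℕ),
    Bdd (2 ^ w) ds a → Bdd (2 ^ (w - 1)) ds b → pack w ds a = pack w ds b + Q →
    Q &&& mH w ds = 0 → Le ds b a
  | [], a, b, Q, _, _, h, _ => by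
    have h' : (a : ℕ) = (b : ℕ) + Q := h
    exact Nat.le.intro h'.symm
  | d :: ds, a, b, Q, ha, hb, h, h0 => by
    intro k hk
    obtain ⟨x, h1, h2⟩ := digits (Nat.mul_pos hw (nl_pos ds)) (mH_lt hw ds) (mH_top hw ds)
      (d + 1) (fun k => pack w ds (a k)) (fun k => pack w ds (b k)) Q
      (fun k hk => pack_lt w ds (a k) (ha k (by omega)))
      (fun k hk => pack_lt' hw ds (b k) (hb k (by omega))) h h0 k (by omega)
    exact leaf hw ds (a k) (b k) x (ha k hk) (hb k hk) h1 h2

/-! ### the tree -/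

/-- `L c`: the polynomial number `c` is nonnegative; `N i`: halve the variable `i` -/
inductive KT where
  | L : ℕ → KT
  | N : ℕ → KT → KT → KT

/-- the leaf for the first polynomial -/
@[reducible] def KT.O : KT := KT.L 0

def leafck (H P M : ℕ) : Bool :=
  and (Nat.ble M P) (Nat.beq (Nat.land (Nat.sub P M) H) 0)

def chk (w n : ℕ) (ds : List ℕ) : KT → ℕ → (ℕ → Bool → ℕ) → Bool
  | KT.L c, _, F => and (Nat.ble (Nat.succ c) n) (leafck (mH w ds) (F c true) (F c false))
  | KT.N i a b, r, F =>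
    and (Nat.ble (Nat.add r (Nat.mul 2 (dg ds i))) (Nat.pred w))
      (and (chk w n ds a (Nat.add r (Nat.mul 2 (dg ds i)))
          (fun c g => rL w ds i (sg w ds i) (dg ds i) (F c g)))
        (chk w n ds b (Nat.add r (Nat.mul 2 (dg ds i)))
          (fun c g => rR w ds i (sg w ds i) (dg ds i) (F c g))))

theorem chk_sound {w n : ℕ} (hw : 1 ≤ w) (ds : List ℕ) : ∀ (T : KT) (r : ℕ)
    (F : ℕ → Bool → ℕ) (a : ℕ → Bool → Pol ds) (s t : ℕ → ℝ),
    (∀ c g, F c g = pack w ds (a c g) ∧ Bdd (2 ^ r) ds (a c g)) → r ≤ w - 1 →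
    (∀ j, 0 ≤ s j) → (∀ j, 0 ≤ t j) → chk w n ds T r F = true →
    ∃ c < n, ev ds (a c false) s t ≤ ev ds (a c true) s t
  | KT.L c, r, F, a, s, t, hF, hr, hs, ht, h => by
    simp only [chk, leafck, Bool.and_eq_true] at h
    obtain ⟨h1, h2, h3⟩ := h
    refine ⟨c, Nat.le_of_ble_eq_true h1, ?_⟩
    apply ev_le ds _ _ s t hs ht
    have hp : 2 ^ r ≤ 2 ^ (w - 1) := Nat.pow_le_pow_right (by norm_num) hr
    have hp' : 2 ^ r ≤ 2 ^ w := Nat.pow_le_pow_right (by norm_num) (by omega)
    have h4 : F c false ≤ F c true := Nat.le_of_ble_eq_true h2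
    apply leaf hw ds _ _ (F c true - F c false) (Bdd_mono hp' _ _ (hF c true).2)
      (Bdd_mono hp _ _ (hF c false).2)
    · rw [← (hF c true).1, ← (hF c false).1]
      omega
    · exact Nat.eq_of_beq_eq_true h3
  | KT.N i T1 T2, r, F, a, s, t, hF, hr, hs, ht, h => by
    simp only [chk, Bool.and_eq_true] at h
    obtain ⟨h1, h2, h3⟩ := h
    have h4 : r + 2 * dg ds i ≤ w - 1 := Nat.le_of_ble_eq_true h1
    rcases le_total (t i) (s i) with hle | hle
    · have hs' : ∀ j, 0 ≤ Function.update s i ((s i - t i) / 2) j := by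
        intro j
        by_cases hj : j = i
        · subst hj
          simp
          linarith
        · rw [Function.update_of_ne hj]
          exact hs j
      obtain ⟨c, hc, key⟩ := chk_sound hw ds T1 (r + 2 * dg ds i) _
        (fun c g => qL ds i (dg ds i) (a c g))
        (Function.update s i ((s i - t i) / 2)) t
        (fun c g => by
          obtain ⟨h5, h6⟩ := pack_qL (w := w) i (hF c g).2 (dg ds i) le_rfl (by omega)
          refine ⟨?_, h6⟩
          rw [h5, (hF c g).1]) h4 hs' ht h2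
      refine ⟨c, hc, ?_⟩
      rw [ev_L, ev_L] at key
      have e : Function.update (Function.update s i ((s i - t i) / 2)) i
          (2 * Function.update s i ((s i - t i) / 2) i + t i) = s := by
        funext j
        by_cases hj : j = i
        · subst hj
          simp
          ring
        · rw [Function.update_of_ne hj, Function.update_of_ne hj]
      rwa [e] at key
    · have ht' : ∀ j, 0 ≤ Function.update t i ((t i - s i) / 2) j := by
        intro j
        by_cases hj : j = i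
        · subst hj
          simp
          linarith
        · rw [Function.update_of_ne hj]
          exact ht j
      obtain ⟨c, hc, key⟩ := chk_sound hw ds T2 (r + 2 * dg ds i) _
        (fun c g => qR ds i (dg ds i) (a c g)) s
        (Function.update t i ((t i - s i) / 2))
        (fun c g => by
          obtain ⟨h5, h6⟩ := pack_qR (w := w) i (dg ds i) r _ (hF c g).2 (by omega)
          refine ⟨?_, h6⟩
          rw [h5, (hF c g).1]) h4 hs ht' h3
      refine ⟨c, hc, ?_⟩
      rw [ev_R, ev_R] at key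
      have e : Function.update (Function.update t i ((t i - s i) / 2)) i
          (s i + 2 * Function.update t i ((t i - s i) / 2) i) = t := by
        funext j
        by_cases hj : j = i
        · subst hj
          simp
          ring
        · rw [Function.update_of_ne hj, Function.update_of_ne hj]
      rwa [e] at key

/-! ### the root -/

def ip : ℤ → ℕ
  | Int.ofNat n => n
  | Int.negSucc _ => 0

def im : ℤ → ℕ
  | Int.ofNat _ => 0
  | Int.negSucc n => Nat.succ n

theorem ip_im : ∀ c : ℤ, (c : ℝ) = (ip c : ℝ) - (im c : ℝ)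
  | Int.ofNat n => by simp [ip, im]
  | Int.negSucc n => by simp [ip, im]

def sel (g : Bool) (c : ℤ) : ℕ := cond g (ip c) (im c)

/-- position of a monomial -/
def pos (w : ℕ) : List ℕ → List ℕ → ℕ
  | [], _ => 0
  | _ :: _, [] => 0
  | _ :: ds, k :: ks => Nat.add (Nat.mul k (Nat.mul w (nl ds))) (pos w ds ks)

def pk (w : ℕ) (ds : List ℕ) (g : Bool) : List (ℤ × List ℕ) → ℕ
  | [] => 0
  | m :: ms => Nat.add (Nat.shiftLeft (sel g m.1) (pos w ds m.2)) (pk w ds g ms)

def sm (g : Bool) : List (ℤ × List ℕ) → ℕ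
  | [] => 1
  | m :: ms => Nat.add (Nat.succ (sel g m.1)) (sm g ms)

def pmono : (ds : List ℕ) → ℕ → List ℕ → Pol ds
  | [], c, _ => c
  | _ :: ds, c, [] => fun k => if k = 0 then pmono ds c [] else pzero ds
  | _ :: ds, c, e :: es => fun k => if k = e then pmono ds c es else pzero ds

def psum (ds : List ℕ) (g : Bool) : List (ℤ × List ℕ) → Pol ds
  | [] => pzero ds
  | m :: ms => padd ds (pmono ds (sel g m.1) m.2) (psum ds g ms)

theorem bsum_single (q x : ℕ) : ∀ (n e : ℕ), e < n →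
    bsum q (fun k => if k = e then x else 0) n = x * 2 ^ (q * e)
  | 0, e, h => by omega
  | n + 1, e, h => by
    rw [bsum_succ]
    by_cases he : n = e
    · subst he
      have : bsum q (fun k => if k = n then x else 0) n = bsum q (fun _ => 0) n := by
        apply bsum_congr
        intro k hk
        rw [if_neg (by omega)]
      have h0 := bsum_mul q 0 (fun _ => 0) n
      simp only [zero_mul] at h0
      rw [this, h0]
      simp
    · rw [bsum_single q x n e (by omega), if_neg he]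
      simp

theorem pack_ite (w : ℕ) (ds : List ℕ) (P : Prop) [Decidable P] (a : Pol ds) :
    pack w ds (if P then a else pzero ds) = if P then pack w ds a else 0 := by
  split_ifs
  · rfl
  · exact pack_zero w ds

theorem ev_ite (ds : List ℕ) (P : Prop) [Decidable P] (a : Pol ds) (s t : ℕ → ℝ) :
    ev ds (if P then a else pzero ds) s t = if P then ev ds a s t else 0 := by
  split_ifs
  · rfl
  · exact ev_zero ds s t

theorem pack_mono (w : ℕ) : ∀ (ds : List ℕ) (c : ℕ) (es : List ℕ), PBox.okm ds es = true →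
    pack w ds (pmono ds c es) = c * 2 ^ pos w ds es
  | [], c, [], _ => by simp [pack, pmono, pos]
  | [], c, e :: es, h => by simp [PBox.okm] at h
  | d :: ds, c, [], _ => by
    have ih := pack_mono w ds c [] (by cases ds <;> rfl)
    have hp : pos w ds [] = 0 := by cases ds <;> rfl
    rw [hp, pow_zero, mul_one] at ih
    simp only [pack, pmono, pos, pack_ite, ih]
    rw [bsum_single _ _ _ _ (Nat.succ_pos d)]
    simp
  | d :: ds, c, e :: es, h => by
    simp only [PBox.okm, Bool.and_eq_true, decide_eq_true_eq] at h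
    have ih := pack_mono w ds c es h.2
    simp only [pack, pmono, pack_ite, ih]
    rw [bsum_single _ _ _ _ (by omega)]
    show _ = c * 2 ^ (e * (w * nl ds) + pos w ds es)
    rw [pow_add]
    ring

theorem Bdd_mono' {B c : ℕ} (hc : c < B) : ∀ (ds : List ℕ) (es : List ℕ),
    Bdd B ds (pmono ds c es)
  | [], _ => hc
  | d :: ds, [] => fun k _ => by
    simp only [pmono]
    split_ifs
    · exact Bdd_mono' hc ds []
    · exact Bdd_zero (by omega) ds
  | d :: ds, e :: es => fun k _ => by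
    simp only [pmono]
    split_ifs
    · exact Bdd_mono' hc ds es
    · exact Bdd_zero (by omega) ds

theorem ev_mono : ∀ (ds : List ℕ) (c : ℕ) (es : List ℕ) (x : ℕ → ℝ), PBox.okm ds es = true →
    ev ds (pmono ds c es) (fun _ => 1) x = c * PBox.mon es x
  | [], c, [], x, _ => by simp [ev, pmono, PBox.mon]
  | [], c, e :: es, x, h => by simp [PBox.okm] at h
  | d :: ds, c, [], x, _ => by
    have ih := ev_mono ds c [] (fun j => x (j + 1)) (by cases ds <;> rfl)
    simp only [ev, pmono, ev_ite, ih, ite_mul, zero_mul]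
    rw [Finset.sum_ite_eq' (Finset.range (d + 1)) 0, if_pos (by simp)]
    simp [PBox.mon]
  | d :: ds, c, e :: es, x, h => by
    simp only [PBox.okm, Bool.and_eq_true, decide_eq_true_eq] at h
    have ih := ev_mono ds c es (fun j => x (j + 1)) h.2
    simp only [ev, pmono, ev_ite, ih, ite_mul, zero_mul]
    rw [Finset.sum_ite_eq' (Finset.range (d + 1)) e, if_pos (by simp; omega)]
    simp only [PBox.mon]
    ring

theorem pack_psum (w : ℕ) (ds : List ℕ) (g : Bool) : ∀ ms : List (ℤ × List ℕ),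
    PBox.okl ds ms = true → pack w ds (psum ds g ms) = pk w ds g ms
  | [], _ => pack_zero w ds
  | m :: ms, h => by
    simp only [PBox.okl, Bool.and_eq_true] at h
    simp only [psum]
    rw [pack_add, pack_mono w ds _ _ h.1, pack_psum w ds g ms h.2]
    show _ = (sel g m.1) <<< pos w ds m.2 + pk w ds g ms
    rw [Nat.shiftLeft_eq]

theorem Bdd_psum (ds : List ℕ) (g : Bool) : ∀ ms : List (ℤ × List ℕ),
    Bdd (sm g ms) ds (psum ds g ms)
  | [] => Bdd_zero Nat.one_pos ds
  | m :: ms => Bdd_add ds _ _ (Bdd_mono' (Nat.lt_succ_self _) ds m.2) (Bdd_psum ds g ms)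

theorem ev_psum (ds : List ℕ) : ∀ (ms : List (ℤ × List ℕ)) (x : ℕ → ℝ),
    PBox.okl ds ms = true →
    ev ds (psum ds true ms) (fun _ => 1) x - ev ds (psum ds false ms) (fun _ => 1) x =
      PBox.evm ms x
  | [], x, _ => by simp [psum, ev_zero, PBox.evm]
  | m :: ms, x, h => by
    simp only [PBox.okl, Bool.and_eq_true] at h
    have ih := ev_psum ds ms x h.2
    simp only [psum, PBox.evm]
    rw [ev_add, ev_add, ev_mono ds _ _ _ h.1, ev_mono ds _ _ _ h.1, ← ih, ip_im m.1]
    show (ip m.1 : ℝ) * _ + _ - ((im m.1 : ℝ) * _ + _) = _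
    ring

/-- homogenisation of the variables `< n` -/
def pC (w : ℕ) (ds : List ℕ) (n A : ℕ) : ℕ :=
  Nat.rec (motive := fun _ => ℕ) A (fun i ih => rC w ds i (sg w ds i) (dg ds i) ih) n

def qCC (ds : List ℕ) : ℕ → Pol ds → Pol ds
  | 0, c => c
  | i + 1, c => qC ds i (dg ds i) (qCC ds i c)

def sdg (ds : List ℕ) : ℕ → ℕ
  | 0 => 0
  | i + 1 => Nat.add (sdg ds i) (dg ds i)

theorem pack_qCC {w : ℕ} {ds : List ℕ} {b : ℕ} {c : Pol ds} (h : Bdd (2 ^ b) ds c) :
    ∀ n : ℕ, b + sdg ds n ≤ w → pack w ds (qCC ds n c) = pC w ds n (pack w ds c) ∧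
      Bdd (2 ^ (b + sdg ds n)) ds (qCC ds n c)
  | 0, _ => ⟨rfl, h⟩
  | n + 1, hb => by
    have e : sdg ds (n + 1) = sdg ds n + dg ds n := rfl
    rw [e] at hb ⊢
    obtain ⟨h1, h2⟩ := pack_qCC (w := w) h n (by omega)
    obtain ⟨h3, h4⟩ := pack_qC (w := w) n h2 (dg ds n) le_rfl (by omega)
    refine ⟨?_, ?_⟩
    · show pack w ds (qC ds n (dg ds n) (qCC ds n c)) = _
      rw [h3, h1]
      rfl
    · rw [← add_assoc]
      exact h4

theorem ev_qCC (ds : List ℕ) (c : Pol ds) (t : ℕ → ℝ) : ∀ (n : ℕ) (s : ℕ → ℝ),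
    ev ds (qCC ds n c) s t = ev ds c (fun j => if j < n then s j + t j else s j) t
  | 0, s => by simp [qCC]
  | n + 1, s => by
    show ev ds (qC ds n (dg ds n) (qCC ds n c)) s t = _
    rw [ev_C, ev_qCC ds c t n]
    congr 1
    funext j
    by_cases h1 : j < n
    · rw [if_pos h1, if_pos (by omega), Function.update_of_ne (by omega)]
    · rw [if_neg h1]
      by_cases h2 : j = n
      · subst h2
        rw [if_pos (by omega), Function.update_self]
      · rw [if_neg (by omega), Function.update_of_ne h2]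

def nth : List (List (ℤ × List ℕ)) → ℕ → List (ℤ × List ℕ)
  | [], _ => []
  | ms :: _, 0 => ms
  | _ :: mss, c + 1 => nth mss c

def okb (ds : List ℕ) (b : ℕ) : List (List (ℤ × List ℕ)) → Bool
  | [] => true
  | ms :: mss => and (and (PBox.okl ds ms) (and (Nat.ble (sm true ms) (Nat.pow 2 b))
      (Nat.ble (sm false ms) (Nat.pow 2 b)))) (okb ds b mss)

theorem okb_nth {ds : List ℕ} {b : ℕ} : ∀ (mss : List (List (ℤ × List ℕ))) (c : ℕ),
    okb ds b mss = true → PBox.okl ds (nth mss c) = true ∧ ∀ g, sm g (nth mss c) ≤ 2 ^ b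
  | [], c, _ => ⟨rfl, fun g => Nat.one_le_two_pow⟩
  | ms :: mss, 0, h => by
    simp only [okb, Bool.and_eq_true] at h
    refine ⟨h.1.1, fun g => ?_⟩
    cases g
    · exact Nat.le_of_ble_eq_true h.1.2.2
    · exact Nat.le_of_ble_eq_true h.1.2.1
  | ms :: mss, c + 1, h => by
    simp only [okb, Bool.and_eq_true] at h
    exact okb_nth mss c h.2

theorem nth_mem : ∀ (mss : List (List (ℤ × List ℕ))) (c : ℕ), c < mss.length →
    nth mss c ∈ mss
  | [], c, h => by simp at h
  | ms :: mss, 0, _ => by simp [nth]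
  | ms :: mss, c + 1, h => by
    have := nth_mem mss c (by simpa using h)
    simp only [nth]
    exact List.mem_cons_of_mem _ this

/-- **the checker**: `w` digit size, `b` bit size of the coefficient sums -/
def checkK (w b : ℕ) (ds : List ℕ) (T : KT) (mss : List (List (ℤ × List ℕ))) : Bool :=
  and (Nat.ble 1 w) (and (okb ds b mss) (and (Nat.ble (Nat.add b (sdg ds ds.length)) (Nat.pred w))
    (chk w mss.length ds T (Nat.add b (sdg ds ds.length))
      (fun c g => pC w ds ds.length (pk w ds g (nth mss c))))))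

/-- **soundness**: at every point of the unit box one of the polynomials is nonnegative -/
theorem checkK_sound {w b : ℕ} {ds : List ℕ} {T : KT} {mss : List (List (ℤ × List ℕ))}
    (h : checkK w b ds T mss = true) (l : List ℝ) (hl : ∀ a ∈ l, 0 ≤ a ∧ a ≤ 1) :
    ∃ ms ∈ mss, 0 ≤ PBox.evm ms (PBox.xs l) := by
  simp only [checkK, Bool.and_eq_true] at h
  obtain ⟨h1, h2, h3, h4⟩ := h
  have hw : 1 ≤ w := Nat.le_of_ble_eq_true h1
  have hb : b + sdg ds ds.length ≤ w - 1 := Nat.le_of_ble_eq_true h3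
  have hx := PBox.xs_box l hl
  obtain ⟨c, hc, key⟩ := chk_sound hw ds T _ _
    (fun c g => qCC ds ds.length (psum ds g (nth mss c)))
    (fun j => if j < ds.length then 1 - PBox.xs l j else 1) (PBox.xs l)
    (fun c g => by
      obtain ⟨h5, h6⟩ := okb_nth mss c h2
      obtain ⟨h7, h8⟩ := pack_qCC (w := w) (Bdd_mono (h6 g) _ _ (Bdd_psum ds g (nth mss c)))
        ds.length (by omega)
      refine ⟨?_, h8⟩
      rw [h7, pack_psum w ds g _ h5]) hb
    (fun j => by
      split_ifs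
      · linarith [(hx j).2]
      · norm_num) (fun j => (hx j).1) h4
  refine ⟨nth mss c, nth_mem mss c hc, ?_⟩
  rw [ev_qCC, ev_qCC] at key
  have e : (fun j => if j < ds.length then
      (if j < ds.length then 1 - PBox.xs l j else 1) + PBox.xs l j
      else (if j < ds.length then 1 - PBox.xs l j else 1)) = fun _ => (1 : ℝ) := by
    funext j
    split_ifs
    · ring
    · rfl
  rw [e] at key
  rw [← ev_psum ds _ _ (okb_nth mss c h2).1]
  linarith

/-- one polynomial -/
theorem checkK_sound1 {w b : ℕ} {ds : List ℕ} {T : KT} {ms : List (ℤ × List ℕ)}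
    (h : checkK w b ds T [ms] = true) (l : List ℝ) (hl : ∀ a ∈ l, 0 ≤ a ∧ a ≤ 1) :
    0 ≤ PBox.evm ms (PBox.xs l) := by
  obtain ⟨m, hm, h0⟩ := checkK_sound h l hl
  rw [List.mem_singleton] at hm
  rwa [hm] at h0

end Helper43.KBox
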