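import Mathlib

/-!
# A verified checker for polynomial inequalities on the unit box, any number of variables

A polynomial with degree `d_j` in the variable `j` is stored as nested tuples of integers.
The value is `∑ c_e ∏ s_j ^ (d_j - e_j) * t_j ^ e_j`; nonnegative coefficients give a nonnegative
value for `s, t ≥ 0`, and the substitutions `(s, t) → (2 s + t, t)` and `(s, t) → (s, s + 2 t)`
halve the box in one variable (de Casteljau).
-/

set_option autoImplicit false

namespace Helper43.PBox

/-- tuples of length `n` -/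
@[reducible] def Vec (α : Type) : ℕ → Type
  | 0 => Unit
  | n + 1 => α × Vec α n

section vec
variable {α : Type}

def vev (f : α → ℝ) : (n : ℕ) → Vec α n → ℝ → ℝ → ℝ
  | 0, _, _, _ => 0
  | n + 1, v, s, t => f v.1 * s ^ n + t * vev f n v.2 s t

def vadd (add : α → α → α) : (n : ℕ) → Vec α n → Vec α n → Vec α n
  | 0, _, _ => ()
  | n + 1, v, w => (add v.1 w.1, vadd add n v.2 w.2)

def vmap (g : α → α) : (n : ℕ) → Vec α n → Vec α n
  | 0, _ => ()
  | n + 1, v => (g v.1, vmap g n v.2)

def vsnoc : (n : ℕ) → Vec α n → α → Vec α (n + 1)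
  | 0, _, a => (a, ())
  | n + 1, v, a => (v.1, vsnoc n v.2 a)

def vT (add : α → α → α) (z : α) : (n : ℕ) → Vec α n → Vec α n
  | 0, _ => ()
  | n + 1, v => vadd add (n + 1) (v.1, vT add z n v.2) (vsnoc n (vT add z n v.2) z)

def vD (dbl : α → α) : (n : ℕ) → Vec α n → Vec α n
  | 0, _ => ()
  | n + 1, v => (v.1, vmap dbl n (vD dbl n v.2))

def vrev : (n : ℕ) → Vec α n → Vec α n
  | 0, _ => ()
  | n + 1, v => vsnoc n (vrev n v.2) v.1

def vconst (z : α) : (n : ℕ) → Vec α n
  | 0 => ()
  | n + 1 => (z, vconst z n)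

def vset (z a : α) : (n : ℕ) → ℕ → Vec α n
  | 0, _ => ()
  | n + 1, 0 => (a, vconst z n)
  | n + 1, k + 1 => (z, vset z a n k)

def vall (c : α → Bool) : (n : ℕ) → Vec α n → Bool
  | 0, _ => true
  | n + 1, v => c v.1 && vall c n v.2

variable {f : α → ℝ} {add : α → α → α} {dbl g : α → α} {z : α} {s t : ℝ}

theorem vev_add (h : ∀ a b, f (add a b) = f a + f b) : ∀ (n : ℕ) (v w : Vec α n),
    vev f n (vadd add n v w) s t = vev f n v s t + vev f n w s t
  | 0, _, _ => by simp [vev]
  | n + 1, v, w => by
    simp only [vev, vadd, vev_add h n, h]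
    ring

theorem vev_map (g' : α → ℝ) (h : ∀ a, f (g a) = g' a) : ∀ (n : ℕ) (v : Vec α n),
    vev f n (vmap g n v) s t = vev g' n v s t
  | 0, _ => by simp [vev]
  | n + 1, v => by simp only [vev, vmap, vev_map g' h n, h]

theorem vev_two : ∀ (n : ℕ) (v : Vec α n),
    vev (fun a => 2 * f a) n v s t = 2 * vev f n v s t
  | 0, _ => by simp [vev]
  | n + 1, v => by
    simp only [vev, vev_two n]
    ring

theorem vev_snoc (a : α) : ∀ (n : ℕ) (v : Vec α n),
    vev f (n + 1) (vsnoc n v a) s t = s * vev f n v s t + f a * t ^ n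
  | 0, _ => by simp [vev, vsnoc]
  | n + 1, v => by
    have ih := vev_snoc a n v.2
    rw [vsnoc, vev, ih]
    simp only [vev]
    ring

theorem vev_T (h : ∀ a b, f (add a b) = f a + f b) (hz : f z = 0) : ∀ (n : ℕ) (v : Vec α n),
    vev f n (vT add z n v) s t = vev f n v s (t + s)
  | 0, _ => by simp [vev]
  | n + 1, v => by
    have ih := vev_T h hz n v.2
    rw [vT, vev_add h, vev_snoc, hz]
    simp only [vev, ih]
    ring

theorem vev_D (h : ∀ a, f (dbl a) = 2 * f a) : ∀ (n : ℕ) (v : Vec α n),
    vev f n (vD dbl n v) s t = vev f n v s (2 * t)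
  | 0, _ => by simp [vev]
  | n + 1, v => by
    have ih := vev_D h n v.2
    simp only [vev, vD]
    rw [vev_map (fun a => 2 * f a) h, vev_two, ih]
    ring

theorem vev_rev : ∀ (n : ℕ) (v : Vec α n), vev f n (vrev n v) s t = vev f n v t s
  | 0, _ => by simp [vev]
  | n + 1, v => by
    rw [vrev, vev_snoc, vev_rev n]
    simp only [vev]
    ring

theorem vev_const (hz : f z = 0) : ∀ n : ℕ, vev f n (vconst z n) s t = 0
  | 0 => by simp [vev]
  | n + 1 => by simp [vev, vconst, vev_const hz n, hz]

theorem vev_set (hz : f z = 0) (a : α) : ∀ (n k : ℕ), k < n →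
    vev f n (vset z a n k) 1 t = f a * t ^ k
  | 0, _, h => by omega
  | n + 1, 0, _ => by simp [vev, vset, vev_const hz n]
  | n + 1, k + 1, h => by
    have ih := vev_set hz a n k (by omega)
    simp only [vev, vset, ih, hz]
    ring

theorem vev_nonneg {c : α → Bool} (hc : ∀ a, c a = true → 0 ≤ f a) (hs : 0 ≤ s) (ht : 0 ≤ t) :
    ∀ (n : ℕ) (v : Vec α n), vall c n v = true → 0 ≤ vev f n v s t
  | 0, _, _ => by simp [vev]
  | n + 1, v, h => by
    simp only [vall, Bool.and_eq_true] at h
    have h1 := hc _ h.1
    have h2 := vev_nonneg hc hs ht n v.2 h.2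
    simp only [vev]
    positivity

end vec

/-- polynomials with the degrees `ds` -/
@[reducible] def Pol : List ℕ → Type
  | [] => ℤ
  | d :: ds => Vec (Pol ds) (d + 1)

def ev : (ds : List ℕ) → Pol ds → (ℕ → ℝ) → (ℕ → ℝ) → ℝ
  | [], z, _, _ => ((z : ℤ) : ℝ)
  | d :: ds, v, s, t =>
    vev (fun c => ev ds c (fun j => s (j + 1)) (fun j => t (j + 1))) (d + 1) v (s 0) (t 0)

def padd : (ds : List ℕ) → Pol ds → Pol ds → Pol ds
  | [], a, b => Int.add a b
  | d :: ds, v, w => vadd (padd ds) (d + 1) v w

def pzero : (ds : List ℕ) → Pol ds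
  | [] => (0 : ℤ)
  | d :: ds => vconst (pzero ds) (d + 1)

def pdbl : (ds : List ℕ) → Pol ds → Pol ds
  | [], a => Int.mul 2 a
  | d :: ds, v => vmap (pdbl ds) (d + 1) v

def pnn : (ds : List ℕ) → Pol ds → Bool
  | [], a => decide ((0 : ℤ) ≤ a)
  | d :: ds, v => vall (pnn ds) (d + 1) v

def pR : (ds : List ℕ) → ℕ → Pol ds → Pol ds
  | [], _, z => z
  | d :: ds, 0, v => vD (pdbl ds) (d + 1) (vT (padd ds) (pzero ds) (d + 1) v)
  | d :: ds, i + 1, v => vmap (pR ds i) (d + 1) v

def pL : (ds : List ℕ) → ℕ → Pol ds → Pol ds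
  | [], _, z => z
  | d :: ds, 0, v => vrev (d + 1) (vD (pdbl ds) (d + 1)
      (vT (padd ds) (pzero ds) (d + 1) (vrev (d + 1) v)))
  | d :: ds, i + 1, v => vmap (pL ds i) (d + 1) v

def pC : (ds : List ℕ) → Pol ds → Pol ds
  | [], z => z
  | d :: ds, v => vrev (d + 1) (vT (padd ds) (pzero ds) (d + 1)
      (vrev (d + 1) (vmap (pC ds) (d + 1) v)))

theorem ev_add : ∀ (ds : List ℕ) (p q : Pol ds) (s t : ℕ → ℝ),
    ev ds (padd ds p q) s t = ev ds p s t + ev ds q s t
  | [], p, q, s, t => by
    show ((Int.add p q : ℤ) : ℝ) = ((p : ℤ) : ℝ) + ((q : ℤ) : ℝ)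
    exact Int.cast_add p q
  | d :: ds, p, q, s, t => by
    simp only [ev, padd]
    exact vev_add (fun a b => ev_add ds a b _ _) _ _ _

theorem ev_zero : ∀ (ds : List ℕ) (s t : ℕ → ℝ), ev ds (pzero ds) s t = 0
  | [], s, t => by
    show (((0 : ℤ) : ℤ) : ℝ) = 0
    exact Int.cast_zero
  | d :: ds, s, t => by
    simp only [ev, pzero]
    exact vev_const (f := fun c => ev ds c (fun j => s (j + 1)) (fun j => t (j + 1)))
      (ev_zero ds _ _) _

theorem ev_dbl : ∀ (ds : List ℕ) (p : Pol ds) (s t : ℕ → ℝ),
    ev ds (pdbl ds p) s t = 2 * ev ds p s t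
  | [], p, s, t => by
    show ((Int.mul 2 p : ℤ) : ℝ) = 2 * ((p : ℤ) : ℝ)
    rw [show Int.mul 2 p = 2 * p from rfl]
    push_cast
    ring
  | d :: ds, p, s, t => by
    simp only [ev, pdbl]
    rw [vev_map (fun a => 2 * ev ds a (fun j => s (j + 1)) (fun j => t (j + 1)))
      (fun a => ev_dbl ds a _ _), vev_two]

theorem ev_nonneg : ∀ (ds : List ℕ) (p : Pol ds) (s t : ℕ → ℝ), (∀ j, 0 ≤ s j) →
    (∀ j, 0 ≤ t j) → pnn ds p = true → 0 ≤ ev ds p s t
  | [], p, s, t, _, _, h => by
    simp only [pnn, decide_eq_true_eq] at h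
    simp only [ev]
    exact_mod_cast h
  | d :: ds, p, s, t, hs, ht, h => by
    simp only [pnn] at h
    simp only [ev]
    exact vev_nonneg (fun a ha => ev_nonneg ds a _ _ (fun j => hs _) (fun j => ht _) ha)
      (hs 0) (ht 0) _ _ h

theorem upd_succ (t : ℕ → ℝ) (i : ℕ) (x : ℝ) :
    (fun j => Function.update t (i + 1) x (j + 1)) =
      Function.update (fun j => t (j + 1)) i x := by
  funext j
  by_cases h : j = i
  · subst h
    simp
  · rw [Function.update_of_ne h, Function.update_of_ne (by omega)]

theorem ev_R : ∀ (ds : List ℕ) (i : ℕ) (p : Pol ds) (s t : ℕ → ℝ),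
    ev ds (pR ds i p) s t = ev ds p s (Function.update t i (2 * t i + s i))
  | [], i, p, s, t => by simp only [ev, pR]
  | d :: ds, 0, p, s, t => by
    simp only [ev, pR]
    rw [vev_D (fun a => ev_dbl ds a _ _), vev_T (fun a b => ev_add ds a b _ _)
      (ev_zero ds _ _)]
    simp
  | d :: ds, i + 1, p, s, t => by
    simp only [ev, pR]
    rw [vev_map _ (fun a => ev_R ds i a _ _), upd_succ]
    simp

theorem ev_L : ∀ (ds : List ℕ) (i : ℕ) (p : Pol ds) (s t : ℕ → ℝ),
    ev ds (pL ds i p) s t = ev ds p (Function.update s i (2 * s i + t i)) t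
  | [], i, p, s, t => by simp only [ev, pL]
  | d :: ds, 0, p, s, t => by
    simp only [ev, pL]
    rw [vev_rev, vev_D (fun a => ev_dbl ds a _ _), vev_T (fun a b => ev_add ds a b _ _)
      (ev_zero ds _ _), vev_rev]
    simp
  | d :: ds, i + 1, p, s, t => by
    simp only [ev, pL]
    rw [vev_map _ (fun a => ev_L ds i a _ _), upd_succ]
    simp

theorem ev_C : ∀ (ds : List ℕ) (p : Pol ds) (s t : ℕ → ℝ),
    ev ds (pC ds p) s t = ev ds p (fun j => s j + t j) t
  | [], p, s, t => by simp only [ev, pC]
  | d :: ds, p, s, t => by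
    simp only [ev, pC]
    rw [vev_rev, vev_T (fun a b => ev_add ds a b _ _) (ev_zero ds _ _), vev_rev,
      vev_map _ (fun a => ev_C ds a _ _)]

/-- bisection in the variables of the list -/
def chk (ds : List ℕ) : List ℕ → Pol ds → Bool
  | [], p => pnn ds p
  | i :: is, p => pnn ds p || (chk ds is (pL ds i p) && chk ds is (pR ds i p))

theorem chk_sound (ds : List ℕ) : ∀ (is : List ℕ) (p : Pol ds) (s t : ℕ → ℝ),
    (∀ j, 0 ≤ s j) → (∀ j, 0 ≤ t j) → chk ds is p = true → 0 ≤ ev ds p s t
  | [], p, s, t, hs, ht, h => ev_nonneg ds p s t hs ht h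
  | i :: is, p, s, t, hs, ht, h => by
    simp only [chk, Bool.or_eq_true, Bool.and_eq_true] at h
    rcases h with h | ⟨h1, h2⟩
    · exact ev_nonneg ds p s t hs ht h
    · rcases le_total (t i) (s i) with hle | hle
      · have key := chk_sound ds is _ (Function.update s i ((s i - t i) / 2)) t ?_ ht h1
        · rw [ev_L] at key
          have e : Function.update (Function.update s i ((s i - t i) / 2)) i
              (2 * Function.update s i ((s i - t i) / 2) i + t i) = s := by
            funext j
            by_cases hj : j = i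
            · subst hj
              simp
              ring
            · rw [Function.update_of_ne hj, Function.update_of_ne hj]
          rwa [e] at key
        · intro j
          by_cases hj : j = i
          · subst hj
            simp
            linarith
          · rw [Function.update_of_ne hj]
            exact hs j
      · have key := chk_sound ds is _ s (Function.update t i ((t i - s i) / 2)) hs ?_ h2
        · rw [ev_R] at key
          have e : Function.update (Function.update t i ((t i - s i) / 2)) i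
              (2 * Function.update t i ((t i - s i) / 2) i + s i) = t := by
            funext j
            by_cases hj : j = i
            · subst hj
              simp
              ring
            · rw [Function.update_of_ne hj, Function.update_of_ne hj]
          rwa [e] at key
        · intro j
          by_cases hj : j = i
          · subst hj
            simp
            linarith
          · rw [Function.update_of_ne hj]
            exact ht j

/-- a monomial -/
def pmono : (ds : List ℕ) → ℤ → List ℕ → Pol ds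
  | [], c, _ => c
  | d :: ds, c, [] => vset (pzero ds) (pmono ds c []) (d + 1) 0
  | d :: ds, c, e :: es => vset (pzero ds) (pmono ds c es) (d + 1) e

/-- exponents in range -/
def okm : List ℕ → List ℕ → Bool
  | _, [] => true
  | [], _ :: _ => false
  | d :: ds, e :: es => decide (e ≤ d) && okm ds es

/-- value of a monomial -/
def mon : List ℕ → (ℕ → ℝ) → ℝ
  | [], _ => 1
  | e :: es, x => x 0 ^ e * mon es (fun j => x (j + 1))

theorem ev_mono : ∀ (ds : List ℕ) (c : ℤ) (es : List ℕ) (x : ℕ → ℝ), okm ds es = true →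
    ev ds (pmono ds c es) (fun _ => 1) x = c * mon es x
  | [], c, [], x, _ => by simp [ev, pmono, mon]
  | [], c, e :: es, x, h => by simp [okm] at h
  | d :: ds, c, [], x, _ => by
    have ih := ev_mono ds c [] (fun j => x (j + 1)) (by cases ds <;> rfl)
    simp only [ev, pmono]
    rw [vev_set (f := fun c => ev ds c (fun _ => 1) (fun j => x (j + 1))) (ev_zero ds _ _) _ _ _
      (Nat.succ_pos d), ih]
    simp [mon]
  | d :: ds, c, e :: es, x, h => by
    simp only [okm, Bool.and_eq_true, decide_eq_true_eq] at h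
    have ih := ev_mono ds c es (fun j => x (j + 1)) h.2
    simp only [ev, pmono]
    rw [vev_set (f := fun c => ev ds c (fun _ => 1) (fun j => x (j + 1))) (ev_zero ds _ _) _ _ _
      (by omega), ih]
    simp only [mon]
    ring

/-- sum of monomials -/
def psum (ds : List ℕ) : List (ℤ × List ℕ) → Pol ds
  | [] => pzero ds
  | m :: ms => padd ds (pmono ds m.1 m.2) (psum ds ms)

/-- value of a list of monomials -/
def evm : List (ℤ × List ℕ) → (ℕ → ℝ) → ℝ
  | [], _ => 0
  | m :: ms, x => m.1 * mon m.2 x + evm ms x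

def okl (ds : List ℕ) : List (ℤ × List ℕ) → Bool
  | [] => true
  | m :: ms => okm ds m.2 && okl ds ms

theorem ev_psum (ds : List ℕ) : ∀ (ms : List (ℤ × List ℕ)) (x : ℕ → ℝ), okl ds ms = true →
    ev ds (psum ds ms) (fun _ => 1) x = evm ms x
  | [], x, _ => ev_zero ds _ _
  | m :: ms, x, h => by
    simp only [okl, Bool.and_eq_true] at h
    simp only [psum, evm]
    rw [ev_add, ev_mono ds _ _ _ h.1, ev_psum ds ms x h.2]

/-- the point with the coordinates of the list -/
def xs : List ℝ → ℕ → ℝ
  | [], _ => 0
  | a :: _, 0 => a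
  | _ :: l, j + 1 => xs l j

/-- **the checker** -/
def check (ds : List ℕ) (is : List ℕ) (ms : List (ℤ × List ℕ)) : Bool :=
  okl ds ms && chk ds is (pC ds (psum ds ms))

/-- **soundness**: nonnegativity on the unit box -/
theorem check_sound {ds is : List ℕ} {ms : List (ℤ × List ℕ)} (h : check ds is ms = true)
    (x : ℕ → ℝ) (h0 : ∀ j, 0 ≤ x j) (h1 : ∀ j, x j ≤ 1) : 0 ≤ evm ms x := by
  simp only [check, Bool.and_eq_true] at h
  rw [← ev_psum ds ms x h.1]
  have key := chk_sound ds is _ (fun j => 1 - x j) x (fun j => by linarith [h1 j]) h0 h.2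
  rw [ev_C] at key
  simpa using key

theorem xs_box : ∀ (l : List ℝ), (∀ a ∈ l, 0 ≤ a ∧ a ≤ 1) → ∀ j, 0 ≤ xs l j ∧ xs l j ≤ 1
  | [], _, j => by simp [xs]
  | a :: l, h, 0 => by
    have := h a (by simp)
    simpa [xs] using this
  | a :: l, h, j + 1 => by
    have := xs_box l (fun b hb => h b (by simp [hb])) j
    simpa [xs] using this

/-- soundness for an explicit list of coordinates -/
theorem check_sound_list {ds is : List ℕ} {ms : List (ℤ × List ℕ)}
    (h : check ds is ms = true) (l : List ℝ) (hl : ∀ a ∈ l, 0 ≤ a ∧ a ≤ 1) :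
    0 ≤ evm ms (xs l) :=
  check_sound h _ (fun j => (xs_box l hl j).1) (fun j => (xs_box l hl j).2)

/-- splitting trees: leaf, or halving in the variable `i` -/
inductive Tr where
  | L : Tr
  | N : ℕ → Tr → Tr → Tr

/-- bisection along a given tree -/
def chkT (ds : List ℕ) : Tr → Pol ds → Bool
  | Tr.L, p => pnn ds p
  | Tr.N i a b, p => chkT ds a (pL ds i p) && chkT ds b (pR ds i p)

theorem chkT_sound (ds : List ℕ) : ∀ (T : Tr) (p : Pol ds) (s t : ℕ → ℝ),
    (∀ j, 0 ≤ s j) → (∀ j, 0 ≤ t j) → chkT ds T p = true → 0 ≤ ev ds p s t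
  | Tr.L, p, s, t, hs, ht, h => ev_nonneg ds p s t hs ht h
  | Tr.N i a b, p, s, t, hs, ht, h => by
    simp only [chkT, Bool.and_eq_true] at h
    rcases le_total (t i) (s i) with hle | hle
    · have key := chkT_sound ds a _ (Function.update s i ((s i - t i) / 2)) t ?_ ht h.1
      · rw [ev_L] at key
        have e : Function.update (Function.update s i ((s i - t i) / 2)) i
            (2 * Function.update s i ((s i - t i) / 2) i + t i) = s := by
          funext j
          by_cases hj : j = i
          · subst hj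
            simp
            ring
          · rw [Function.update_of_ne hj, Function.update_of_ne hj]
        rwa [e] at key
      · intro j
        by_cases hj : j = i
        · subst hj
          simp
          linarith
        · rw [Function.update_of_ne hj]
          exact hs j
    · have key := chkT_sound ds b _ s (Function.update t i ((t i - s i) / 2)) hs ?_ h.2
      · rw [ev_R] at key
        have e : Function.update (Function.update t i ((t i - s i) / 2)) i
            (2 * Function.update t i ((t i - s i) / 2) i + s i) = t := by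
          funext j
          by_cases hj : j = i
          · subst hj
            simp
            ring
          · rw [Function.update_of_ne hj, Function.update_of_ne hj]
        rwa [e] at key
      · intro j
        by_cases hj : j = i
        · subst hj
          simp
          linarith
        · rw [Function.update_of_ne hj]
          exact ht j

/-- **the checker with a tree** -/
def checkT (ds : List ℕ) (T : Tr) (ms : List (ℤ × List ℕ)) : Bool :=
  okl ds ms && chkT ds T (pC ds (psum ds ms))

/-- **soundness**: nonnegativity on the unit box -/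
theorem checkT_sound {ds : List ℕ} {T : Tr} {ms : List (ℤ × List ℕ)}
    (h : checkT ds T ms = true) (l : List ℝ) (hl : ∀ a ∈ l, 0 ≤ a ∧ a ≤ 1) :
    0 ≤ evm ms (xs l) := by
  simp only [checkT, Bool.and_eq_true] at h
  rw [← ev_psum ds ms _ h.1]
  have hb := xs_box l hl
  have key := chkT_sound ds T _ (fun j => 1 - xs l j) (xs l)
    (fun j => by linarith [(hb j).2]) (fun j => (hb j).1) h.2
  rw [ev_C] at key
  simpa using key

end Helper43.PBox
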