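import Pool.Agent.Helper78.MEI.PtA
import Pool.Agent.Helper93.MEI.St2

/-!
# The node `(1, 1, 1)` of mass `0`

For a partner `q` with `w = ‖a 0 - q‖²` and caps `Q_k(q) ≤ S_k`, the strip function of
`Helper93.MEI.St` is an ordinary load: value `2 (Σ g_k + X)`, mass `0`, coordinates `(1, 1, 1)`.
It may be added to any other load.
-/

set_option autoImplicit false

namespace Helper43.MEI

open Set Metric Helper80.CW Helper14.CW Helper93.MEI Pool.Agent.Helper52.MEI Helper78.MEI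
open scoped RealInnerProductSpace

variable {a : Fin 4 → E3}

/-- the quadratic form of the partner -/
noncomputable def qf3 (x y z : ℝ) : ℝ := 3 / 2 * (x ^ 2 + y ^ 2 + z ^ 2) - x * y - x * z - y * z

/-- `4 max g - Σ g` -/
noncomputable def lf3 (x y z : ℝ) : ℝ := 4 * max x (max y z) - (x + y + z)

/-- the strip function: the root of `3/2 X² + l X + q(g) = w` -/
noncomputable def Xf (w x y z : ℝ) : ℝ :=
  (√(lf3 x y z ^ 2 + 6 * (w - qf3 x y z)) - lf3 x y z) / 3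

theorem lf3_nonneg {x y z : ℝ} (hx : 0 ≤ x) : 0 ≤ lf3 x y z := by
  have h1 := le_max_left x (max y z)
  have h2 : y ≤ max x (max y z) := (le_max_left y z).trans (le_max_right _ _)
  have h3 : z ≤ max x (max y z) := (le_max_right y z).trans (le_max_right _ _)
  unfold lf3
  linarith [h1.trans' hx]

theorem qf3_le {w x y z : ℝ} (hx : 0 ≤ x) (hy : 0 ≤ y) (hz : 0 ≤ z) (hx' : x ≤ w / 2)
    (hy' : y ≤ w / 2) (hz' : z ≤ w / 2) (hw : w ≤ 2) : qf3 x y z ≤ w := by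
  unfold qf3
  have hw0 : 0 ≤ w := by linarith
  have h1 : x * x ≤ x * (w / 2) := mul_le_mul_of_nonneg_left hx' hx
  have h2 : y * y ≤ y * (w / 2) := mul_le_mul_of_nonneg_left hy' hy
  have h3 : z * z ≤ z * (w / 2) := mul_le_mul_of_nonneg_left hz' hz
  have a1 := mul_nonneg (sub_nonneg.2 hx') (sub_nonneg.2 hy')
  have a2 := mul_nonneg (sub_nonneg.2 hx') (sub_nonneg.2 hz')
  have a3 := mul_nonneg (sub_nonneg.2 hy') (sub_nonneg.2 hz')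
  have b1 := mul_nonneg hx hy
  have b2 := mul_nonneg hx hz
  have b3 := mul_nonneg hy hz
  have hw2 : w * w ≤ 2 * w := mul_le_mul_of_nonneg_right hw hw0
  nlinarith

theorem Xf_eq {w x y z : ℝ} (h : qf3 x y z ≤ w) :
    3 / 2 * Xf w x y z ^ 2 + lf3 x y z * Xf w x y z + qf3 x y z = w := by
  have h0 : 0 ≤ lf3 x y z ^ 2 + 6 * (w - qf3 x y z) := by
    have := sq_nonneg (lf3 x y z)
    linarith
  have hs := Real.sq_sqrt h0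
  unfold Xf
  set r := √(lf3 x y z ^ 2 + 6 * (w - qf3 x y z))
  have e : 3 / 2 * ((r - lf3 x y z) / 3) ^ 2 + lf3 x y z * ((r - lf3 x y z) / 3) + qf3 x y z =
      (r ^ 2 - lf3 x y z ^ 2) / 6 + qf3 x y z := by ring
  rw [e, hs]
  ring

theorem Xf_nonneg {w x y z : ℝ} (h : qf3 x y z ≤ w) : 0 ≤ Xf w x y z := by
  unfold Xf
  have h1 : lf3 x y z ≤ √(lf3 x y z ^ 2 + 6 * (w - qf3 x y z)) :=
    Real.le_sqrt_of_sq_le (by linarith)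
  exact div_nonneg (by linarith) (by norm_num)

/-- **the strip function as a load**, any admissible `X` -/
theorem U_load (h : Gram4 (al a)) {q : E3} (hq : Pl a q) {S : Fin 3 → ℝ} {X l : ℝ}
    (v1 : Qv a 1 q ≤ S 0) (v2 : Qv a 2 q ≤ S 1) (v3 : Qv a 3 q ≤ S 2) (hl : 0 ≤ l)
    (l1 : 3 * gv (‖a 0 - q‖ ^ 2) (S 0) - gv (‖a 0 - q‖ ^ 2) (S 1) -
      gv (‖a 0 - q‖ ^ 2) (S 2) ≤ l)
    (l2 : 3 * gv (‖a 0 - q‖ ^ 2) (S 1) - gv (‖a 0 - q‖ ^ 2) (S 0) -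
      gv (‖a 0 - q‖ ^ 2) (S 2) ≤ l)
    (l3 : 3 * gv (‖a 0 - q‖ ^ 2) (S 2) - gv (‖a 0 - q‖ ^ 2) (S 0) -
      gv (‖a 0 - q‖ ^ 2) (S 1) ≤ l)
    (hX : 3 / 2 * X ^ 2 + l * X + qf3 (gv (‖a 0 - q‖ ^ 2) (S 0)) (gv (‖a 0 - q‖ ^ 2) (S 1))
      (gv (‖a 0 - q‖ ^ 2) (S 2)) ≤ ‖a 0 - q‖ ^ 2) :
    Load a q (2 * (gv (‖a 0 - q‖ ^ 2) (S 0) + gv (‖a 0 - q‖ ^ 2) (S 1) +
      gv (‖a 0 - q‖ ^ 2) (S 2) + X)) 0 (fun _ => 1) := by
  have hd := norm_d_sq h q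
  have hX' : 3 / 2 * X ^ 2 + l * X + (3 / 2 * (gv (‖a 0 - q‖ ^ 2) (S 0) ^ 2 +
      gv (‖a 0 - q‖ ^ 2) (S 1) ^ 2 + gv (‖a 0 - q‖ ^ 2) (S 2) ^ 2) -
      gv (‖a 0 - q‖ ^ 2) (S 0) * gv (‖a 0 - q‖ ^ 2) (S 1) -
      gv (‖a 0 - q‖ ^ 2) (S 0) * gv (‖a 0 - q‖ ^ 2) (S 2) -
      gv (‖a 0 - q‖ ^ 2) (S 1) * gv (‖a 0 - q‖ ^ 2) (S 2)) ≤ ‖a 0 - q‖ ^ 2 := hX
  have key := sum_ge (gv_le h (by decide) hq v1) (gv_le h (by decide) hq v2)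
    (gv_le h (by decide) hq v3) hd hl l1 l2 l3 hX'
  unfold Load
  linarith

/-- **the strip function as a load**, with the explicit root `Xf` -/
theorem U_load_Xf (h : Gram4 (al a)) {q : E3} (hq : Pl a q) {S : Fin 3 → ℝ}
    (hS : ∀ k, 0 ≤ S k) (hw : ‖a 0 - q‖ ^ 2 ≤ 2)
    (v1 : Qv a 1 q ≤ S 0) (v2 : Qv a 2 q ≤ S 1) (v3 : Qv a 3 q ≤ S 2) :
    Load a q (2 * (gv (‖a 0 - q‖ ^ 2) (S 0) + gv (‖a 0 - q‖ ^ 2) (S 1) +
      gv (‖a 0 - q‖ ^ 2) (S 2) + Xf (‖a 0 - q‖ ^ 2) (gv (‖a 0 - q‖ ^ 2) (S 0))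
        (gv (‖a 0 - q‖ ^ 2) (S 1)) (gv (‖a 0 - q‖ ^ 2) (S 2)))) 0 (fun _ => 1) := by
  have hw0 : 0 ≤ ‖a 0 - q‖ ^ 2 := by positivity
  have hg : ∀ k, gv (‖a 0 - q‖ ^ 2) (S k) ≤ ‖a 0 - q‖ ^ 2 / 2 := by
    intro k
    unfold gv pp
    have := hS k
    rcases max_cases (‖a 0 - q‖ ^ 2 - S k) 0 with ⟨e, _⟩ | ⟨e, _⟩ <;> rw [e] <;> linarith
  have hq3 := qf3_le (gv_nonneg (‖a 0 - q‖ ^ 2) (S 0)) (gv_nonneg (‖a 0 - q‖ ^ 2) (S 1))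
    (gv_nonneg (‖a 0 - q‖ ^ 2) (S 2)) (hg 0) (hg 1) (hg 2) hw
  have h1 := le_max_left (gv (‖a 0 - q‖ ^ 2) (S 0))
    (max (gv (‖a 0 - q‖ ^ 2) (S 1)) (gv (‖a 0 - q‖ ^ 2) (S 2)))
  have h2 : gv (‖a 0 - q‖ ^ 2) (S 1) ≤ max (gv (‖a 0 - q‖ ^ 2) (S 0))
      (max (gv (‖a 0 - q‖ ^ 2) (S 1)) (gv (‖a 0 - q‖ ^ 2) (S 2))) :=
    (le_max_left _ _).trans (le_max_right _ _)
  have h3 : gv (‖a 0 - q‖ ^ 2) (S 2) ≤ max (gv (‖a 0 - q‖ ^ 2) (S 0))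
      (max (gv (‖a 0 - q‖ ^ 2) (S 1)) (gv (‖a 0 - q‖ ^ 2) (S 2))) :=
    (le_max_right _ _).trans (le_max_right _ _)
  refine U_load h hq v1 v2 v3 (lf3_nonneg (gv_nonneg (‖a 0 - q‖ ^ 2) (S 0))) ?_ ?_ ?_
    (Xf_eq hq3).le
  · unfold lf3
    linarith
  · unfold lf3
    linarith
  · unfold lf3
    linarith

section comb
variable {q : E3} {t : ℝ × ℝ} {L m μ U : ℝ} {M S : Fin 3 → ℝ}

/-- a load plus `μ` times the node `(1, 1, 1)` -/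
theorem Load.addU (hL : Load a q L m M) (hU : Load a q U 0 (fun _ => 1)) (hμ : 0 ≤ μ) :
    Load a q (L + μ * U) m (fun k => M k + μ) := by
  have := hL.add (hU.smul hμ)
  simpa using this

/-- **a load, the node `(1, 1, 1)` and the caps** -/
theorem Yt_load_U_caps (h : Gram4 (al a)) (hL : Load a q L m M)
    (hU : Load a q U 0 (fun _ => 1)) (hμ : 0 ≤ μ) (hM : ∀ k, M k + μ ≤ T3 t k)
    (h1 : Qv a 1 q ≤ S 0) (h2 : Qv a 2 q ≤ S 1) (h3 : Qv a 3 q ≤ S 2) :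
    (L + μ * U - ((T3 t 0 - M 0 - μ) * S 0 + (T3 t 1 - M 1 - μ) * S 1
      + (T3 t 2 - M 2 - μ) * S 2))
      + (1 - (M 0 + M 1 + M 2 + 3 * μ - m)) * ‖a 0 - q‖ ^ 2 ≤ Yt a t q := by
  have key := Yt_load_caps h (t := t) (Load.addU hL hU hμ) hM h1 h2 h3
  beta_reduce at key
  linarith

/-- **a load, the node `(1, 1, 1)` and the caps cut at zero** -/
theorem Yt_load_U_pp (h : Gram4 (al a)) (hq : Pl a q) (hL : Load a q L m M)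
    (hU : Load a q U 0 (fun _ => 1)) (hμ : 0 ≤ μ) (hM : ∀ k, M k + μ ≤ T3 t k)
    (h1 : Qv a 1 q ≤ S 0) (h2 : Qv a 2 q ≤ S 1) (h3 : Qv a 3 q ≤ S 2) :
    L + μ * U + m * ‖a 0 - q‖ ^ 2 + ((T3 t 0 - M 0 - μ) * pp (‖a 0 - q‖ ^ 2 - S 0)
      + (T3 t 1 - M 1 - μ) * pp (‖a 0 - q‖ ^ 2 - S 1)
      + (T3 t 2 - M 2 - μ) * pp (‖a 0 - q‖ ^ 2 - S 2)) ≤ Yt a t q := by
  have g1 := gv_le h (by decide) hq h1
  have g2 := gv_le h (by decide) hq h2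
  have g3 := gv_le h (by decide) hq h3
  have k0 := Load.addU hL hU hμ
  have k1 := mul_le_mul_of_nonneg_left g1 (sub_nonneg.2 (hM 0))
  have k2 := mul_le_mul_of_nonneg_left g2 (sub_nonneg.2 (hM 1))
  have k3 := mul_le_mul_of_nonneg_left g3 (sub_nonneg.2 (hM 2))
  unfold gv at k1 k2 k3
  unfold Load at k0
  beta_reduce at k0
  unfold Yt
  linarith

end comb

end Helper43.MEI
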