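import Pool.Agent.Helper43.MEI.KBox

/-!
# Box checker for polynomials minus positive parts of polynomials

`checkX` proves: at every point of the unit box there is an alternative `(i, k)` of the table
with `0 ≤ p_i - ∑_{m=1}^{k} max p_{i+m} 0`.
-/

set_option autoImplicit false

namespace Helper43.XBox
open Helper43.KBox

/-- `L i τ`: alternative `i` with the tags `τ` of its positive parts (0: `≤ 0` on the box,
1: `≥ 0` on the box, other: undecided) -/
inductive XT where
  | L : ℕ → List ℕ → XT
  | N : ℕ → XT → XT → XT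

def lchk (H : ℕ) (F : ℕ → Bool → ℕ) : List ℕ → ℕ → ℕ → ℕ → Bool
  | [], _, P, M => leafck H P M
  | 0 :: τ, m, P, M => and (leafck H (F m false) (F m true)) (lchk H F τ (Nat.succ m) P M)
  | 1 :: τ, m, P, M => and (leafck H (F m true) (F m false))
      (lchk H F τ (Nat.succ m) (Nat.add P (F m false)) (Nat.add M (F m true)))
  | _ :: τ, m, P, M => and (lchk H F τ (Nat.succ m) P M)
      (lchk H F τ (Nat.succ m) (Nat.add P (F m false)) (Nat.add M (F m true)))

def mem (i k : ℕ) : List (ℕ × ℕ) → Bool
  | [] => false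
  | e :: tb => or (and (Nat.beq e.1 i) (Nat.beq e.2 k)) (mem i k tb)

def xchk (w : ℕ) (tb : List (ℕ × ℕ)) (ds : List ℕ) : XT → ℕ → (ℕ → Bool → ℕ) → Bool
  | XT.L i τ, r, F => and (mem i τ.length tb) (and (Nat.ble (Nat.add r τ.length) (Nat.pred w))
      (lchk (mH w ds) F τ (Nat.succ i) (F i true) (F i false)))
  | XT.N i a b, r, F =>
    and (Nat.ble (Nat.add r (Nat.mul 2 (dg ds i))) (Nat.pred w))
      (and (xchk w tb ds a (Nat.add r (Nat.mul 2 (dg ds i)))
          (fun c g => rL w ds i (sg w ds i) (dg ds i) (F c g)))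
        (xchk w tb ds b (Nat.add r (Nat.mul 2 (dg ds i)))
          (fun c g => rR w ds i (sg w ds i) (dg ds i) (F c g))))

/-- sum of the positive parts of `f i, …, f (i + k - 1)` -/
noncomputable def pps (f : ℕ → ℝ) : ℕ → ℕ → ℝ
  | 0, _ => 0
  | k + 1, i => max (f i) 0 + pps f k (i + 1)

theorem pps_congr {f g : ℕ → ℝ} (h : ∀ i, f i = g i) : ∀ k i, pps f k i = pps g k i
  | 0, _ => rfl
  | k + 1, i => by simp only [pps, h, pps_congr h k]

theorem leafck_sound {w r r' : ℕ} (hw : 1 ≤ w) {ds : List ℕ} {A B : Pol ds} {P M : ℕ}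
    (hP : P = pack w ds A) (hM : M = pack w ds B) (hA : Bdd (2 ^ r) ds A)
    (hB : Bdd (2 ^ r') ds B) (hr : r ≤ w - 1) (hr' : r' ≤ w - 1) {s t : ℕ → ℝ}
    (hs : ∀ j, 0 ≤ s j) (ht : ∀ j, 0 ≤ t j) (h : leafck (mH w ds) P M = true) :
    ev ds B s t ≤ ev ds A s t := by
  simp only [leafck, Bool.and_eq_true] at h
  obtain ⟨h2, h3⟩ := h
  apply ev_le ds _ _ s t hs ht
  have hp : 2 ^ r' ≤ 2 ^ (w - 1) := Nat.pow_le_pow_right (by norm_num) hr'
  have hw' : r ≤ w := by omega
  have hp' : 2 ^ r ≤ 2 ^ w := Nat.pow_le_pow_right (by norm_num) hw'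
  have h4 : M ≤ P := Nat.le_of_ble_eq_true h2
  apply leaf hw ds _ _ (P - M) (Bdd_mono hp' _ _ hA) (Bdd_mono hp _ _ hB)
  · rw [← hP, ← hM]
    omega
  · exact Nat.eq_of_beq_eq_true h3

theorem lchk_sound {w r : ℕ} (hw : 1 ≤ w) {ds : List ℕ} {F : ℕ → Bool → ℕ}
    {a : ℕ → Bool → Pol ds} (hF : ∀ c g, F c g = pack w ds (a c g) ∧ Bdd (2 ^ r) ds (a c g))
    {s t : ℕ → ℝ} (hs : ∀ j, 0 ≤ s j) (ht : ∀ j, 0 ≤ t j) :
    ∀ (τ : List ℕ) (m P M r' : ℕ) (A B : Pol ds), P = pack w ds A → M = pack w ds B →
      Bdd (2 ^ r') ds A → Bdd (2 ^ r') ds B → r ≤ r' → r' + τ.length ≤ w - 1 →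
      lchk (mH w ds) F τ m P M = true →
      ev ds B s t + pps (fun c => ev ds (a c true) s t - ev ds (a c false) s t) τ.length m ≤
        ev ds A s t
  | [], m, P, M, r', A, B, hP, hM, hA, hB, hr, hl, h => by
    have hl' : r' ≤ w - 1 := by simpa using hl
    have := leafck_sound hw hP hM hA hB hl' hl' hs ht h
    simpa [pps] using this
  | tg :: τ, m, P, M, r', A, B, hP, hM, hA, hB, hr, hl, h => by
    have hl1 : r' + 1 + τ.length ≤ w - 1 := by
      rw [List.length_cons] at hl
      omega
    have hl0 : r' + τ.length ≤ w - 1 := by omega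
    have hrw : r ≤ w - 1 := by omega
    have hb : ∀ g, Bdd (2 ^ r') ds (a m g) := fun g =>
      Bdd_mono (Nat.pow_le_pow_right (by norm_num) hr) _ _ (hF m g).2
    have e2 : 2 ^ r' + 2 ^ r' = 2 ^ (r' + 1) := by rw [pow_succ]; ring
    have hA1 : Bdd (2 ^ (r' + 1)) ds (padd ds A (a m false)) := by
      rw [← e2]
      exact Bdd_add ds _ _ hA (hb false)
    have hB1 : Bdd (2 ^ (r' + 1)) ds (padd ds B (a m true)) := by
      rw [← e2]
      exact Bdd_add ds _ _ hB (hb true)
    have hP1 : Nat.add P (F m false) = pack w ds (padd ds A (a m false)) := by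
      rw [pack_add, ← hP, ← (hF m false).1]
      rfl
    have hM1 : Nat.add M (F m true) = pack w ds (padd ds B (a m true)) := by
      rw [pack_add, ← hM, ← (hF m true).1]
      rfl
    have key0 := fun h' => lchk_sound hw hF hs ht τ (m + 1) P M r' A B hP hM hA hB hr hl0 h'
    have key1 := fun h' => lchk_sound hw hF hs ht τ (m + 1) _ _ (r' + 1) _ _ hP1 hM1 hA1 hB1
      (by omega) hl1 h'
    rw [ev_add, ev_add] at key1
    simp only [List.length_cons, pps]
    match tg, h with
    | 0, h =>
      simp only [lchk, Bool.and_eq_true] at h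
      have h1 := leafck_sound hw (hF m false).1 (hF m true).1 (hF m false).2 (hF m true).2
        hrw hrw hs ht h.1
      have h2 := key0 h.2
      rw [max_eq_right (by linarith)]
      linarith
    | 1, h =>
      simp only [lchk, Bool.and_eq_true] at h
      have h1 := leafck_sound hw (hF m true).1 (hF m false).1 (hF m true).2 (hF m false).2
        hrw hrw hs ht h.1
      have h2 := key1 h.2
      rw [max_eq_left (by linarith)]
      linarith
    | n + 2, h =>
      simp only [lchk, Bool.and_eq_true] at h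
      have h1 := key0 h.1
      have h2 := key1 h.2
      rcases le_total (ev ds (a m true) s t - ev ds (a m false) s t) 0 with h3 | h3
      · rw [max_eq_right h3]
        linarith
      · rw [max_eq_left h3]
        linarith

theorem mem_sound {i k : ℕ} : ∀ tb : List (ℕ × ℕ), mem i k tb = true → (i, k) ∈ tb
  | [], h => by simp [mem] at h
  | e :: tb, h => by
    simp only [mem, Bool.or_eq_true, Bool.and_eq_true] at h
    rcases h with ⟨h1, h2⟩ | h
    · have e1 : e.1 = i := Nat.eq_of_beq_eq_true h1
      have e2 : e.2 = k := Nat.eq_of_beq_eq_true h2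
      have : e = (i, k) := Prod.ext e1 e2
      rw [this]
      exact List.mem_cons_self
    · exact List.mem_cons_of_mem _ (mem_sound tb h)

theorem xchk_sound {w : ℕ} (hw : 1 ≤ w) (tb : List (ℕ × ℕ)) (ds : List ℕ) : ∀ (T : XT) (r : ℕ)
    (F : ℕ → Bool → ℕ) (a : ℕ → Bool → Pol ds) (s t : ℕ → ℝ),
    (∀ c g, F c g = pack w ds (a c g) ∧ Bdd (2 ^ r) ds (a c g)) → r ≤ w - 1 →
    (∀ j, 0 ≤ s j) → (∀ j, 0 ≤ t j) → xchk w tb ds T r F = true →
    ∃ e ∈ tb, pps (fun c => ev ds (a c true) s t - ev ds (a c false) s t) e.2 (e.1 + 1) ≤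
      ev ds (a e.1 true) s t - ev ds (a e.1 false) s t
  | XT.L i τ, r, F, a, s, t, hF, hr, hs, ht, h => by
    simp only [xchk, Bool.and_eq_true] at h
    obtain ⟨h1, h2, h3⟩ := h
    refine ⟨(i, τ.length), mem_sound tb h1, ?_⟩
    have h4 : r + τ.length ≤ w - 1 := Nat.le_of_ble_eq_true h2
    have := lchk_sound hw hF hs ht τ (i + 1) _ _ r _ _ (hF i true).1 (hF i false).1
      (hF i true).2 (hF i false).2 le_rfl h4 h3
    simp only
    linarith
  | XT.N i T1 T2, r, F, a, s, t, hF, hr, hs, ht, h => by
    simp only [xchk, Bool.and_eq_true] at h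
    obtain ⟨h1, h2, h3⟩ := h
    have h4 : r + 2 * dg ds i ≤ w - 1 := Nat.le_of_ble_eq_true h1
    rcases le_total (t i) (s i) with hle | hle
    · have hs' : ∀ j, 0 ≤ Function.update s i ((s i - t i) / 2) j := by
        intro j
        by_cases hj : j = i
        · subst hj
          simp
          linarith
        · rw [Function.update_of_ne hj]
          exact hs j
      obtain ⟨e, he, key⟩ := xchk_sound hw tb ds T1 (r + 2 * dg ds i) _
        (fun c g => qL ds i (dg ds i) (a c g))
        (Function.update s i ((s i - t i) / 2)) t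
        (fun c g => by
          obtain ⟨h5, h6⟩ := pack_qL (w := w) i (hF c g).2 (dg ds i) le_rfl (by omega)
          refine ⟨?_, h6⟩
          rw [h5, (hF c g).1]) h4 hs' ht h2
      refine ⟨e, he, ?_⟩
      have e1 : Function.update (Function.update s i ((s i - t i) / 2)) i
          (2 * Function.update s i ((s i - t i) / 2) i + t i) = s := by
        funext j
        by_cases hj : j = i
        · subst hj
          simp
          ring
        · rw [Function.update_of_ne hj, Function.update_of_ne hj]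
      simp only [ev_L, e1] at key
      exact key
    · have ht' : ∀ j, 0 ≤ Function.update t i ((t i - s i) / 2) j := by
        intro j
        by_cases hj : j = i
        · subst hj
          simp
          linarith
        · rw [Function.update_of_ne hj]
          exact ht j
      obtain ⟨e, he, key⟩ := xchk_sound hw tb ds T2 (r + 2 * dg ds i) _
        (fun c g => qR ds i (dg ds i) (a c g)) s
        (Function.update t i ((t i - s i) / 2))
        (fun c g => by
          obtain ⟨h5, h6⟩ := pack_qR (w := w) i (dg ds i) r _ (hF c g).2 (by omega)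
          refine ⟨?_, h6⟩
          rw [h5, (hF c g).1]) h4 hs ht' h3
      refine ⟨e, he, ?_⟩
      have e1 : Function.update (Function.update t i ((t i - s i) / 2)) i
          (s i + 2 * Function.update t i ((t i - s i) / 2) i) = t := by
        funext j
        by_cases hj : j = i
        · subst hj
          simp
          ring
        · rw [Function.update_of_ne hj, Function.update_of_ne hj]
      simp only [ev_R, e1] at key
      exact key

/-- **the checker**: `w` digit size, `b` bit size of the coefficient sums, `tb` the alternatives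
`(i, k)`: polynomial `i` minus the positive parts of the `k` following ones -/
def checkX (w b : ℕ) (ds : List ℕ) (tb : List (ℕ × ℕ)) (T : XT)
    (mss : List (List (ℤ × List ℕ))) : Bool :=
  and (Nat.ble 1 w) (and (okb ds b mss) (and (Nat.ble (Nat.add b (sdg ds ds.length)) (Nat.pred w))
    (xchk w tb ds T (Nat.add b (sdg ds ds.length))
      (fun c g => pC w ds ds.length (pk w ds g (nth mss c))))))

/-- **soundness** -/
theorem checkX_sound {w b : ℕ} {ds : List ℕ} {tb : List (ℕ × ℕ)} {T : XT}
    {mss : List (List (ℤ × List ℕ))}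
    (h : checkX w b ds tb T mss = true) (l : List ℝ) (hl : ∀ a ∈ l, 0 ≤ a ∧ a ≤ 1) :
    ∃ e ∈ tb, pps (fun c => PBox.evm (nth mss c) (PBox.xs l)) e.2 (e.1 + 1) ≤
      PBox.evm (nth mss e.1) (PBox.xs l) := by
  simp only [checkX, Bool.and_eq_true] at h
  obtain ⟨h1, h2, h3, h4⟩ := h
  have hw : 1 ≤ w := Nat.le_of_ble_eq_true h1
  have hb : b + sdg ds ds.length ≤ w - 1 := Nat.le_of_ble_eq_true h3
  have hx := PBox.xs_box l hl
  obtain ⟨c, hc, key⟩ := xchk_sound hw tb ds T _ _
    (fun c g => qCC ds ds.length (psum ds g (nth mss c)))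
    (fun j => if j < ds.length then 1 - PBox.xs l j else 1) (PBox.xs l)
    (fun c g => by
      obtain ⟨h5, h6⟩ := okb_nth mss c h2
      obtain ⟨h7, h8⟩ := pack_qCC (w := w) (Bdd_mono (h6 g) _ _ (Bdd_psum ds g (nth mss c)))
        ds.length (by omega)
      refine ⟨?_, h8⟩
      rw [h7, pack_psum w ds g _ h5]) hb
    (fun j => by
      split_ifs
      · linarith [(hx j).2]
      · norm_num) (fun j => (hx j).1) h4
  refine ⟨c, hc, ?_⟩
  have e : (fun j => if j < ds.length then
      (if j < ds.length then 1 - PBox.xs l j else 1) + PBox.xs l j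
      else (if j < ds.length then 1 - PBox.xs l j else 1)) = fun _ => (1 : ℝ) := by
    funext j
    split_ifs
    · ring
    · rfl
  have e2 : ∀ c, ev ds (qCC ds ds.length (psum ds true (nth mss c)))
      (fun j => if j < ds.length then 1 - PBox.xs l j else 1) (PBox.xs l) -
      ev ds (qCC ds ds.length (psum ds false (nth mss c)))
      (fun j => if j < ds.length then 1 - PBox.xs l j else 1) (PBox.xs l) =
      PBox.evm (nth mss c) (PBox.xs l) := fun c => by
    rw [ev_qCC, ev_qCC, e, ev_psum ds _ _ (okb_nth mss c h2).1]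
  simp only [e2] at key
  exact key

theorem mxs {L x : ℝ} (hL : 0 < L) : max (L * x) 0 = L * max x 0 := by
  rw [mul_max_of_nonneg _ _ hL.le, mul_zero]

end Helper43.XBox
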